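import Pool.Agent.Work.MP_92a29d_co.Defs

/-!
Definition for the statement on four colours, for tuples in any order.
-/

namespace Pool.Agent.Work.MP_92a29d_co

/-- After a permutation, the tuple is entrywise at most one of `(∞, ∞, 1, 1)`, `(∞, 3, 2, 1)`,
`(7, 4, 2, 1)`, `(6, 5, 2, 1)`, `(6, 3, 3, 1)`, `(5, 2, 2, 2)`, `(3, 3, 2, 2)`. -/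
def Small (m : Fin 4 → ℕ) : Prop :=
  ∃ σ : Equiv.Perm (Fin 4),
    (m (σ 2) ≤ 1 ∧ m (σ 3) ≤ 1) ∨
    (m (σ 1) ≤ 3 ∧ m (σ 2) ≤ 2 ∧ m (σ 3) ≤ 1) ∨
    (m (σ 0) ≤ 7 ∧ m (σ 1) ≤ 4 ∧ m (σ 2) ≤ 2 ∧ m (σ 3) ≤ 1) ∨
    (m (σ 0) ≤ 6 ∧ m (σ 1) ≤ 5 ∧ m (σ 2) ≤ 2 ∧ m (σ 3) ≤ 1) ∨
    (m (σ 0) ≤ 6 ∧ m (σ 1) ≤ 3 ∧ m (σ 2) ≤ 3 ∧ m (σ 3) ≤ 1) ∨
    (m (σ 0) ≤ 5 ∧ m (σ 1) ≤ 2 ∧ m (σ 2) ≤ 2 ∧ m (σ 3) ≤ 2) ∨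
    (m (σ 0) ≤ 3 ∧ m (σ 1) ≤ 3 ∧ m (σ 2) ≤ 2 ∧ m (σ 3) ≤ 2)

end Pool.Agent.Work.MP_92a29d_co
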