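import Pool.Agent.Work.MP_92a29d_co.Defs

/-!
Definitions for the final statement on four colours, for tuples in any order.
-/

namespace Pool.Agent.Work.MP_92a29d_co

/-- The eight minimal tuples with value `17`. -/
def minimalTuples : List (Fin 4 → ℕ) :=
  [![8, 4, 2, 1], ![7, 5, 2, 1], ![6, 6, 2, 1], ![7, 3, 3, 1], ![4, 4, 3, 1], ![6, 2, 2, 2],
    ![4, 3, 2, 2], ![3, 3, 3, 2]]

/-- Some rearrangement of `m` is entrywise at least one of the eight tuples. -/
def Large (m : Fin 4 → ℕ) : Prop :=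
  ∃ σ : Equiv.Perm (Fin 4), ∃ q ∈ minimalTuples, ∀ i, q i ≤ m (σ i)

end Pool.Agent.Work.MP_92a29d_co
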