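import Pool.Agent.Work.MP_92a29d_co_h16.AllTuples
import Pool.Agent.Work.MP_92a29d_co_h16.LargeDefs

/-!
Four colours: the value is 17 exactly for the tuples above one of eight minimal tuples.
-/

namespace Pool.Agent.Work.MP_92a29d_co

theorem not_avoid_minimal
    (hmin : ∀ t ∈ minTuples, ¬ Avoid (Fin 17) ![t.1, t.2.1, t.2.2.1, t.2.2.2])
    {q : Fin 4 → ℕ} (hq : q ∈ minimalTuples) : ¬ Avoid (Fin 17) q := by
  have key : ∀ k l a b : ℕ, 1 ≤ b → b ≤ a → a ≤ l → l ≤ k → ¬ Exceptional k l a b →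
      ¬ Avoid (Fin 17) ![k, l, a, b] := by
    intro k l a b h1 h2 h3 h4 hE
    have h := (full_of_minimal hmin k l a b h1 h2 h3 h4).2 hE
    rw [oddCycleRamsey_eq_iff _ 16] at h
    exact h.2
  simp only [minimalTuples, List.mem_cons, List.not_mem_nil, or_false] at hq
  rcases hq with rfl | rfl | rfl | rfl | rfl | rfl | rfl | rfl
  all_goals
    refine key _ _ _ _ (by norm_num) (by norm_num) (by norm_num) (by norm_num) ?_
    decide

theorem all_large
    (hmin : ∀ t ∈ minTuples, ¬ Avoid (Fin 17) ![t.1, t.2.1, t.2.2.1, t.2.2.2])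
    (m : Fin 4 → ℕ) (hm : ∀ i, 1 ≤ m i) : oddCycleRamsey m = 17 ↔ Large m := by
  constructor
  · intro h
    rw [all_tuples hmin m hm] at h
    by_contra hL
    apply h
    obtain ⟨σ, h1, h2, h3⟩ : ∃ σ : Equiv.Perm (Fin 4), m (σ 3) ≤ m (σ 2) ∧ m (σ 2) ≤ m (σ 1) ∧
        m (σ 1) ≤ m (σ 0) := by
      have hs := Tuple.monotone_sort m
      refine ⟨Fin.revPerm.trans (Tuple.sort m), ?_, ?_, ?_⟩
      · exact hs (show (0 : Fin 4) ≤ 1 by decide)
      · exact hs (show (1 : Fin 4) ≤ 2 by decide)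
      · exact hs (show (2 : Fin 4) ≤ 3 by decide)
    have key : ∀ k l a b : ℕ, ![k, l, a, b] ∈ minimalTuples →
        ¬ (k ≤ m (σ 0) ∧ l ≤ m (σ 1) ∧ a ≤ m (σ 2) ∧ b ≤ m (σ 3)) := by
      rintro k l a b hq ⟨e0, e1, e2, e3⟩
      refine hL ⟨σ, _, hq, fun i => ?_⟩
      fin_cases i
      · exact e0
      · exact e1
      · exact e2
      · exact e3
    have k1 := key 8 4 2 1 (by simp [minimalTuples])
    have k2 := key 7 5 2 1 (by simp [minimalTuples])
    have k3 := key 6 6 2 1 (by simp [minimalTuples])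
    have k4 := key 7 3 3 1 (by simp [minimalTuples])
    have k5 := key 4 4 3 1 (by simp [minimalTuples])
    have k6 := key 6 2 2 2 (by simp [minimalTuples])
    have k7 := key 4 3 2 2 (by simp [minimalTuples])
    have k8 := key 3 3 3 2 (by simp [minimalTuples])
    have p3 := hm (σ 3)
    refine ⟨σ, ?_⟩
    omega
  · rintro ⟨σ, q, hq, hle⟩
    rw [oddCycleRamsey_eq_iff _ 16]
    refine ⟨avoid_pow 4 _, fun hA => not_avoid_minimal hmin hq ?_⟩
    exact ((avoid_perm_iff σ).2 hA).mono hle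

end Pool.Agent.Work.MP_92a29d_co
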