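import Pool.Agent.Work.MP_92a29d_co_h16.Full
import Pool.Agent.Work.MP_92a29d_co_h16.AllDefs

/-!
Four colours, tuples in any order.
-/

namespace Pool.Agent.Work.MP_92a29d_co

theorem Avoid.permute {V : Type*} {t : ℕ} {m : Fin t → ℕ} (h : Avoid V m) (σ : Equiv.Perm (Fin t)) :
    Avoid V (fun i => m (σ i)) := by
  obtain ⟨G, h1, h2⟩ := h
  refine ⟨fun i => G (σ i), fun u v huv => ?_, fun i v p hp => h2 (σ i) v p hp⟩
  obtain ⟨i, hi⟩ := h1 u v huv
  refine ⟨σ.symm i, ?_⟩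
  change (G (σ (σ.symm i))).Adj u v
  rw [Equiv.apply_symm_apply]
  exact hi

theorem avoid_perm_iff {V : Type*} {t : ℕ} {m : Fin t → ℕ} (σ : Equiv.Perm (Fin t)) :
    Avoid V (fun i => m (σ i)) ↔ Avoid V m := by
  constructor
  · intro h
    have h1 := h.permute σ.symm
    have e : (fun i => (fun i => m (σ i)) (σ.symm i)) = m := by
      funext i
      change m (σ (σ.symm i)) = m i
      rw [Equiv.apply_symm_apply]
    rw [e] at h1
    exact h1
  · exact fun h => h.permute σ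

theorem vec_four (m : Fin 4 → ℕ) (σ : Equiv.Perm (Fin 4)) :
    (fun i => m (σ i)) = ![m (σ 0), m (σ 1), m (σ 2), m (σ 3)] := by
  funext i
  fin_cases i <;> rfl

theorem Small.avoid {m : Fin 4 → ℕ} (h : Small m) : Avoid (Fin 17) m := by
  obtain ⟨σ, h⟩ := h
  rw [← avoid_perm_iff σ]
  have key : ∀ k l a b : ℕ, 1 ≤ b → b ≤ a → a ≤ l → l ≤ k → Exceptional k l a b →
      m (σ 0) ≤ k → m (σ 1) ≤ l → m (σ 2) ≤ a → m (σ 3) ≤ b →
      Avoid (Fin 17) (fun i => m (σ i)) := by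
    intro k l a b h1 h2 h3 h4 hE e0 e1 e2 e3
    refine (avoid_exceptional h1 h2 h3 h4 hE).mono ?_
    intro i
    fin_cases i
    · exact e0
    · exact e1
    · exact e2
    · exact e3
  rcases h with h | h | h | h | h | h | h
  · refine key (m (σ 0) + m (σ 1) + 1) (m (σ 0) + m (σ 1) + 1) 1 1 le_rfl le_rfl (by omega) le_rfl
      (Or.inl rfl) (by omega) (by omega) h.1 h.2
  · refine key (m (σ 0) + 3) 3 2 1 le_rfl (by norm_num) (by norm_num) (by omega)
      (Or.inr (Or.inl ⟨le_rfl, le_rfl, rfl⟩)) (by omega) h.1 h.2.1 h.2.2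
  · exact key 7 4 2 1 (by norm_num) (by norm_num) (by norm_num) (by norm_num) (by decide)
      h.1 h.2.1 h.2.2.1 h.2.2.2
  · exact key 6 5 2 1 (by norm_num) (by norm_num) (by norm_num) (by norm_num) (by decide)
      h.1 h.2.1 h.2.2.1 h.2.2.2
  · exact key 6 3 3 1 (by norm_num) (by norm_num) (by norm_num) (by norm_num) (by decide)
      h.1 h.2.1 h.2.2.1 h.2.2.2
  · exact key 5 2 2 2 (by norm_num) (by norm_num) (by norm_num) (by norm_num) (by decide)
      h.1 h.2.1 h.2.2.1 h.2.2.2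
  · exact key 3 3 2 2 (by norm_num) (by norm_num) (by norm_num) (by norm_num) (by decide)
      h.1 h.2.1 h.2.2.1 h.2.2.2

theorem all_tuples
    (hmin : ∀ t ∈ minTuples, ¬ Avoid (Fin 17) ![t.1, t.2.1, t.2.2.1, t.2.2.2])
    (m : Fin 4 → ℕ) (hm : ∀ i, 1 ≤ m i) : oddCycleRamsey m = 17 ↔ ¬ Small m := by
  rw [oddCycleRamsey_eq_iff _ 16]
  constructor
  · rintro ⟨_, h⟩ hS
    exact h hS.avoid
  · intro hS
    refine ⟨avoid_pow 4 _, fun hA => hS ?_⟩
    obtain ⟨σ, h1, h2, h3⟩ : ∃ σ : Equiv.Perm (Fin 4), m (σ 3) ≤ m (σ 2) ∧ m (σ 2) ≤ m (σ 1) ∧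
        m (σ 1) ≤ m (σ 0) := by
      have hs := Tuple.monotone_sort m
      refine ⟨Fin.revPerm.trans (Tuple.sort m), ?_, ?_, ?_⟩
      · exact hs (show (0 : Fin 4) ≤ 1 by decide)
      · exact hs (show (1 : Fin 4) ≤ 2 by decide)
      · exact hs (show (2 : Fin 4) ≤ 3 by decide)
    have hE : Exceptional (m (σ 0)) (m (σ 1)) (m (σ 2)) (m (σ 3)) := by
      by_contra hE
      have h4 := (full_of_minimal hmin _ _ _ _ (hm (σ 3)) h1 h2 h3).2 hE
      rw [oddCycleRamsey_eq_iff _ 16, ← vec_four] at h4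
      exact h4.2 ((avoid_perm_iff σ).2 hA)
    refine ⟨σ, ?_⟩
    unfold Exceptional at hE
    have := hm (σ 3)
    omega

end Pool.Agent.Work.MP_92a29d_co
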