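import Pool.Agent.Work.MP_92a29d_co_h16.Levels
import Pool.Agent.Work.MP_92a29d_co.Four

/-!
Bounds for sets that are independent in one, two or three colours.
-/

namespace Pool.Agent.Work.MP_92a29d_co

open SimpleGraph Finset

/-- A covering of the complete graph by graphs with large odd girth. -/
structure Cover {t : ℕ} (V : Type*) (m : Fin t → ℕ) (G : Fin t → SimpleGraph V) : Prop where
  cov : ∀ u v, u ≠ v → ∃ i, (G i).Adj u v
  girth : ∀ i v (p : (G i).Walk v v), Odd p.length → 2 * m i + 1 < p.length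

theorem avoid_iff_cover {t : ℕ} {V : Type*} {m : Fin t → ℕ} :
    Avoid V m ↔ ∃ G : Fin t → SimpleGraph V, Cover V m G :=
  ⟨fun ⟨G, h1, h2⟩ => ⟨G, h1, h2⟩, fun ⟨G, h1, h2⟩ => ⟨G, h1, h2⟩⟩

theorem Cover.restrict {t s : ℕ} {V : Type*} {m : Fin t → ℕ} {m' : Fin s → ℕ}
    {G : Fin t → SimpleGraph V} (h : Cover V m G) (S : Finset V) (σ : Fin s → Fin t)
    (hσ : ∀ i, (∀ u ∈ S, ∀ w ∈ S, ¬ (G i).Adj u w) ∨ ∃ j, σ j = i)
    (hm : ∀ j, m' j ≤ m (σ j)) : Avoid (Fin S.card) m' := by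
  classical
  have hS : Avoid {v : V // v ∈ S} m' := by
    refine ⟨fun j => (G (σ j)).comap Subtype.val, ?_, ?_⟩
    · rintro ⟨u, hu⟩ ⟨v, hv⟩ huv
      obtain ⟨i, hi⟩ := h.cov u v (fun h => huv (Subtype.ext h))
      rcases hσ i with h1 | ⟨j, hj⟩
      · exact absurd hi (h1 u hu v hv)
      · refine ⟨j, ?_⟩
        change (G (σ j)).Adj u v
        rw [hj]; exact hi
    · intro j v p hp
      have h1 := h.girth (σ j) _ (p.map (SimpleGraph.Hom.comap Subtype.val _))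
        (by rw [Walk.length_map]; exact hp)
      rw [Walk.length_map] at h1
      have := hm j
      omega
  obtain ⟨f⟩ : Nonempty (Fin S.card ↪ {v : V // v ∈ S}) :=
    Function.Embedding.nonempty_of_card_le (by simp)
  exact hS.of_injective f f.injective

/-- A set that is independent in the colours outside the range of `σ` is small. -/
theorem Cover.card_le {t s : ℕ} {V : Type*} {m : Fin t → ℕ} {m' : Fin s → ℕ}
    {G : Fin t → SimpleGraph V} (h : Cover V m G) (S : Finset V) (σ : Fin s → Fin t)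
    (hσ : ∀ i, (∀ u ∈ S, ∀ w ∈ S, ¬ (G i).Adj u w) ∨ ∃ j, σ j = i)
    (hm : ∀ j, m' j ≤ m (σ j)) {k : ℕ} (hk : ¬ Avoid (Fin (k + 1)) m') : S.card ≤ k := by
  by_contra hcon
  exact hk ((h.restrict S σ hσ hm).fin_le (by omega))

theorem not_avoid_one {a : ℕ} (ha : 1 ≤ a) : ¬ Avoid (Fin 3) ![a] := by
  have h3 := one_colour ![a] (by simpa using ha)
  rw [oddCycleRamsey_eq_iff _ 2] at h3
  exact h3.2

/-- The four-colour setting: `k ≥ l ≥ m ≥ n` with the last three good. -/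
structure Tuple4 (k l m n : ℕ) : Prop where
  n1 : 1 ≤ n
  nm : n ≤ m
  ml : m ≤ l
  lk : l ≤ k
  good : Good3 l m n

variable {V : Type*} {k l m n : ℕ} {G : Fin 4 → SimpleGraph V}

theorem Tuple4.alphaEight (ht : Tuple4 k l m n) (h : Cover V ![k, l, m, n] G) (i : Fin 4) :
    AlphaEight (G i) := by
  intro S hS
  have h3 : ¬ Avoid (Fin (8 + 1)) ![l, m, n] := not_avoid_three ht.n1 ht.nm ht.ml ht.good
  have h4 := ht.nm
  have h5 := ht.ml
  have h6 := ht.lk
  fin_cases i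
  · refine h.card_le S ![1, 2, 3] (fun i => ?_) (fun j => ?_) h3
    · fin_cases i
      · exact Or.inl hS
      · exact Or.inr ⟨0, rfl⟩
      · exact Or.inr ⟨1, rfl⟩
      · exact Or.inr ⟨2, rfl⟩
    · fin_cases j <;> simp
  · refine h.card_le S ![0, 2, 3] (fun i => ?_) (fun j => ?_) h3
    · fin_cases i
      · exact Or.inr ⟨0, rfl⟩
      · exact Or.inl hS
      · exact Or.inr ⟨1, rfl⟩
      · exact Or.inr ⟨2, rfl⟩
    · fin_cases j <;> simp <;> omega
  · refine h.card_le S ![0, 1, 3] (fun i => ?_) (fun j => ?_) h3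
    · fin_cases i
      · exact Or.inr ⟨0, rfl⟩
      · exact Or.inr ⟨1, rfl⟩
      · exact Or.inl hS
      · exact Or.inr ⟨2, rfl⟩
    · fin_cases j <;> simp <;> omega
  · refine h.card_le S ![0, 1, 2] (fun i => ?_) (fun j => ?_) h3
    · fin_cases i
      · exact Or.inr ⟨0, rfl⟩
      · exact Or.inr ⟨1, rfl⟩
      · exact Or.inr ⟨2, rfl⟩
      · exact Or.inl hS
    · fin_cases j <;> simp <;> omega

/-- The complement of a pair of colours. -/
theorem pair_bound {m4 : Fin 4 → ℕ} (h : Cover V m4 G) (i j i' j' : Fin 4)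
    (hcov : ∀ x : Fin 4, x = i ∨ x = j ∨ x = i' ∨ x = j') (hi' : 2 ≤ m4 i') (hj' : 1 ≤ m4 j')
    (S : Finset V) (h1 : ∀ u ∈ S, ∀ w ∈ S, ¬ (G i).Adj u w)
    (h2 : ∀ u ∈ S, ∀ w ∈ S, ¬ (G j).Adj u w) : S.card ≤ 4 := by
  refine h.card_le S ![i', j'] (fun x => ?_) (fun y => ?_)
    (not_avoid_two (k := 2) (l := 1) le_rfl le_rfl)
  · rcases hcov x with rfl | rfl | rfl | rfl
    · exact Or.inl h1
    · exact Or.inl h2
    · exact Or.inr ⟨0, rfl⟩
    · exact Or.inr ⟨1, rfl⟩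
  · fin_cases y
    · exact hi'
    · exact hj'

/-- Three colours leave at most two vertices. -/
theorem triple_bound {m4 : Fin 4 → ℕ} (h : Cover V m4 G) (i j k i' : Fin 4)
    (hcov : ∀ x : Fin 4, x = i ∨ x = j ∨ x = k ∨ x = i') (hi' : 1 ≤ m4 i')
    (S : Finset V) (h1 : ∀ u ∈ S, ∀ w ∈ S, ¬ (G i).Adj u w)
    (h2 : ∀ u ∈ S, ∀ w ∈ S, ¬ (G j).Adj u w) (h3 : ∀ u ∈ S, ∀ w ∈ S, ¬ (G k).Adj u w) :
    S.card ≤ 2 := by
  refine h.card_le S ![i'] (fun x => ?_) (fun y => ?_) (not_avoid_one (a := 1) le_rfl)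
  · rcases hcov x with rfl | rfl | rfl | rfl
    · exact Or.inl h1
    · exact Or.inl h2
    · exact Or.inl h3
    · exact Or.inr ⟨0, rfl⟩
  · fin_cases y
    exact hi'

end Pool.Agent.Work.MP_92a29d_co
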