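import Pool.Agent.Work.MP_92a29d_co_h16.Profiles

/-!
Types of level classes: a finite search over all profiles, and the number of edges.
-/

namespace Pool.Agent.Work.MP_92a29d_co

open SimpleGraph Finset

/-- all lists of length `n` with sum `s` -/
def compsL : ℕ → ℕ → List (List ℕ)
  | 0, s => if s = 0 then [[]] else []
  | n + 1, s => (List.range (s + 1)).flatMap fun a => (compsL n (s - a)).map (a :: ·)

theorem mem_compsL : ∀ l : List ℕ, l ∈ compsL l.length l.sum
  | [] => by simp [compsL]
  | a :: l => by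
    rw [List.length_cons, List.sum_cons, compsL, List.mem_flatMap]
    refine ⟨a, List.mem_range.2 (by omega), ?_⟩
    rw [Nat.add_sub_cancel_left]
    exact List.mem_map_of_mem (mem_compsL l)

/-- the profile of a list of deficits, seen from position `r`, in one of the two directions -/
def profL (L : ℕ) (d : List ℕ) (r : ℕ) (flip : Bool) : List ℕ :=
  (List.range L).map fun a =>
    let j := if flip then (r + (L - a)) % L else (r + a) % L
    1 + d.getD j 0 + d.getD ((j + 1) % L) 0

/-- every profile satisfies `P` from some position in some direction -/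
def checkP (P : List ℕ → Bool) (L s : ℕ) : Bool :=
  (compsL L s).all fun d => (List.range L).any fun r =>
    P (profL L d r false) || P (profL L d r true)

/-- number of edges of the blow-up -/
def eSum (L : ℕ) (p : List ℕ) : ℕ :=
  ((List.range L).map fun a => p.getD a 0 * p.getD ((a + 1) % L) 0).sum

/-- comparison with a list of bounds -/
def leL (L : ℕ) (p b : List ℕ) : Bool := (List.range L).all fun a => Nat.ble (p.getD a 0) (b.getD a 0)

variable {V : Type*} [Fintype V] {G : SimpleGraph V}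

/-- the list of level sizes -/
noncomputable def sizes (L : ℕ) (f : V → ZMod L) : List ℕ :=
  (List.range L).map fun a : ℕ => lsize f (a : ZMod L)

theorem sizes_getD {L : ℕ} (f : V → ZMod L) {a : ℕ} (ha : a < L) :
    (sizes L f).getD a 0 = lsize f (a : ZMod L) := by
  unfold sizes
  rw [List.getD_eq_getElem?_getD, List.getElem?_map, List.getElem?_range ha]
  rfl

theorem lsize_sub {L : ℕ} (f : V → ZMod L) (c j : ZMod L) :
    lsize (fun u => f u - c) j = lsize f (j + c) := by
  classical
  rw [lsize_eq, lsize_eq]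
  congr 1
  apply Finset.filter_congr
  intro u _
  exact sub_eq_iff_eq_add

theorem list_sum_range (g : ℕ → ℕ) (n : ℕ) :
    ((List.range n).map g).sum = ∑ a ∈ range n, g a := by
  induction n with
  | zero => simp
  | succ n ih => rw [List.range_succ, List.map_append, List.sum_append, ih, Finset.sum_range_succ]; simp

theorem exists_type_aux {L s : ℕ} [NeZero L] {f : V → ZMod L} (hf : CycHom G L f)
    {d : ZMod L → ℕ} (hd : ∀ j, lsize f (j - 1) = 1 + d j + d (j + 1)) (hsum : ∑ j, d j = s)
    (P : List ℕ → Bool) (hP : checkP P L s = true) :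
    ∃ f' : V → ZMod L, CycHom G L f' ∧ P (sizes L f') = true := by
  have hL0 : 0 < L := Nat.pos_of_ne_zero (NeZero.ne L)
  obtain ⟨dl, hdl⟩ : ∃ dl : List ℕ, dl = (List.range L).map fun a : ℕ => d (a : ZMod L) :=
    ⟨_, rfl⟩
  have hlen : dl.length = L := by rw [hdl, List.length_map, List.length_range]
  have hds : dl.sum = s := by
    rw [hdl, list_sum_range, ← hsum, sum_zmod_range d 0]
    simp only [zero_add]
  have hget : ∀ j, j < L → dl.getD j 0 = d (j : ZMod L) := by
    intro j hj
    rw [hdl, List.getD_eq_getElem?_getD, List.getElem?_map, List.getElem?_range hj]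
    rfl
  have hmem : dl ∈ compsL L s := by
    have := mem_compsL dl
    rw [hlen, hds] at this
    exact this
  unfold checkP at hP
  rw [List.all_eq_true] at hP
  have h2 := hP dl hmem
  rw [List.any_eq_true] at h2
  obtain ⟨r, _, h3⟩ := h2
  have key : ∀ j : ℕ, 1 + dl.getD (j % L) 0 + dl.getD ((j % L + 1) % L) 0 =
      lsize f ((j : ZMod L) - 1) := by
    intro j
    rw [hget _ (Nat.mod_lt _ hL0), hget _ (Nat.mod_lt _ hL0), hd]
    simp only [ZMod.natCast_mod, Nat.cast_add, Nat.cast_one]
  rw [Bool.or_eq_true] at h3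
  rcases h3 with h3 | h3
  · refine ⟨fun u => f u - ((r : ZMod L) - 1), hf.rotate _, ?_⟩
    have e : sizes L (fun u => f u - ((r : ZMod L) - 1)) = profL L dl r false := by
      unfold sizes profL
      apply List.map_congr_left
      intro a ha
      simp only [Bool.false_eq_true, if_false]
      rw [key, lsize_sub]
      congr 1
      push_cast
      ring
    rw [e]
    exact h3
  · refine ⟨fun u => - (f u - ((r : ZMod L) - 1)), (hf.rotate _).reflect, ?_⟩
    have e : sizes L (fun u => - (f u - ((r : ZMod L) - 1))) = profL L dl r true := by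
      unfold sizes profL
      apply List.map_congr_left
      intro a ha
      simp only [if_true]
      rw [key, lsize_neg (fun u => f u - ((r : ZMod L) - 1)), lsize_sub]
      congr 1
      rw [List.mem_range] at ha
      rw [Nat.cast_add, Nat.cast_sub ha.le, ZMod.natCast_self]
      ring
    rw [e]
    exact h3

/-- A class has few edges. -/
theorem edges_le [DecidableEq V] {L : ℕ} [NeZero L] {f : V → ZMod L} (hf : CycHom G L f)
    [Fintype G.edgeSet] : G.edgeFinset.card ≤ ∑ j, lsize f j * lsize f (j + 1) := by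
  classical
  have h1 : G.edgeFinset ⊆ ((univ : Finset (V × V)).filter fun p => f p.1 + 1 = f p.2).image
      fun p => s(p.1, p.2) := by
    intro e he
    rw [SimpleGraph.mem_edgeFinset] at he
    induction e using Sym2.ind with
    | _ u w =>
      rw [SimpleGraph.mem_edgeSet] at he
      rw [Finset.mem_image]
      rcases hf u w he with h | h
      · exact ⟨(u, w), mem_filter.2 ⟨mem_univ _, h.symm⟩, rfl⟩
      · exact ⟨(w, u), mem_filter.2 ⟨mem_univ _, by change f w + 1 = f u; rw [h]; ring⟩,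
          Sym2.eq_swap⟩
  refine (Finset.card_le_card h1).trans (Finset.card_image_le.trans ?_)
  have h2 := Finset.card_eq_sum_card_fiberwise
    (s := (univ : Finset (V × V)).filter fun p => f p.1 + 1 = f p.2)
    (t := (univ : Finset (ZMod L))) (f := fun p => f p.1) (fun _ _ => mem_coe.2 (mem_univ _))
  rw [h2]
  apply Finset.sum_le_sum
  intro j _
  rw [lsize_eq, lsize_eq, ← Finset.card_product]
  apply Finset.card_le_card
  intro p hp
  rw [mem_filter, mem_filter] at hp
  rw [Finset.mem_product, mem_filter, mem_filter]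
  obtain ⟨⟨_, h3⟩, h4⟩ := hp
  change f p.1 = j at h4
  exact ⟨⟨mem_univ _, h4⟩, mem_univ _, by rw [← h3, h4]⟩

theorem eSum_sizes {L : ℕ} [NeZero L] (f : V → ZMod L) :
    eSum L (sizes L f) = ∑ j, lsize f j * lsize f (j + 1) := by
  have hL : 0 < L := Nat.pos_of_ne_zero (NeZero.ne L)
  unfold eSum
  rw [list_sum_range, sum_zmod_range (fun j => lsize f j * lsize f (j + 1)) 0]
  apply Finset.sum_congr rfl
  intro a ha
  rw [Finset.mem_range] at ha
  rw [sizes_getD f ha, sizes_getD f (Nat.mod_lt _ hL), zero_add]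
  congr 2
  rw [ZMod.natCast_mod]
  push_cast
  rfl

/-- **Types of level classes.** -/
theorem exists_type (hV : Fintype.card V = 17) {m : ℕ} {f : V → ZMod (2 * m + 3)}
    (hf : CycHom G (2 * m + 3) f) (hα : AlphaEight G) [Fintype G.edgeSet] (P : List ℕ → Bool)
    {s : ℕ} (hs : m + s = 7) (hP : checkP P (2 * m + 3) s = true) :
    ∃ f' : V → ZMod (2 * m + 3), CycHom G (2 * m + 3) f' ∧
      P (sizes (2 * m + 3) f') = true ∧
      G.edgeFinset.card ≤ eSum (2 * m + 3) (sizes (2 * m + 3) f') := by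
  classical
  obtain ⟨d, _, hd, hsum⟩ := exists_deficit hV hf hα
  have hNe : NeZero (2 * m + 3) := ⟨by omega⟩
  obtain ⟨f', h1, h2⟩ := exists_type_aux hf hd (s := s) (by omega) P hP
  refine ⟨f', h1, h2, ?_⟩
  rw [eSum_sizes]
  exact edges_le h1

theorem leL_iff {L : ℕ} {f : V → ZMod L} {b : List ℕ} :
    leL L (sizes L f) b = true ↔ ∀ a < L, lsize f (a : ZMod L) ≤ b.getD a 0 := by
  unfold leL
  rw [List.all_eq_true]
  constructor
  · intro h a ha
    have := h a (List.mem_range.2 ha)
    rw [sizes_getD f ha] at this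
    exact Nat.le_of_ble_eq_true this
  · intro h a ha
    rw [List.mem_range] at ha
    rw [sizes_getD f ha]
    exact Nat.ble_eq_true_of_le (h a ha)

/-! ### `m = 3` -/

/-- three consecutive single levels; or two; or few edges -/
def P3 (p : List ℕ) : Bool :=
  (leL 9 p [1, 1, 17, 17, 17, 17, 17, 17, 1] && Nat.ble (eSum 9 p) 41) ||
  ((leL 9 p [1, 1, 2, 3, 2, 3, 3, 4, 3] && Nat.ble (eSum 9 p) 35) ||
  (leL 9 p [1, 2, 2, 2, 2, 2, 2, 3, 3] && Nat.ble (eSum 9 p) 32))

theorem P3_check : checkP P3 9 4 = true := by decide +kernel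

/-! ### `m = 2` -/

def P2 (p : List ℕ) : Bool :=
  (leL 7 p [1, 1, 17, 17, 17, 17, 1] && Nat.ble (eSum 7 p) 52) ||
  ((leL 7 p [1, 1, 2, 4, 4, 5, 4] && Nat.ble (eSum 7 p) 47) ||
  Nat.ble (eSum 7 p) 44)

theorem P2_check : checkP P2 7 5 = true := by decide +kernel

/-- Types of level classes with `m = 3`. -/
theorem type_three (hV : Fintype.card V = 17) {f : V → ZMod 9}
    (hf : CycHom G 9 f) (hα : AlphaEight G) [Fintype G.edgeSet] :
    ∃ f' : V → ZMod 9, CycHom G 9 f' ∧
      (((∀ a < 9, lsize f' (a : ℕ) ≤ [1, 1, 17, 17, 17, 17, 17, 17, 1].getD a 0) ∧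
        G.edgeFinset.card ≤ 41) ∨
      ((∀ a < 9, lsize f' (a : ℕ) ≤ [1, 1, 2, 3, 2, 3, 3, 4, 3].getD a 0) ∧
        G.edgeFinset.card ≤ 35) ∨
      ((∀ a < 9, lsize f' (a : ℕ) ≤ [1, 2, 2, 2, 2, 2, 2, 3, 3].getD a 0) ∧
        G.edgeFinset.card ≤ 32)) := by
  obtain ⟨f', h1, h2, h3⟩ := exists_type (m := 3) (s := 4) hV hf hα P3 rfl P3_check
  refine ⟨f', h1, ?_⟩
  unfold P3 at h2
  simp only [Bool.or_eq_true, Bool.and_eq_true, Nat.ble_eq] at h2
  rcases h2 with h2 | h2 | h2
  · exact Or.inl ⟨leL_iff.1 h2.1, h3.trans h2.2⟩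
  · exact Or.inr (Or.inl ⟨leL_iff.1 h2.1, h3.trans h2.2⟩)
  · exact Or.inr (Or.inr ⟨leL_iff.1 h2.1, h3.trans h2.2⟩)

/-- Types of level classes with `m = 2`. -/
theorem type_two (hV : Fintype.card V = 17) {f : V → ZMod 7}
    (hf : CycHom G 7 f) (hα : AlphaEight G) [Fintype G.edgeSet] :
    ∃ f' : V → ZMod 7, CycHom G 7 f' ∧
      (((∀ a < 7, lsize f' (a : ℕ) ≤ [1, 1, 17, 17, 17, 17, 1].getD a 0) ∧
        G.edgeFinset.card ≤ 52) ∨
      ((∀ a < 7, lsize f' (a : ℕ) ≤ [1, 1, 2, 4, 4, 5, 4].getD a 0) ∧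
        G.edgeFinset.card ≤ 47) ∨
      G.edgeFinset.card ≤ 44) := by
  obtain ⟨f', h1, h2, h3⟩ := exists_type (m := 2) (s := 5) hV hf hα P2 rfl P2_check
  refine ⟨f', h1, ?_⟩
  unfold P2 at h2
  simp only [Bool.or_eq_true, Bool.and_eq_true, Nat.ble_eq] at h2
  rcases h2 with h2 | h2 | h2
  · exact Or.inl ⟨leL_iff.1 h2.1, h3.trans h2.2⟩
  · exact Or.inr (Or.inl ⟨leL_iff.1 h2.1, h3.trans h2.2⟩)
  · exact Or.inr (Or.inr (h3.trans h2))

end Pool.Agent.Work.MP_92a29d_co
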