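import Pool.Agent.Work.MP_92a29d_co_h16.Tripod
import Pool.Agent.Work.MP_92a29d_co_h16.Alpha
import Pool.Agent.Work.MP_92a29d_co_h16.Types

/-!
Numbers of edges and degrees.
-/

namespace Pool.Agent.Work.MP_92a29d_co

open SimpleGraph Finset

variable {V : Type*} [Fintype V]

/-- The classes of a covering have at least 136 edges together. -/
theorem Cover.sum_edges {t : ℕ} {m : Fin t → ℕ} {G : Fin t → SimpleGraph V} (hV : Fintype.card V = 17)
    (h : Cover V m G) [∀ i, Fintype (G i).edgeSet] : 136 ≤ ∑ i, (G i).edgeFinset.card := by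
  classical
  have h1 : (⊤ : SimpleGraph V).edgeFinset ⊆ univ.biUnion fun i => (G i).edgeFinset := by
    intro e he
    rw [SimpleGraph.mem_edgeFinset] at he
    induction e using Sym2.ind with
    | _ u w =>
      rw [SimpleGraph.mem_edgeSet, SimpleGraph.top_adj] at he
      obtain ⟨i, hi⟩ := h.cov u w he
      rw [Finset.mem_biUnion]
      exact ⟨i, mem_univ _, by rw [SimpleGraph.mem_edgeFinset, SimpleGraph.mem_edgeSet]; exact hi⟩
  have h2 := (Finset.card_le_card h1).trans Finset.card_biUnion_le
  rw [SimpleGraph.card_edgeFinset_top_eq_card_choose_two, hV] at h2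
  exact h2

/-- The degrees of a covering add up to at least 16. -/
theorem Cover.sum_degree {t : ℕ} {m : Fin t → ℕ} {G : Fin t → SimpleGraph V} (hV : Fintype.card V = 17)
    (h : Cover V m G) (v : V) [∀ i, Fintype ((G i).neighborSet v)] :
    16 ≤ ∑ i, (G i).degree v := by
  classical
  have h1 : (univ.erase v) ⊆ univ.biUnion fun i => (G i).neighborFinset v := by
    intro w hw
    rw [Finset.mem_erase] at hw
    obtain ⟨i, hi⟩ := h.cov v w hw.1.symm
    rw [Finset.mem_biUnion]
    exact ⟨i, mem_univ _, (SimpleGraph.mem_neighborFinset _ _ _).2 hi⟩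
  have h2 := (Finset.card_le_card h1).trans Finset.card_biUnion_le
  rw [Finset.card_erase_of_mem (mem_univ _), Finset.card_univ, hV] at h2
  exact h2

/-- `G` embeds in the exceptional graph `k` -/
def Exc (G : SimpleGraph V) : Prop :=
  ∃ k < 9, ∃ π : V → Fin 17, Function.Injective π ∧
    ∀ u v, G.Adj u v → mbit (excGraph k) (π u) (π v) = true

theorem exc_pairs : ∀ k < 9, ((univ : Finset (Fin 17 × Fin 17)).filter fun p =>
    p.1 < p.2 ∧ mbit (excGraph k) p.1 p.2 = true).card ≤ 27 := by decide +kernel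

theorem exc_degs : ∀ k < 9, ∀ a : Fin 17, ((univ : Finset (Fin 17)).filter fun b : Fin 17 =>
    mbit (excGraph k) a b = true).card ≤ 4 := by decide +kernel

theorem exc_diag : ∀ k < 9, ∀ a : Fin 17, mbit (excGraph k) a a = false := by decide +kernel

theorem Exc.edges {G : SimpleGraph V} (h : Exc G) [Fintype G.edgeSet] :
    G.edgeFinset.card ≤ 27 := by
  classical
  obtain ⟨k, hk, π, hπ, hG⟩ := h
  have h1 : G.edgeFinset.image (Sym2.map π) ⊆ ((univ : Finset (Fin 17 × Fin 17)).filter fun p =>
      p.1 < p.2 ∧ mbit (excGraph k) p.1 p.2 = true).image fun p => s(p.1, p.2) := by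
    intro e he
    rw [Finset.mem_image] at he
    obtain ⟨e', he', rfl⟩ := he
    rw [SimpleGraph.mem_edgeFinset] at he'
    induction e' using Sym2.ind with
    | _ u w =>
      rw [SimpleGraph.mem_edgeSet] at he'
      rw [Finset.mem_image, Sym2.map_mk]
      rcases lt_trichotomy (π u) (π w) with hlt | heq | hlt
      · exact ⟨(π u, π w), mem_filter.2 ⟨mem_univ _, hlt, hG u w he'⟩, rfl⟩
      · exact absurd (hπ heq) he'.ne
      · exact ⟨(π w, π u), mem_filter.2 ⟨mem_univ _, hlt, hG w u he'.symm⟩, Sym2.eq_swap⟩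
  have h2 := (Finset.card_le_card h1).trans Finset.card_image_le
  rw [Finset.card_image_of_injective _ (Sym2.map.injective hπ)] at h2
  exact h2.trans (exc_pairs k hk)

theorem Exc.degree {G : SimpleGraph V} (h : Exc G) (v : V) [Fintype (G.neighborSet v)] :
    G.degree v ≤ 4 := by
  classical
  obtain ⟨k, hk, π, hπ, hG⟩ := h
  refine le_trans ?_ (exc_degs k hk (π v))
  rw [← SimpleGraph.card_neighborFinset_eq_degree, ← Finset.card_image_of_injective _ hπ]
  apply Finset.card_le_card
  intro b hb
  rw [Finset.mem_image] at hb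
  obtain ⟨w, hw, rfl⟩ := hb
  rw [SimpleGraph.mem_neighborFinset] at hw
  exact mem_filter.2 ⟨mem_univ _, hG v w hw⟩

theorem cycHom_or_exc {G : SimpleGraph V} (hV : Fintype.card V = 17) (hα : AlphaEight G)
    (hG : ∀ v (p : G.Walk v v), Odd p.length → 7 < p.length) :
    (∃ f : V → ZMod 9, CycHom G 9 f) ∨ Exc G :=
  cycHom_or_exc_of_three hV hα hG

/-- degrees in a class with single levels next to a vertex -/
theorem CycHom.degree_le {G : SimpleGraph V} {L : ℕ} {f : V → ZMod L} (hf : CycHom G L f)
    (v : V) [Fintype (G.neighborSet v)] :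
    G.degree v ≤ lsize f (f v + 1) + lsize f (f v - 1) := by
  classical
  rw [lsize_eq, lsize_eq, ← SimpleGraph.card_neighborFinset_eq_degree]
  refine le_trans (Finset.card_le_card ?_) (Finset.card_union_le _ _)
  intro w hw
  rw [SimpleGraph.mem_neighborFinset] at hw
  rw [mem_union, mem_filter, mem_filter]
  rcases hf v w hw with h | h
  · exact Or.inl ⟨mem_univ _, h⟩
  · exact Or.inr ⟨mem_univ _, h⟩

end Pool.Agent.Work.MP_92a29d_co
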