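import Pool.Agent.Work.MP_92a29d_co_h16.G3332
import Pool.Agent.Work.MP_92a29d_co_h16.F3332N
import Pool.Agent.Work.MP_92a29d_co_h16.Edges
import Pool.Agent.Work.MP_92a29d_co_h36.CG4322M
import Pool.Agent.Work.MP_92a29d_co_h36.CPairs
import Pool.Agent.Work.MP_92a29d_co_h36.BFinal
import Pool.Agent.Work.MP_92a29d_co_h62.M12

/-!
(3,3,3,2): reduction to finite computations.
-/

namespace Pool.Agent.Work.MP_92a29d_co

/-- renaming the classes -/
theorem Cover.perm {t : ℕ} {V : Type*} {m m' : Fin t → ℕ} {G : Fin t → SimpleGraph V}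
    (h : Cover V m G) (σ : Equiv.Perm (Fin t)) (hm : ∀ i, m' i = m (σ i)) :
    Cover V m' (fun i => G (σ i)) := by
  refine ⟨?_, ?_⟩
  · intro u v huv
    obtain ⟨i, hi⟩ := h.cov u v huv
    refine ⟨σ.symm i, ?_⟩
    rw [Equiv.apply_symm_apply]
    exact hi
  · intro i v p hp
    rw [hm]
    exact h.girth (σ i) v p hp

end Pool.Agent.Work.MP_92a29d_co

namespace Pool.Agent.Work.MP_92a29d_co.Place

open SimpleGraph Finset Pool.Agent.Work.MP_92a29d_co_h45

variable {V : Type*} [Fintype V] [DecidableEq V]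

theorem tuple_3332 : Tuple4 3 3 3 2 :=
  ⟨by norm_num, by norm_num, by norm_num, by norm_num, by unfold Good3; omega⟩

/-- one coded class, one instance -/
theorem no_one {T : Spec2} {c0 : CD} {m : Fin 4 → ℕ} {dir swap : Bool} {F : List Fact}
    {J : InstX} (hF : famOne T c0 m dir swap F [[J]] = true) (hV : Fintype.card V = 17)
    {G : Fin 4 → SimpleGraph V} (hcov : Cover V m G) (hα : ∀ i, AlphaEight (G i))
    {m0 : ℕ} (hk : c0.kind = .lev m0) (hn : c0.n = 2 * m0 + 3)
    (hz : ∀ a < c0.n, c0.d a = 0 → a = 0) (hz0 : c0.d 0 = 0) (hlo : c0.lo 0 = 1) (hhi : c0.hi 0 = 1)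
    {f : V → ZMod (2 * m0 + 3)} (hf : CycHom (G 0) (2 * m0 + 3) f)
    (hb : ∀ a < 2 * m0 + 3, c0.lo a ≤ lsize f (a : ℕ) ∧ lsize f (a : ℕ) ≤ c0.hi a)
    (hU : ∀ M, ¬ IsModelX J M) : False := by
  have hc0 : ClsOK c0 (G 0) (fun u => (f u - 0).val) := by
    refine clsOK_level hf 0 hk hn ?_
    intro a ha
    rw [zero_add]
    exact hb a ha
  have hconf := Conf.of_one (m := m) hcov hc0
  have hcard : (univ.filter fun u => c0.d (xs1 (fun u => (f u - 0).val) 0 u) = 0).card = 1 := by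
    have e1 : (univ.filter fun u => c0.d (xs1 (fun u => (f u - 0).val) 0 u) = 0) =
        univ.filter fun u => (f u - 0).val = 0 := by
      apply Finset.filter_congr
      intro u _
      constructor
      · intro h1
        exact hz _ (hc0.lt u) h1
      · intro h1
        change c0.d ((f u - 0).val) = 0
        rw [h1]
        exact hz0
    rw [e1]
    have h2 := hc0.bds 0 (by rw [hn]; omega)
    rw [hlo, hhi] at h2
    omega
  obtain ⟨Is, hIs, J', hJ, M, hM⟩ := Conf.exists_instOne hF hV hconf hα hcard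
  rw [List.mem_singleton] at hIs
  subst hIs
  rw [List.mem_singleton] at hJ
  subst hJ
  exact hU M hM

section

variable {G : Fin 4 → SimpleGraph V}

omit [DecidableEq V] in
theorem single_zero {L : ℕ} {f : V → ZMod L} (h1 : 1 ≤ lsize f ((0 : ℕ) : ZMod L))
    (h2 : lsize f ((0 : ℕ) : ZMod L) ≤ 1) : lsize f 0 = 1 := by
  rw [Nat.cast_zero] at h1 h2
  omega

/-- the first class is not of type M or S -/
theorem few_edges_0 (hV : Fintype.card V = 17) (hcov : Cover V ![3, 3, 3, 2] G)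
    (hα : ∀ i, AlphaEight (G i)) [Fintype (G 0).edgeSet]
    (hM : ∀ M, ¬ IsModelX g3332M_J0 M) (hS : ∀ M, ¬ IsModelX g3332S_J0 M)
    {f : V → ZMod 9} (hf : CycHom (G 0) 9 f) : (G 0).edgeFinset.card ≤ 32 := by
  obtain ⟨f', h1, h2⟩ := type_three hV hf (hα 0)
  have hb := fun a : ℕ => lsize_bounds (m := 3) hV h1 (hα 0) (a : ZMod 9)
  rcases h2 with ⟨h2, _⟩ | ⟨h2, _⟩ | ⟨_, h2⟩
  · exfalso
    refine no_one g3332M_fam hV hcov hα (m0 := 3) rfl rfl (by decide) rfl rfl rfl h1 ?_ hM
    intro a ha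
    have h3 := h2 a ha
    have h4 := hb a
    have h5 : lsize f' (a : ZMod 9) ≤ 5 := by have := h4.2; omega
    interval_cases a <;> exact ⟨h4.1, by first | exact h3 | exact h5⟩
  · exfalso
    refine no_one g3332S_fam hV hcov hα (m0 := 3) rfl rfl (by decide) rfl rfl rfl h1 ?_ hS
    intro a ha
    have h3 := h2 a ha
    have h4 := hb a
    interval_cases a <;> exact ⟨h4.1, h3⟩
  · exact h2

/-- the last class has few edges -/
theorem few_edges_3 (hV : Fintype.card V = 17) (hcov : Cover V ![3, 3, 3, 2] G)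
    (hα : ∀ i, AlphaEight (G i)) [Fintype (G 3).edgeSet]
    (hM : ∀ M, ¬ IsModelX g2333M_J0 M) (hT : ∀ M, ¬ IsModelX g2333T_J0 M)
    {f : V → ZMod 7} (hf : CycHom (G 3) 7 f) : (G 3).edgeFinset.card ≤ 44 := by
  obtain ⟨f', h1, h2⟩ := type_two hV hf (hα 3)
  have hcov' : Cover V ![2, 3, 3, 3] (fun i => G (Equiv.swap 0 3 i)) :=
    hcov.perm _ (by intro i; fin_cases i <;> rfl)
  have hα' : ∀ i, AlphaEight (G (Equiv.swap 0 3 i)) := fun i => hα _
  have hb := fun a : ℕ => lsize_bounds (m := 2) hV h1 (hα 3) (a : ZMod 7)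
  rcases h2 with ⟨h2, _⟩ | ⟨h2, _⟩ | h2
  · exfalso
    refine no_one g2333M_fam hV hcov' hα' (m0 := 2) rfl rfl (by decide) rfl rfl rfl
      (f := f') h1 ?_ hM
    intro a ha
    have h3 := h2 a ha
    have h4 := hb a
    have h5 : lsize f' (a : ZMod 7) ≤ 6 := by have := h4.2; omega
    interval_cases a <;> exact ⟨h4.1, by first | exact h3 | exact h5⟩
  · exfalso
    refine no_one g2333T_fam hV hcov' hα' (m0 := 2) rfl rfl (by decide) rfl rfl rfl
      (f := f') h1 ?_ hT
    intro a ha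
    have h3 := h2 a ha
    have h4 := hb a
    interval_cases a <;> exact ⟨h4.1, h3⟩
  · exact h2

/-- three level classes -/
theorem no_3332_hom (hV : Fintype.card V = 17) (hcov : Cover V ![3, 3, 3, 2] G)
    (hα : ∀ i, AlphaEight (G i))
    (hN0 : ∀ M, ¬ IsModel f3332N_I0 M) (hN1 : ∀ M, ¬ IsModel f3332N_I1 M)
    (hN2 : ∀ M, ¬ IsModel f3332N_I2 M) (hN3 : ∀ M, ¬ IsModel f3332N_I3 M)
    (hA : ∀ M, ¬ IsModel f3332A_I0 M)
    {f0 f1 f2 : V → ZMod 9} (h0 : CycHom (G 0) 9 f0) (h1 : CycHom (G 1) 9 f1)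
    (h2 : CycHom (G 2) 9 f2) : False := by
  -- a vertex on a single level of each class; not all equal
  have key : ∀ v0 v1 v2, lsize f0 (f0 v0) = 1 → lsize f1 (f1 v1) = 1 → lsize f2 (f2 v2) = 1 →
      v0 = v1 ∧ v1 = v2 := by
    intro v0 v1 v2 s0 s1 s2
    by_contra hcon
    have c0 := clsOK_gen (m := 3) hV h0 (hα 0) s0
    have c1 := clsOK_gen (m := 3) hV h1 (hα 1) s1
    have c2 := clsOK_gen (m := 3) hV h2 (hα 2) s2
    have e0 : genCD 3 false = cdAt f3332N_cd 0 := by decide +kernel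
    have e1 : genCD 3 false = cdAt f3332N_cd 1 := by decide +kernel
    have e2 : genCD 3 false = cdAt f3332N_cd 2 := by decide +kernel
    rw [e0] at c0
    rw [e1] at c1
    rw [e2] at c2
    have hconf := Conf.of_three (m := ![3, 3, 3, 2]) (rel := []) hcov c0 c1 c2 (by simp)
    have hz : ∀ i < 3, ∀ a < 9, (cdAt f3332N_cd i).d a = 0 → a = 0 := by decide
    have hone : ∀ {f : V → ZMod 9} {v u : V}, lsize f (f v) = 1 → f u = f v → u = v := by
      intro f v u hs hu
      obtain ⟨w, _, hw⟩ := exists_of_single hs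
      rw [hw u hu, hw v rfl]
    obtain ⟨Is, hIs, I, hI, M, hM⟩ := Conf.exists_inst f3332N_fam hV hconf hα (by
      intro x hx
      rw [List.mem_singleton] at hx
      subst hx
      refine ⟨Nat.zero_le _, ?_⟩
      simp only [Nat.le_zero, Finset.card_eq_zero, Finset.filter_eq_empty_iff]
      intro u _ hu
      have u0 := hz 0 (by norm_num) _ (ZMod.val_lt (f0 u - f0 v0)) (hu (0, 0) (by simp))
      have u1 := hz 1 (by norm_num) _ (ZMod.val_lt (f1 u - f1 v1)) (hu (1, 0) (by simp))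
      have u2 := hz 2 (by norm_num) _ (ZMod.val_lt (f2 u - f2 v2)) (hu (2, 0) (by simp))
      rw [val_eq_zero_iff'] at u0 u1 u2
      have w0 := hone s0 u0
      have w1 := hone s1 u1
      have w2 := hone s2 u2
      exact hcon ⟨w0.symm.trans w1, w1.symm.trans w2⟩)
    simp only [List.mem_cons, List.not_mem_nil, or_false] at hIs
    rcases hIs with rfl | rfl | rfl | rfl <;> rw [List.mem_singleton] at hI <;> subst hI
    · exact hN0 M hM
    · exact hN1 M hM
    · exact hN2 M hM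
    · exact hN3 M hM
  obtain ⟨j0, a0, b0⟩ := profile_three hV (f := f0) h0 (hα 0)
  obtain ⟨j1, a1, b1⟩ := profile_three hV (f := f1) h1 (hα 1)
  obtain ⟨j2, a2, b2⟩ := profile_three hV (f := f2) h2 (hα 2)
  obtain ⟨v0, hv0, _⟩ := exists_of_single a0
  obtain ⟨v1, hv1, _⟩ := exists_of_single a1
  obtain ⟨v2, hv2, _⟩ := exists_of_single a2
  have s0 : lsize f0 (f0 v0) = 1 := by rw [hv0]; exact a0
  have s1 : lsize f1 (f1 v1) = 1 := by rw [hv1]; exact a1
  have s2 : lsize f2 (f2 v2) = 1 := by rw [hv2]; exact a2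
  have kk := key v0 v1 v2 s0 s1 s2
  have b0' : ∀ k, k ≠ f0 v0 → lsize f0 k = 2 := by
    rcases b0 with ⟨k, hk, hk1⟩ | b0
    · exfalso
      obtain ⟨w, hw, _⟩ := exists_of_single hk1
      have hs : lsize f0 (f0 w) = 1 := by rw [hw]; exact hk1
      have e1 := (key w v1 v2 hs s1 s2).1
      rw [← kk.1] at e1
      apply hk
      rw [← hw, e1, hv0]
    · rw [hv0]; exact b0
  have b1' : ∀ k, k ≠ f1 v1 → lsize f1 k = 2 := by
    rcases b1 with ⟨k, hk, hk1⟩ | b1
    · exfalso
      obtain ⟨w, hw, _⟩ := exists_of_single hk1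
      have hs : lsize f1 (f1 w) = 1 := by rw [hw]; exact hk1
      have e1 := (key v0 w v2 s0 hs s2).1
      rw [kk.1] at e1
      apply hk
      rw [← hw, ← e1, hv1]
    · rw [hv1]; exact b1
  have b2' : ∀ k, k ≠ f2 v2 → lsize f2 k = 2 := by
    rcases b2 with ⟨k, hk, hk1⟩ | b2
    · exfalso
      obtain ⟨w, hw, _⟩ := exists_of_single hk1
      have hs : lsize f2 (f2 w) = 1 := by rw [hw]; exact hk1
      have e1 := (key v0 v1 w s0 s1 hs).2
      rw [kk.2] at e1
      apply hk
      rw [← hw, ← e1, hv2]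
    · rw [hv2]; exact b2
  obtain ⟨k1, k2⟩ := kk
  subst k1
  subst k2
  have hcls : ∀ (i : ℕ), i < 3 → ∀ {H : SimpleGraph V} {f : V → ZMod 9}, CycHom H 9 f →
      lsize f (f v0) = 1 → (∀ k, k ≠ f v0 → lsize f k = 2) →
      ClsOK (cdAt f3332A_cd i) H (fun u => (f u - f v0).val) := by
    intro i hi H f hf hs hb
    have hk : (cdAt f3332A_cd i).kind = .lev 3 := by interval_cases i <;> rfl
    have hn : (cdAt f3332A_cd i).n = 2 * 3 + 3 := by interval_cases i <;> rfl
    have hbd : ∀ a < 9, (cdAt f3332A_cd i).lo a = (if a = 0 then 1 else 2) ∧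
        (cdAt f3332A_cd i).hi a = (if a = 0 then 1 else 2) := by
      interval_cases i <;> decide
    refine clsOK_level (m := 3) hf (f v0) hk hn ?_
    intro a ha
    rw [(hbd a ha).1, (hbd a ha).2]
    by_cases ha0 : a = 0
    · subst ha0
      rw [Nat.cast_zero, add_zero, if_pos rfl, hs]
      exact ⟨le_rfl, le_rfl⟩
    · rw [if_neg ha0, hb (f v0 + (a : ZMod 9)) ?_]
      · exact ⟨le_rfl, le_rfl⟩
      · intro he
        have h3 : (a : ZMod 9) = 0 := by
          have := add_eq_left.1 he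
          exact this
        rw [ZMod.natCast_eq_zero_iff] at h3
        obtain ⟨c, hc⟩ := h3
        omega
  have hconf := Conf.of_three (m := ![3, 3, 3, 2]) (rel := []) hcov
    (hcls 0 (by norm_num) h0 s0 b0') (hcls 1 (by norm_num) h1 s1 b1')
    (hcls 2 (by norm_num) h2 s2 b2') (by simp)
  have hz : ∀ i < 3, ∀ a < 9, (cdAt f3332A_cd i).d a = 0 ↔ a = 0 := by decide
  have hone : ∀ {f : V → ZMod 9} {u : V}, lsize f (f v0) = 1 → f u = f v0 → u = v0 := by
    intro f u hs hu
    obtain ⟨w, _, hw⟩ := exists_of_single hs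
    rw [hw u hu, hw v0 rfl]
  obtain ⟨Is, hIs, I, hI, M, hM⟩ := Conf.exists_inst f3332A_fam hV hconf hα (by
    intro x hx
    rw [List.mem_singleton] at hx
    subst hx
    have e : (univ.filter fun u => ∀ y ∈ [((0 : ℕ), (0 : ℕ)), (1, 0), (2, 0)],
        (cdAt f3332A_cd y.1).d (xs (fun u => (f0 u - f0 v0).val) (fun u => (f1 u - f1 v0).val)
          (fun u => (f2 u - f2 v0).val) y.1 u) = y.2) = {v0} := by
      ext u
      simp only [mem_filter, mem_univ, true_and, mem_singleton]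
      constructor
      · intro hu
        have u0 := (hz 0 (by norm_num) _ (ZMod.val_lt (f0 u - f0 v0))).1 (hu (0, 0) (by simp))
        rw [val_eq_zero_iff'] at u0
        exact hone s0 u0
      · rintro rfl
        intro y hy
        simp only [List.mem_cons, List.not_mem_nil, or_false] at hy
        rcases hy with rfl | rfl | rfl
        · change (cdAt f3332A_cd 0).d ((f0 u - f0 u).val) = 0
          rw [sub_self, ZMod.val_zero]
          rfl
        · change (cdAt f3332A_cd 1).d ((f1 u - f1 u).val) = 0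
          rw [sub_self, ZMod.val_zero]
          rfl
        · change (cdAt f3332A_cd 2).d ((f2 u - f2 u).val) = 0
          rw [sub_self, ZMod.val_zero]
          rfl
    rw [e, Finset.card_singleton]
    exact ⟨le_rfl, le_rfl⟩)
  rw [List.mem_singleton] at hIs
  subst hIs
  rw [List.mem_singleton] at hI
  subst hI
  exact hA M hM

/-- **(3,3,3,2)**, from the finite computations -/
theorem case_3332 (hV : Fintype.card V = 17) (hcov : Cover V ![3, 3, 3, 2] G)
    (hM : ∀ M, ¬ IsModelX g3332M_J0 M) (hS : ∀ M, ¬ IsModelX g3332S_J0 M)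
    (h7M : ∀ M, ¬ IsModelX g2333M_J0 M) (h7T : ∀ M, ¬ IsModelX g2333T_J0 M)
    (hN0 : ∀ M, ¬ IsModel f3332N_I0 M) (hN1 : ∀ M, ¬ IsModel f3332N_I1 M)
    (hN2 : ∀ M, ¬ IsModel f3332N_I2 M) (hN3 : ∀ M, ¬ IsModel f3332N_I3 M)
    (hA : ∀ M, ¬ IsModel f3332A_I0 M) : False := by
  classical
  have hα := tuple_3332.alphaEight hcov
  have hcov1 : Cover V ![3, 3, 3, 2] (fun i => G (Equiv.swap 0 1 i)) :=
    hcov.perm _ (by intro i; fin_cases i <;> rfl)
  have hcov2 : Cover V ![3, 3, 3, 2] (fun i => G (Equiv.swap 0 2 i)) :=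
    hcov.perm _ (by intro i; fin_cases i <;> rfl)
  have t0 := cycHom_or_exc hV (hα 0) (fun v p hp => hcov.girth 0 v p hp)
  have t1 := cycHom_or_exc hV (hα 1) (fun v p hp => hcov.girth 1 v p hp)
  have t2 := cycHom_or_exc hV (hα 2) (fun v p hp => hcov.girth 2 v p hp)
  have b0 : ∀ f : V → ZMod 9, CycHom (G 0) 9 f → (G 0).edgeFinset.card ≤ 32 :=
    fun f hf => few_edges_0 hV hcov hα hM hS hf
  have b1 : ∀ f : V → ZMod 9, CycHom (G 1) 9 f → (G 1).edgeFinset.card ≤ 32 :=
    fun f hf => few_edges_0 (G := fun i => G (Equiv.swap 0 1 i)) hV hcov1 (fun i => hα _) hM hS hf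
  have b2 : ∀ f : V → ZMod 9, CycHom (G 2) 9 f → (G 2).edgeFinset.card ≤ 32 :=
    fun f hf => few_edges_0 (G := fun i => G (Equiv.swap 0 2 i)) hV hcov2 (fun i => hα _) hM hS hf
  have b3 : (G 3).edgeFinset.card ≤ 44 := by
    by_contra hcon
    have h3 : ∀ v (p : (G 3).Walk v v), Odd p.length → 5 < p.length :=
      fun v p hp => hcov.girth 3 v p hp
    rcases Ball.classify hV h3 (hα 3) (by omega) with ⟨f, hf⟩ | ⟨f, hf1, hf2⟩
    · exact hcon (few_edges_3 hV hcov hα h7M h7T hf)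
    · rcases moebius_edges hV hf2 with ⟨f', hf'⟩ | h39
      · exact hcon (few_edges_3 hV hcov hα h7M h7T hf')
      · rw [ecard_eq] at h39
        omega
  have hsum := hcov.sum_edges hV
  rw [Fin.sum_univ_four] at hsum
  rcases t0 with ⟨f0, h0⟩ | t0
  · have c0 := b0 f0 h0
    rcases t1 with ⟨f1, h1⟩ | t1
    · have c1 := b1 f1 h1
      rcases t2 with ⟨f2, h2⟩ | t2
      · exact no_3332_hom hV hcov hα hN0 hN1 hN2 hN3 hA h0 h1 h2
      · have := t2.edges
        omega
    · have := t1.edges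
      rcases t2 with ⟨f2, h2⟩ | t2
      · have := b2 f2 h2
        omega
      · have := t2.edges
        omega
  · have := t0.edges
    rcases t1 with ⟨f1, h1⟩ | t1
    · have := b1 f1 h1
      rcases t2 with ⟨f2, h2⟩ | t2
      · have := b2 f2 h2
        omega
      · have := t2.edges
        omega
    · have := t1.edges
      rcases t2 with ⟨f2, h2⟩ | t2
      · have := b2 f2 h2
        omega
      · have := t2.edges
        omega

end

end Pool.Agent.Work.MP_92a29d_co.Place
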