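import Pool.Agent.Work.MP_92a29d_co_h16.Edges

/-!
(7,3,3,1): two exceptional classes are impossible.
-/

namespace Pool.Agent.Work.MP_92a29d_co

open SimpleGraph Finset

variable {V : Type*} [Fintype V]

/-- A graph without triangles and without independent sets with nine vertices cannot be dense. -/
theorem not_dense {H : SimpleGraph V} [DecidableEq V] [DecidableRel H.Adj]
    (hV : Fintype.card V = 17) (hα : AlphaEight H)
    (htri : ∀ a b c, H.Adj a b → H.Adj b c → H.Adj c a → False)
    (h6 : ∀ v, 6 ≤ H.degree v) (hsum : 130 ≤ ∑ v, H.degree v) : False := by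
  have h8 : ∀ v, H.degree v ≤ 8 := by
    intro v
    rw [← SimpleGraph.card_neighborFinset_eq_degree]
    apply hα
    intro a ha b hb hab
    rw [SimpleGraph.mem_neighborFinset] at ha hb
    exact htri v a b ha hab hb.symm
  -- the deficits
  have hdef : ∑ v, (8 - H.degree v) ≤ 6 := by
    have h1 : ∑ v, (8 - H.degree v) + ∑ v, H.degree v = ∑ _v : V, 8 := by
      rw [← Finset.sum_add_distrib]
      apply Finset.sum_congr rfl
      intro v _
      have := h8 v
      omega
    rw [Finset.sum_const, Finset.card_univ, hV, smul_eq_mul] at h1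
    omega
  have hsub : ∀ S : Finset V, ∑ v ∈ S, (8 - H.degree v) ≤ 6 := fun S =>
    (Finset.sum_le_sum_of_subset (Finset.subset_univ S)).trans hdef
  -- two adjacent vertices of degree 8
  obtain ⟨u, v, hu, hv, huv⟩ : ∃ u v, H.degree u = 8 ∧ H.degree v = 8 ∧ H.Adj u v := by
    by_contra hcon
    push Not at hcon
    have h1 : (univ.filter fun v => H.degree v = 8).card ≤ 8 := by
      apply hα
      intro a ha b hb hab
      exact hcon a b (mem_filter.1 ha).2 (mem_filter.1 hb).2 hab
    have h2 : (univ.filter fun v => ¬ H.degree v = 8).card ≤ 6 := by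
      refine le_trans ?_ (hsub (univ.filter fun v => ¬ H.degree v = 8))
      rw [Finset.card_eq_sum_ones]
      apply Finset.sum_le_sum
      intro w hw
      have h3 := (mem_filter.1 hw).2
      have h4 := h8 w
      omega
    have h3 := Finset.card_filter_add_card_filter_not (s := (univ : Finset V))
      (fun v => H.degree v = 8)
    rw [Finset.card_univ, hV] at h3
    omega
  have hdisj : Disjoint (H.neighborFinset u) (H.neighborFinset v) := by
    rw [Finset.disjoint_left]
    intro a ha hb
    rw [SimpleGraph.mem_neighborFinset] at ha hb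
    exact htri u v a huv hb ha.symm
  have hcard : (H.neighborFinset u ∪ H.neighborFinset v).card = 16 := by
    rw [Finset.card_union_of_disjoint hdisj, SimpleGraph.card_neighborFinset_eq_degree,
      SimpleGraph.card_neighborFinset_eq_degree, hu, hv]
  have hcomp : ((H.neighborFinset u ∪ H.neighborFinset v)ᶜ).card = 1 := by
    rw [Finset.card_compl, hcard, hV]
  rw [Finset.card_eq_one] at hcomp
  obtain ⟨w, hw⟩ := hcomp
  have hall : ∀ z, H.Adj u z ∨ H.Adj v z ∨ z = w := by
    intro z
    by_cases hz : z ∈ (H.neighborFinset u ∪ H.neighborFinset v)ᶜ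
    · rw [hw, Finset.mem_singleton] at hz
      exact Or.inr (Or.inr hz)
    · rw [Finset.mem_compl, not_not, Finset.mem_union, SimpleGraph.mem_neighborFinset,
        SimpleGraph.mem_neighborFinset] at hz
      tauto
  have hwn : ¬ H.Adj u w ∧ ¬ H.Adj v w := by
    have : w ∈ (H.neighborFinset u ∪ H.neighborFinset v)ᶜ := by
      rw [hw]; exact Finset.mem_singleton_self w
    rw [Finset.mem_compl, Finset.mem_union, SimpleGraph.mem_neighborFinset,
      SimpleGraph.mem_neighborFinset] at this
    tauto
  -- the two parts of the neighbourhood of `w`; symmetric statement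
  have half : ∀ p q : V, H.degree p = 8 → H.degree q = 8 → ¬ H.Adj p w →
      (∀ z, H.Adj p z ∨ H.Adj q z ∨ z = w) →
      (H.neighborFinset w ∩ H.neighborFinset q).card ≤ 3 ∧
      ∀ y ∈ H.neighborFinset w ∩ H.neighborFinset p,
        H.degree y ≤ 9 - (H.neighborFinset w ∩ H.neighborFinset q).card := by
    intro p q hp hq hpw hpq
    have h1 : ∀ y ∈ H.neighborFinset w ∩ H.neighborFinset p,
        H.degree y ≤ 9 - (H.neighborFinset w ∩ H.neighborFinset q).card := by
      intro y hy
      rw [Finset.mem_inter, SimpleGraph.mem_neighborFinset, SimpleGraph.mem_neighborFinset] at hy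
      have h2 : H.neighborFinset y ⊆ insert w
          (H.neighborFinset q \ (H.neighborFinset w ∩ H.neighborFinset q)) := by
        intro z hz
        rw [SimpleGraph.mem_neighborFinset] at hz
        rw [Finset.mem_insert, Finset.mem_sdiff, Finset.mem_inter, SimpleGraph.mem_neighborFinset,
          SimpleGraph.mem_neighborFinset]
        rcases hpq z with h | h | h
        · exact (htri p y z hy.2 hz h.symm).elim
        · refine Or.inr ⟨h, ?_⟩
          rintro ⟨h3, _⟩
          exact htri w y z hy.1 hz h3.symm
        · exact Or.inl h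
      have h3 := (Finset.card_le_card h2).trans (Finset.card_insert_le _ _)
      rw [Finset.card_sdiff_of_subset Finset.inter_subset_right,
        SimpleGraph.card_neighborFinset_eq_degree, SimpleGraph.card_neighborFinset_eq_degree,
        hq] at h3
      have h4 : (H.neighborFinset w ∩ H.neighborFinset q).card ≤ 8 := by
        refine (Finset.card_le_card Finset.inter_subset_right).trans ?_
        rw [SimpleGraph.card_neighborFinset_eq_degree, hq]
      omega
    refine ⟨?_, h1⟩
    have hne : (H.neighborFinset w ∩ H.neighborFinset p).Nonempty := by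
      rw [Finset.nonempty_iff_ne_empty]
      intro he
      have h2 : (insert w (H.neighborFinset p)).card ≤ 8 := by
        apply hα
        intro a ha b hb hab
        rw [Finset.mem_insert, SimpleGraph.mem_neighborFinset] at ha hb
        have h3 : ∀ z, H.Adj p z → ¬ H.Adj w z := by
          intro z hz hz'
          have : z ∈ H.neighborFinset w ∩ H.neighborFinset p := by
            rw [Finset.mem_inter, SimpleGraph.mem_neighborFinset, SimpleGraph.mem_neighborFinset]
            exact ⟨hz', hz⟩
          rw [he] at this
          exact absurd this (Finset.notMem_empty _)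
        rcases ha with rfl | ha <;> rcases hb with rfl | hb
        · exact H.irrefl hab
        · exact h3 b hb hab
        · exact h3 a ha hab.symm
        · exact htri p a b ha hab hb.symm
      rw [Finset.card_insert_of_notMem (by
        rw [SimpleGraph.mem_neighborFinset]; exact hpw),
        SimpleGraph.card_neighborFinset_eq_degree, hp] at h2
      omega
    obtain ⟨y, hy⟩ := hne
    have := h1 y hy
    have := h6 y
    omega
  obtain ⟨hb, hA⟩ := half u v hu hv hwn.1 hall
  obtain ⟨ha, hB⟩ := half v u hv hu hwn.2 (fun z => by have := hall z; tauto)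
  have hdw : H.degree w ≤ (H.neighborFinset w ∩ H.neighborFinset u).card +
      (H.neighborFinset w ∩ H.neighborFinset v).card := by
    rw [← SimpleGraph.card_neighborFinset_eq_degree]
    refine le_trans (Finset.card_le_card ?_) (Finset.card_union_le _ _)
    intro z hz
    rw [Finset.mem_union, Finset.mem_inter, Finset.mem_inter]
    rcases hall z with h | h | h
    · exact Or.inl ⟨hz, (SimpleGraph.mem_neighborFinset _ _ _).2 h⟩
    · exact Or.inr ⟨hz, (SimpleGraph.mem_neighborFinset _ _ _).2 h⟩
    · rw [SimpleGraph.mem_neighborFinset, h] at hz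
      exact absurd hz (H.irrefl)
  have h6w := h6 w
  have hd2 : Disjoint (H.neighborFinset w ∩ H.neighborFinset u)
      (H.neighborFinset w ∩ H.neighborFinset v) :=
    hdisj.mono Finset.inter_subset_right Finset.inter_subset_right
  have h12 := hsub ((H.neighborFinset w ∩ H.neighborFinset u) ∪
    (H.neighborFinset w ∩ H.neighborFinset v))
  have h13 : ∑ _y ∈ (H.neighborFinset w ∩ H.neighborFinset u) ∪
      (H.neighborFinset w ∩ H.neighborFinset v), 2 ≤
      ∑ y ∈ (H.neighborFinset w ∩ H.neighborFinset u) ∪
      (H.neighborFinset w ∩ H.neighborFinset v), (8 - H.degree y) := by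
    apply Finset.sum_le_sum
    intro y hy
    rw [Finset.mem_union] at hy
    rcases hy with hy | hy
    · have := hA y hy
      omega
    · have := hB y hy
      omega
  rw [Finset.sum_const, Finset.card_union_of_disjoint hd2, smul_eq_mul] at h13
  omega

/-- (7,3,3,1): not both classes with `m = 3` are exceptional. -/
theorem not_two_exc {G : Fin 4 → SimpleGraph V} (hV : Fintype.card V = 17)
    (hcov : Cover V ![7, 3, 3, 1] G) (hα : ∀ i, AlphaEight (G i))
    (h1 : Exc (G 1)) (h2 : Exc (G 2)) : False := by
  classical
  obtain ⟨f, hf⟩ := cycHom_of_four_le hV (m := 7) (by norm_num) (hα 0)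
    (fun v p hp => hcov.girth 0 v p hp)
  have hs := lsize_seven hV hf (hα 0)
  have hd0 : ∀ v, (G 0).degree v ≤ 2 := by
    intro v
    have := hf.degree_le v
    rw [hs, hs] at this
    exact this
  have hdeg : ∀ v, 6 ≤ (G 3).degree v := by
    intro v
    have a := hcov.sum_degree hV v
    rw [Fin.sum_univ_four] at a
    have := hd0 v
    have := h1.degree v
    have := h2.degree v
    omega
  have he0 : (G 0).edgeFinset.card ≤ 17 := by
    have h3 := (G 0).sum_degrees_eq_twice_card_edges
    have h4 : ∑ v, (G 0).degree v ≤ ∑ _v : V, 2 := Finset.sum_le_sum fun v _ => hd0 v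
    rw [Finset.sum_const, Finset.card_univ, hV, smul_eq_mul] at h4
    omega
  have hE := hcov.sum_edges hV
  rw [Fin.sum_univ_four] at hE
  have e1 := h1.edges
  have e2 := h2.edges
  refine not_dense hV (hα 3) ?_ hdeg ?_
  · intro a b c hab hbc hca
    have := hcov.girth 3 a (Walk.cons hab (Walk.cons hbc (Walk.cons hca Walk.nil))) (by
      simp only [Walk.length_cons, Walk.length_nil]; decide)
    simp only [Walk.length_cons, Walk.length_nil] at this
    have h3 : (![7, 3, 3, 1] : Fin 4 → ℕ) 3 = 1 := rfl
    rw [h3] at this
    omega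
  · rw [SimpleGraph.sum_degrees_eq_twice_card_edges]
    omega

end Pool.Agent.Work.MP_92a29d_co
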