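import Pool.Agent.Work.MP_92a29d_co.FourMain

/-!
Four colours: from the seven minimal tuples to all tuples.
-/

namespace Pool.Agent.Work.MP_92a29d_co

/-- the minimal tuples that are not settled by counting -/
def minTuples : List (ℕ × ℕ × ℕ × ℕ) :=
  [(7, 5, 2, 1), (6, 6, 2, 1), (7, 3, 3, 1), (4, 4, 3, 1), (3, 3, 3, 2), (4, 3, 2, 2), (6, 2, 2, 2)]

theorem undecided_check : ∀ x ∈ undecided, ¬ Exceptional x.1 x.2.1 x.2.2.1 x.2.2.2 ∧
    ∃ t ∈ minTuples, t.1 ≤ x.1 ∧ t.2.1 ≤ x.2.1 ∧ t.2.2.1 ≤ x.2.2.1 ∧ t.2.2.2 ≤ x.2.2.2 := by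
  decide +kernel

theorem full_of_minimal
    (hmin : ∀ t ∈ minTuples, ¬ Avoid (Fin 17) ![t.1, t.2.1, t.2.2.1, t.2.2.2])
    (k l m n : ℕ) (hn : 1 ≤ n) (hmn : n ≤ m) (hlm : m ≤ l) (hkl : l ≤ k) :
    oddCycleRamsey ![k, l, m, n] = 17 ↔ ¬ Exceptional k l m n := by
  by_cases hU : (k, l, m, n) ∈ undecided
  · obtain ⟨h1, t, ht, h2⟩ := undecided_check _ hU
    refine iff_of_true ?_ h1
    rw [oddCycleRamsey_eq_iff _ 16]
    refine ⟨avoid_pow 4 _, fun h => hmin t ht (h.mono ?_)⟩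
    intro i
    obtain ⟨a, b, c, d⟩ := h2
    fin_cases i
    · exact a
    · exact b
    · exact c
    · exact d
  · exact four_colours k l m n hn hmn hlm hkl hU

end Pool.Agent.Work.MP_92a29d_co
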