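import Pool.Agent.Work.MP_92a29d_co_h36.G4322M

/-! Instances with one coded class (generated). -/

namespace Pool.Agent.Work.MP_92a29d_co.Place

open Pool.Agent.Work.MP_92a29d_co_h45

def g3332M_c0 : CD := ⟨.lev 3, [(1, 1), (1, 1), (1, 5), (1, 5), (1, 5), (1, 5), (1, 5), (1, 5), (1, 1)], [0, 1, 2, 1, 2, 1, 2, 1, 2]⟩

def g3332M_m : Fin 4 → ℕ := ![3, 3, 3, 2]

def g3332M_F : List Fact := [.ord 0 40 41, .ord 0 40 43, .ord 0 40 44, .ord 0 49 50, .ord 0 49 52, .ord 0 49 53, .ord 0 40 49, .ord 0 68 67, .ord 0 70 67, .ord 0 71 67, .ord 0 77 76, .ord 0 79 76, .ord 0 80 76, .ord 0 76 67]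

def g3332M_J0 : InstX := {
  inst := { kinds := [.lev 3, .expl 3, .expl 3, .expl 2], lv := [[[0], [1, 3, 5, 7], [1, 3, 5, 7], [1, 3, 5, 7], [1, 3, 5, 7], [1, 3, 5, 7], [1, 3, 5, 7], [1, 3, 5, 7], [1, 3, 5, 7], [2, 4, 6, 8], [2, 4, 6, 8], [2, 4, 6, 8], [2, 4, 6, 8], [2, 4, 6, 8], [2, 4, 6, 8], [2, 4, 6, 8], [2, 4, 6, 8]]], ne := [(0, 1), (0, 2), (0, 3), (0, 4), (0, 5), (0, 6), (0, 7), (0, 8)], size := [(0, 1, 1), (0, 8, 1)], lex := [], five := [], forbid := [] },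
  un := [(false, .E 1 1 2), (false, .E 2 1 2), (true, .E 3 1 2), (false, .E 1 1 3), (true, .E 2 1 3), (false, .E 3 1 3), (false, .E 1 1 4), (false, .E 1 2 3), (false, .E 1 2 4), (true, .E 2 2 4), (false, .E 3 2 4), (false, .E 1 3 4), (false, .E 2 3 4), (true, .E 3 3 4), (false, .E 1 5 6), (false, .E 2 5 6), (true, .E 3 5 6), (false, .E 1 5 7), (true, .E 2 5 7), (false, .E 3 5 7), (false, .E 1 5 8), (false, .E 1 6 7), (false, .E 1 6 8), (true, .E 2 6 8), (false, .E 3 6 8), (false, .E 1 7 8), (false, .E 2 7 8), (true, .E 3 7 8), (false, .E 1 9 10), (false, .E 2 9 10), (true, .E 3 9 10), (false, .E 1 9 11), (true, .E 2 9 11), (false, .E 3 9 11), (false, .E 1 9 12), (false, .E 1 10 11), (false, .E 1 10 12), (true, .E 2 10 12), (false, .E 3 10 12), (false, .E 1 11 12), (false, .E 2 11 12), (true, .E 3 11 12), (false, .E 1 13 14), (false, .E 2 13 14), (true, .E 3 13 14), (false, .E 1 13 15), (true, .E 2 13 15),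 (false, .E 3 13 15), (false, .E 1 13 16), (false, .E 1 14 15), (false, .E 1 14 16), (true, .E 2 14 16), (false, .E 3 14 16), (false, .E 1 15 16), (false, .E 2 15 16), (true, .E 3 15 16)],
  ex := [[(false, .X 0 1 3), (true, .X 0 2 3)], [(false, .X 0 1 5), (true, .X 0 2 5)], [(false, .X 0 1 7), (true, .X 0 2 7)], [(false, .X 0 1 3), (true, .X 0 3 3)], [(false, .X 0 1 5), (true, .X 0 3 5)], [(false, .X 0 1 7), (true, .X 0 3 7)], [(false, .X 0 1 3), (true, .X 0 4 3)], [(false, .X 0 1 5), (true, .X 0 4 5)], [(false, .X 0 1 7), (true, .X 0 4 7)], [(false, .X 0 5 3), (true, .X 0 6 3)], [(false, .X 0 5 5), (true, .X 0 6 5)], [(false, .X 0 5 7), (true, .X 0 6 7)], [(false, .X 0 5 3), (true, .X 0 7 3)], [(false, .X 0 5 5), (true, .X 0 7 5)], [(false, .X 0 5 7), (true, .X 0 7 7)], [(false, .X 0 5 3), (true, .X 0 8 3)], [(false, .X 0 5 5), (true, .X 0 8 5)], [(false, .X 0 5 7), (true, .X 0 8 7)], [(false, .X 0 1 3),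 (true, .X 0 5 3)], [(false, .X 0 1 5), (true, .X 0 5 5)], [(false, .X 0 1 7), (true, .X 0 5 7)], [(false, .X 0 10 4), (true, .X 0 9 4)], [(false, .X 0 10 6), (true, .X 0 9 6)], [(false, .X 0 10 8), (true, .X 0 9 8)], [(false, .X 0 11 4), (true, .X 0 9 4)], [(false, .X 0 11 6), (true, .X 0 9 6)], [(false, .X 0 11 8), (true, .X 0 9 8)], [(false, .X 0 12 4), (true, .X 0 9 4)], [(false, .X 0 12 6), (true, .X 0 9 6)], [(false, .X 0 12 8), (true, .X 0 9 8)], [(false, .X 0 14 4), (true, .X 0 13 4)], [(false, .X 0 14 6), (true, .X 0 13 6)], [(false, .X 0 14 8), (true, .X 0 13 8)], [(false, .X 0 15 4), (true, .X 0 13 4)], [(false, .X 0 15 6), (true, .X 0 13 6)], [(false, .X 0 15 8), (true, .X 0 13 8)], [(false, .X 0 16 4), (true, .X 0 13 4)], [(false, .X 0 16 6), (true, .X 0 13 6)], [(false, .X 0 16 8), (true, .X 0 13 8)], [(false, .X 0 13 4), (true, .X 0 9 4)], [(false, .X 0 13 6), (true, .X 0 9 6)], [(false, .X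 0 13 8), (true, .X 0 9 8)]] }

theorem g3332M_fam : famOne g4322M_T g3332M_c0 g3332M_m true false g3332M_F [[g3332M_J0]] = true := by
  decide +kernel

def g3332S_c0 : CD := ⟨.lev 3, [(1, 1), (1, 1), (1, 2), (1, 3), (1, 2), (1, 3), (1, 3), (1, 4), (1, 3)], [0, 1, 2, 1, 2, 1, 2, 1, 2]⟩

def g3332S_m : Fin 4 → ℕ := ![3, 3, 3, 2]

def g3332S_F : List Fact := [.ord 0 40 41, .ord 0 40 43, .ord 0 40 44, .ord 0 49 50, .ord 0 49 52, .ord 0 49 53, .ord 0 40 49, .ord 0 67 68, .ord 0 67 70, .ord 0 67 71, .ord 0 76 77, .ord 0 76 79, .ord 0 76 80, .ord 0 67 76]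

def g3332S_J0 : InstX := {
  inst := { kinds := [.lev 3, .expl 3, .expl 3, .expl 2], lv := [[[0], [1, 3, 5, 7], [1, 3, 5, 7], [1, 3, 5, 7], [1, 3, 5, 7], [1, 3, 5, 7], [1, 3, 5, 7], [1, 3, 5, 7], [1, 3, 5, 7], [2, 4, 6, 8], [2, 4, 6, 8], [2, 4, 6, 8], [2, 4, 6, 8], [2, 4, 6, 8], [2, 4, 6, 8], [2, 4, 6, 8], [2, 4, 6, 8]]], ne := [(0, 1), (0, 2), (0, 3), (0, 4), (0, 5), (0, 6), (0, 7), (0, 8)], size := [(0, 1, 1), (0, 2, 2), (0, 4, 2)], lex := [], five := [], forbid := [] },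
  un := [(false, .E 1 1 2), (false, .E 2 1 2), (true, .E 3 1 2), (false, .E 1 1 3), (true, .E 2 1 3), (false, .E 3 1 3), (false, .E 1 1 4), (false, .E 1 2 3), (false, .E 1 2 4), (true, .E 2 2 4), (false, .E 3 2 4), (false, .E 1 3 4), (false, .E 2 3 4), (true, .E 3 3 4), (false, .E 1 5 6), (false, .E 2 5 6), (true, .E 3 5 6), (false, .E 1 5 7), (true, .E 2 5 7), (false, .E 3 5 7), (false, .E 1 5 8), (false, .E 1 6 7), (false, .E 1 6 8), (true, .E 2 6 8), (false, .E 3 6 8), (false, .E 1 7 8), (false, .E 2 7 8), (true, .E 3 7 8), (false, .E 1 9 10), (false, .E 2 9 10), (true, .E 3 9 10), (false, .E 1 9 11), (true, .E 2 9 11), (false, .E 3 9 11), (false, .E 1 9 12), (false, .E 1 10 11), (false, .E 1 10 12), (true, .E 2 10 12), (false, .E 3 10 12), (false, .E 1 11 12), (false, .E 2 11 12), (true, .E 3 11 12), (false, .E 1 13 14), (false, .E 2 13 14), (true, .E 3 13 14), (false, .E 1 13 15), (true, .E 2 13 15),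 (false, .E 3 13 15), (false, .E 1 13 16), (false, .E 1 14 15), (false, .E 1 14 16), (true, .E 2 14 16), (false, .E 3 14 16), (false, .E 1 15 16), (false, .E 2 15 16), (true, .E 3 15 16)],
  ex := [[(false, .X 0 1 3), (true, .X 0 2 3)], [(false, .X 0 1 5), (true, .X 0 2 5)], [(false, .X 0 1 7), (true, .X 0 2 7)], [(false, .X 0 1 3), (true, .X 0 3 3)], [(false, .X 0 1 5), (true, .X 0 3 5)], [(false, .X 0 1 7), (true, .X 0 3 7)], [(false, .X 0 1 3), (true, .X 0 4 3)], [(false, .X 0 1 5), (true, .X 0 4 5)], [(false, .X 0 1 7), (true, .X 0 4 7)], [(false, .X 0 5 3), (true, .X 0 6 3)], [(false, .X 0 5 5), (true, .X 0 6 5)], [(false, .X 0 5 7), (true, .X 0 6 7)], [(false, .X 0 5 3), (true, .X 0 7 3)], [(false, .X 0 5 5), (true, .X 0 7 5)], [(false, .X 0 5 7), (true, .X 0 7 7)], [(false, .X 0 5 3), (true, .X 0 8 3)], [(false, .X 0 5 5), (true, .X 0 8 5)], [(false, .X 0 5 7), (true, .X 0 8 7)], [(false, .X 0 1 3),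 (true, .X 0 5 3)], [(false, .X 0 1 5), (true, .X 0 5 5)], [(false, .X 0 1 7), (true, .X 0 5 7)], [(false, .X 0 9 4), (true, .X 0 10 4)], [(false, .X 0 9 6), (true, .X 0 10 6)], [(false, .X 0 9 8), (true, .X 0 10 8)], [(false, .X 0 9 4), (true, .X 0 11 4)], [(false, .X 0 9 6), (true, .X 0 11 6)], [(false, .X 0 9 8), (true, .X 0 11 8)], [(false, .X 0 9 4), (true, .X 0 12 4)], [(false, .X 0 9 6), (true, .X 0 12 6)], [(false, .X 0 9 8), (true, .X 0 12 8)], [(false, .X 0 13 4), (true, .X 0 14 4)], [(false, .X 0 13 6), (true, .X 0 14 6)], [(false, .X 0 13 8), (true, .X 0 14 8)], [(false, .X 0 13 4), (true, .X 0 15 4)], [(false, .X 0 13 6), (true, .X 0 15 6)], [(false, .X 0 13 8), (true, .X 0 15 8)], [(false, .X 0 13 4), (true, .X 0 16 4)], [(false, .X 0 13 6), (true, .X 0 16 6)], [(false, .X 0 13 8), (true, .X 0 16 8)], [(false, .X 0 9 4), (true, .X 0 13 4)], [(false, .X 0 9 6), (true, .X 0 13 6)], [(false, .X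 0 9 8), (true, .X 0 13 8)]] }

theorem g3332S_fam : famOne g4322M_T g3332S_c0 g3332S_m false false g3332S_F [[g3332S_J0]] = true := by
  decide +kernel

def g2333M_c0 : CD := ⟨.lev 2, [(1, 1), (1, 1), (1, 6), (1, 6), (1, 6), (1, 6), (1, 1)], [0, 1, 2, 1, 2, 1, 2]⟩

def g2333M_m : Fin 4 → ℕ := ![2, 3, 3, 3]

def g2333M_F : List Fact := [.ord 0 40 41, .ord 0 40 43, .ord 0 40 44, .ord 0 49 50, .ord 0 49 52, .ord 0 49 53, .ord 0 40 49, .ord 0 68 67, .ord 0 70 67, .ord 0 71 67, .ord 0 77 76, .ord 0 79 76, .ord 0 80 76, .ord 0 76 67, .edge 2 40 44]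

def g2333M_J0 : InstX := {
  inst := { kinds := [.lev 2, .expl 3, .expl 3, .expl 3], lv := [[[0], [1, 3, 5], [1, 3, 5], [1, 3, 5], [1, 3, 5], [1, 3, 5], [1, 3, 5], [1, 3, 5], [1, 3, 5], [2, 4, 6], [2, 4, 6], [2, 4, 6], [2, 4, 6], [2, 4, 6], [2, 4, 6], [2, 4, 6], [2, 4, 6]]], ne := [(0, 1), (0, 2), (0, 3), (0, 4), (0, 5), (0, 6)], size := [(0, 1, 1), (0, 6, 1)], lex := [], five := [], forbid := [] },
  un := [(false, .E 1 1 2), (false, .E 2 1 2), (true, .E 3 1 2), (false, .E 1 1 3), (true, .E 2 1 3), (false, .E 3 1 3), (false, .E 1 1 4), (false, .E 1 2 3), (false, .E 1 2 4), (true, .E 2 2 4), (false, .E 3 2 4), (false, .E 1 3 4), (false, .E 2 3 4), (true, .E 3 3 4), (false, .E 1 5 6), (false, .E 2 5 6), (true, .E 3 5 6), (false, .E 1 5 7), (true, .E 2 5 7), (false, .E 3 5 7), (false, .E 1 5 8), (false, .E 1 6 7), (false, .E 1 6 8), (true, .E 2 6 8), (false, .E 3 6 8), (false, .E 1 7 8), (false, .E 2 7 8),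 (true, .E 3 7 8), (false, .E 1 9 10), (false, .E 2 9 10), (true, .E 3 9 10), (false, .E 1 9 11), (true, .E 2 9 11), (false, .E 3 9 11), (false, .E 1 9 12), (false, .E 1 10 11), (false, .E 1 10 12), (true, .E 2 10 12), (false, .E 3 10 12), (false, .E 1 11 12), (false, .E 2 11 12), (true, .E 3 11 12), (false, .E 1 13 14), (false, .E 2 13 14), (true, .E 3 13 14), (false, .E 1 13 15), (true, .E 2 13 15), (false, .E 3 13 15), (false, .E 1 13 16), (false, .E 1 14 15), (false, .E 1 14 16), (true, .E 2 14 16), (false, .E 3 14 16), (false, .E 1 15 16), (false, .E 2 15 16), (true, .E 3 15 16), (true, .E 2 1 4)],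
  ex := [[(false, .X 0 1 3), (true, .X 0 2 3)], [(false, .X 0 1 5), (true, .X 0 2 5)], [(false, .X 0 1 3), (true, .X 0 3 3)], [(false, .X 0 1 5), (true, .X 0 3 5)], [(false, .X 0 1 3), (true, .X 0 4 3)], [(false, .X 0 1 5), (true, .X 0 4 5)], [(false, .X 0 5 3), (true, .X 0 6 3)], [(false, .X 0 5 5), (true, .X 0 6 5)], [(false, .X 0 5 3), (true, .X 0 7 3)], [(false, .X 0 5 5), (true, .X 0 7 5)], [(false, .X 0 5 3), (true, .X 0 8 3)], [(false, .X 0 5 5), (true, .X 0 8 5)], [(false, .X 0 1 3), (true, .X 0 5 3)], [(false, .X 0 1 5), (true, .X 0 5 5)], [(false, .X 0 10 4), (true, .X 0 9 4)], [(false, .X 0 10 6), (true, .X 0 9 6)], [(false, .X 0 11 4), (true, .X 0 9 4)], [(false, .X 0 11 6), (true, .X 0 9 6)], [(false, .X 0 12 4), (true, .X 0 9 4)], [(false, .X 0 12 6), (true, .X 0 9 6)], [(false, .X 0 14 4), (true, .X 0 13 4)], [(false, .X 0 14 6), (true, .X 0 13 6)], [(false, .X 0 15 4), (true, .X 0 13 4)],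 [(false, .X 0 15 6), (true, .X 0 13 6)], [(false, .X 0 16 4), (true, .X 0 13 4)], [(false, .X 0 16 6), (true, .X 0 13 6)], [(false, .X 0 13 4), (true, .X 0 9 4)], [(false, .X 0 13 6), (true, .X 0 9 6)]] }

theorem g2333M_fam : famOne g4322M_T g2333M_c0 g2333M_m true true g2333M_F [[g2333M_J0]] = true := by
  decide +kernel

def g2333T_c0 : CD := ⟨.lev 2, [(1, 1), (1, 1), (1, 2), (1, 4), (1, 4), (1, 5), (1, 4)], [0, 1, 2, 1, 2, 1, 2]⟩

def g2333T_m : Fin 4 → ℕ := ![2, 3, 3, 3]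

def g2333T_F : List Fact := [.ord 0 40 41, .ord 0 40 43, .ord 0 40 44, .ord 0 49 50, .ord 0 49 52, .ord 0 49 53, .ord 0 40 49, .ord 0 67 68, .ord 0 67 70, .ord 0 67 71, .ord 0 76 77, .ord 0 76 79, .ord 0 76 80, .ord 0 67 76, .edge 2 40 44]

def g2333T_J0 : InstX := {
  inst := { kinds := [.lev 2, .expl 3, .expl 3, .expl 3], lv := [[[0], [1, 3, 5], [1, 3, 5], [1, 3, 5], [1, 3, 5], [1, 3, 5], [1, 3, 5], [1, 3, 5], [1, 3, 5], [2, 4, 6], [2, 4, 6], [2, 4, 6], [2, 4, 6], [2, 4, 6], [2, 4, 6], [2, 4, 6], [2, 4, 6]]], ne := [(0, 1), (0, 2), (0, 3), (0, 4), (0, 5), (0, 6)], size := [(0, 1, 1), (0, 2, 2)], lex := [], five := [], forbid := [] },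
  un := [(false, .E 1 1 2), (false, .E 2 1 2), (true, .E 3 1 2), (false, .E 1 1 3), (true, .E 2 1 3), (false, .E 3 1 3), (false, .E 1 1 4), (false, .E 1 2 3), (false, .E 1 2 4), (true, .E 2 2 4), (false, .E 3 2 4), (false, .E 1 3 4), (false, .E 2 3 4), (true, .E 3 3 4), (false, .E 1 5 6), (false, .E 2 5 6), (true, .E 3 5 6), (false, .E 1 5 7), (true, .E 2 5 7), (false, .E 3 5 7), (false, .E 1 5 8), (false, .E 1 6 7), (false, .E 1 6 8), (true, .E 2 6 8), (false, .E 3 6 8), (false, .E 1 7 8), (false, .E 2 7 8), (true, .E 3 7 8), (false, .E 1 9 10), (false, .E 2 9 10), (true, .E 3 9 10), (false, .E 1 9 11), (true, .E 2 9 11), (false, .E 3 9 11), (false, .E 1 9 12), (false, .E 1 10 11), (false, .E 1 10 12), (true, .E 2 10 12), (false, .E 3 10 12), (false, .E 1 11 12), (false, .E 2 11 12), (true, .E 3 11 12), (false, .E 1 13 14), (false, .E 2 13 14), (true, .E 3 13 14), (false, .E 1 13 15), (true, .E 2 13 15),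 (false, .E 3 13 15), (false, .E 1 13 16), (false, .E 1 14 15), (false, .E 1 14 16), (true, .E 2 14 16), (false, .E 3 14 16), (false, .E 1 15 16), (false, .E 2 15 16), (true, .E 3 15 16), (true, .E 2 1 4)],
  ex := [[(false, .X 0 1 3), (true, .X 0 2 3)], [(false, .X 0 1 5), (true, .X 0 2 5)], [(false, .X 0 1 3), (true, .X 0 3 3)], [(false, .X 0 1 5), (true, .X 0 3 5)], [(false, .X 0 1 3), (true, .X 0 4 3)], [(false, .X 0 1 5), (true, .X 0 4 5)], [(false, .X 0 5 3), (true, .X 0 6 3)], [(false, .X 0 5 5), (true, .X 0 6 5)], [(false, .X 0 5 3), (true, .X 0 7 3)], [(false, .X 0 5 5), (true, .X 0 7 5)], [(false, .X 0 5 3), (true, .X 0 8 3)], [(false, .X 0 5 5), (true, .X 0 8 5)], [(false, .X 0 1 3), (true, .X 0 5 3)], [(false, .X 0 1 5), (true, .X 0 5 5)], [(false, .X 0 9 4), (true, .X 0 10 4)], [(false, .X 0 9 6), (true, .X 0 10 6)], [(false, .X 0 9 4), (true, .X 0 11 4)], [(false, .X 0 9 6), (true, .X 0 11 6)],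 [(false, .X 0 9 4), (true, .X 0 12 4)], [(false, .X 0 9 6), (true, .X 0 12 6)], [(false, .X 0 13 4), (true, .X 0 14 4)], [(false, .X 0 13 6), (true, .X 0 14 6)], [(false, .X 0 13 4), (true, .X 0 15 4)], [(false, .X 0 13 6), (true, .X 0 15 6)], [(false, .X 0 13 4), (true, .X 0 16 4)], [(false, .X 0 13 6), (true, .X 0 16 6)], [(false, .X 0 9 4), (true, .X 0 13 4)], [(false, .X 0 9 6), (true, .X 0 13 6)]] }

theorem g2333T_fam : famOne g4322M_T g2333T_c0 g2333T_m false true g2333T_F [[g2333T_J0]] = true := by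
  decide +kernel

end Pool.Agent.Work.MP_92a29d_co.Place
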