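import Pool.Agent.Work.MP_92a29d_co_h16.Lift

/-!
Levels of a colour class on 17 vertices: one vertex on level 0, eight vertices on odd levels and
eight vertices on even positive levels.
-/

namespace Pool.Agent.Work.MP_92a29d_co

open SimpleGraph Finset

/-- Every independent set has at most 8 vertices. -/
def AlphaEight {V : Type*} (G : SimpleGraph V) : Prop :=
  ∀ S : Finset V, (∀ u ∈ S, ∀ w ∈ S, ¬ G.Adj u w) → S.card ≤ 8

/-- Neighbouring levels of the cycle of length `2 * m + 3`. -/
def LAdj (m a b : ℕ) : Prop :=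
  a + 1 = b ∨ b + 1 = a ∨ (a = 0 ∧ b = 2 * m + 2) ∨ (b = 0 ∧ a = 2 * m + 2)

instance (m a b : ℕ) : Decidable (LAdj m a b) := by unfold LAdj; infer_instance

/-- A level structure. -/
structure LevelStr {V : Type*} [Fintype V] [DecidableEq V] (G : SimpleGraph V) (m : ℕ) (v : V)
    (l : V → ℕ) : Prop where
  zero : ∀ u, l u = 0 ↔ u = v
  le : ∀ u, l u ≤ 2 * m + 2
  adj : ∀ u w, G.Adj u w → LAdj m (l u) (l w)
  odd : (univ.filter (fun u => l u % 2 = 1)).card = 8
  even : (univ.filter (fun u => l u % 2 = 0 ∧ l u ≠ 0)).card = 8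

theorem pos_adj {g : ℕ} [NeZero g] (hg : 3 ≤ g) {x y : ZMod g} (hxy : y = x + 1) :
    x.val + 1 = y.val ∨ (y.val = 0 ∧ x.val = g - 1) := by
  have h1 := ZMod.val_lt x
  rcases Nat.lt_or_ge (x.val + 1) g with h | h
  · left
    have : (x + 1).val = x.val + 1 := by
      rw [ZMod.val_add_of_lt]
      · rw [ZMod.val_one'' (by omega)]
      · rw [ZMod.val_one'' (by omega)]; exact h
    rw [hxy, this]
  · right
    have h2 : x.val + 1 = g := by omega
    have : x + 1 = 0 := by
      have h5 : ((x.val + 1 : ℕ) : ZMod g) = 0 := by rw [h2]; exact ZMod.natCast_self _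
      rw [Nat.cast_add, ZMod.natCast_zmod_val, Nat.cast_one] at h5
      exact h5
    rw [hxy, this, ZMod.val_zero]
    exact ⟨rfl, by omega⟩

theorem exists_levelStr {V : Type*} [Fintype V] [DecidableEq V] {G : SimpleGraph V} {g : ℕ}
    {c : ZMod g → V} (h : ShortOdd G g c) (hV : Fintype.card V = 17) {m : ℕ}
    (hg : 2 * m + 3 ≤ g) (hg9 : 9 ≤ g) (hα : AlphaEight G)
    (f : V → ZMod g) (hfc : ∀ i, f (c i) = i)
    (hf : ∀ u w, G.Adj u w → f w = f u + 1 ∨ f w = f u - 1) :
    ∃ v l, LevelStr G m v l := by
  classical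
  have hNe : NeZero g := ⟨by omega⟩
  -- a level with exactly one vertex
  have hex : ∃ i, ∀ u, f u = i → u = c i := by
    by_contra hcon
    push Not at hcon
    have h2 : ∀ i : ZMod g, 2 ≤ (univ.filter (fun u => f u = i)).card := by
      intro i
      obtain ⟨u, hu1, hu2⟩ := hcon i
      have : ({u, c i} : Finset V) ⊆ univ.filter (fun u => f u = i) := by
        intro x hx
        rw [Finset.mem_insert, Finset.mem_singleton] at hx
        simp only [mem_filter, mem_univ, true_and]
        rcases hx with rfl | rfl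
        · exact hu1
        · exact hfc i
      have h3 := Finset.card_le_card this
      rwa [Finset.card_pair hu2] at h3
    have h3 := Finset.card_eq_sum_card_fiberwise (s := (univ : Finset V))
      (t := (univ : Finset (ZMod g))) (f := f) (fun _ _ => mem_coe.2 (mem_univ _))
    rw [Finset.card_univ, hV] at h3
    have h4 : g * 2 ≤ ∑ i : ZMod g, (univ.filter (fun u => f u = i)).card := by
      calc g * 2 = ∑ _i : ZMod g, 2 := by rw [Finset.sum_const, Finset.card_univ, ZMod.card, smul_eq_mul]
        _ ≤ _ := Finset.sum_le_sum (fun i _ => h2 i)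
    omega
  obtain ⟨i, hi⟩ := hex
  set pos : V → ℕ := fun u => (f u - i).val with hpos
  have hp0 : ∀ u, pos u = 0 ↔ u = c i := by
    intro u
    rw [hpos]
    simp only [ZMod.val_eq_zero]
    constructor
    · intro h0
      exact hi u (sub_eq_zero.1 h0)
    · rintro rfl
      rw [hfc, sub_self]
  have hplt : ∀ u, pos u < g := fun u => ZMod.val_lt _
  have hpadj : ∀ u w, G.Adj u w → pos u + 1 = pos w ∨ pos w + 1 = pos u ∨
      (pos w = 0 ∧ pos u = g - 1) ∨ (pos u = 0 ∧ pos w = g - 1) := by
    intro u w huw
    rcases hf u w huw with e | e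
    · rcases pos_adj (by omega) (x := f u - i) (y := f w - i) (by rw [e]; ring) with h1 | h1
      · exact Or.inl h1
      · exact Or.inr (Or.inr (Or.inl h1))
    · rcases pos_adj (by omega) (x := f w - i) (y := f u - i) (by rw [e]; ring) with h1 | h1
      · exact Or.inr (Or.inl h1)
      · exact Or.inr (Or.inr (Or.inr h1))
  obtain ⟨k, hk⟩ := h.odd
  have hA : (univ.filter (fun u => pos u % 2 = 1)).card ≤ 8 := by
    apply hα
    intro u hu w hw huw
    simp only [mem_filter, mem_univ, true_and] at hu hw
    have := hpadj u w huw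
    omega
  have hB : (univ.filter (fun u => pos u % 2 = 0 ∧ pos u ≠ 0)).card ≤ 8 := by
    apply hα
    intro u hu w hw huw
    simp only [mem_filter, mem_univ, true_and] at hu hw
    have := hpadj u w huw
    omega
  have hsum : (univ.filter (fun u => pos u % 2 = 1)).card +
      (univ.filter (fun u => pos u % 2 = 0 ∧ pos u ≠ 0)).card + 1 = 17 := by
    rw [← hV, ← Finset.card_univ]
    have e1 : (univ : Finset V) = (univ.filter (fun u => pos u % 2 = 1)) ∪
        ((univ.filter (fun u => pos u % 2 = 0 ∧ pos u ≠ 0)) ∪ {c i}) := by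
      ext u
      simp only [mem_univ, mem_union, mem_filter, true_and, mem_singleton, true_iff]
      have := hp0 u
      have h2 := Nat.mod_two_eq_zero_or_one (pos u)
      tauto
    have hv0 : pos (c i) = 0 := (hp0 _).2 rfl
    conv_rhs => rw [e1]
    rw [Finset.card_union_of_disjoint, Finset.card_union_of_disjoint, Finset.card_singleton]
    · omega
    · rw [Finset.disjoint_singleton_right]
      simp only [mem_filter, mem_univ, true_and]
      rintro ⟨_, h2⟩
      exact h2 hv0
    · rw [Finset.disjoint_left]
      intro u hu hu'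
      simp only [mem_filter, mem_univ, true_and, mem_union, mem_singleton] at hu hu'
      rcases hu' with h1 | h1
      · omega
      · rw [h1, hv0] at hu
        omega
  let l : V → ℕ := fun u => if pos u % 2 = 1 then min (pos u) (2 * m + 1) else
    min (pos u) (2 * m + 2)
  have hl1 : ∀ u, pos u % 2 = 1 → l u = min (pos u) (2 * m + 1) := fun u hu => if_pos hu
  have hl2 : ∀ u, pos u % 2 = 0 → l u = min (pos u) (2 * m + 2) :=
    fun u hu => if_neg (by omega)
  refine ⟨c i, l, ?_, ?_, ?_, ?_, ?_⟩
  · intro u
    rw [← hp0]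
    rcases Nat.mod_two_eq_zero_or_one (pos u) with e | e
    · rw [hl2 u e]; omega
    · rw [hl1 u e]; omega
  · intro u
    rcases Nat.mod_two_eq_zero_or_one (pos u) with e | e
    · rw [hl2 u e]; omega
    · rw [hl1 u e]; omega
  · intro u w huw
    have := hpadj u w huw
    unfold LAdj
    rcases Nat.mod_two_eq_zero_or_one (pos u) with e | e <;>
      rcases Nat.mod_two_eq_zero_or_one (pos w) with e' | e'
    · rw [hl2 u e, hl2 w e']; omega
    · rw [hl2 u e, hl1 w e']; omega
    · rw [hl1 u e, hl2 w e']; omega
    · rw [hl1 u e, hl1 w e']; omega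
  · have : (univ.filter (fun u => l u % 2 = 1)) = univ.filter (fun u => pos u % 2 = 1) := by
      apply Finset.filter_congr
      intro u _
      rcases Nat.mod_two_eq_zero_or_one (pos u) with e | e
      · rw [hl2 u e]; omega
      · rw [hl1 u e]; omega
    rw [this]; omega
  · have : (univ.filter (fun u => l u % 2 = 0 ∧ l u ≠ 0)) =
        univ.filter (fun u => pos u % 2 = 0 ∧ pos u ≠ 0) := by
      apply Finset.filter_congr
      intro u _
      rcases Nat.mod_two_eq_zero_or_one (pos u) with e | e
      · rw [hl2 u e]; omega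
      · rw [hl1 u e]; omega
    rw [this]; omega

/-- The structure theorem for `m ≥ 4`. -/
theorem levelStr_of_four_le {V : Type*} [Fintype V] [DecidableEq V] {G : SimpleGraph V}
    (hV : Fintype.card V = 17) {m : ℕ} (hm : 4 ≤ m) (hα : AlphaEight G)
    (hG : ∀ v (p : G.Walk v v), Odd p.length → 2 * m + 1 < p.length) :
    ∃ v l, LevelStr G m v l := by
  classical
  have hnb : ∃ v, ∃ p : G.Walk v v, Odd p.length := by
    by_contra hcon
    push Not at hcon
    have hcol : G.Colorable 2 := by
      rw [two_colorable_iff_forall_loop_even]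
      exact fun v p => Nat.not_odd_iff_even.1 (hcon v p)
    obtain ⟨col⟩ := hcol
    have h1 : ∀ x : Fin 2, (univ.filter (fun v : V => col v = x)).card ≤ 8 := by
      intro x
      apply hα
      intro u hu w hw huw
      simp only [mem_filter, mem_univ, true_and] at hu hw
      exact col.valid huw (hu.trans hw.symm)
    have h3 := Finset.card_eq_sum_card_fiberwise (s := (univ : Finset V))
      (t := (univ : Finset (Fin 2))) (f := col) (fun _ _ => mem_coe.2 (mem_univ _))
    rw [Finset.card_univ, hV, Fin.sum_univ_two] at h3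
    have := h1 0
    have := h1 1
    omega
  obtain ⟨g, c, h, hg⟩ := exists_shortOdd hnb (by omega) hG
  have hNe : NeZero g := ⟨by omega⟩
  obtain ⟨f, hf1, hf2⟩ := h.exists_hom (by omega)
    (fun b i0 hb _ => h.consistent_of_eleven hV (by omega) b i0 hb)
  exact exists_levelStr h hV hg (by omega) hα f hf1 hf2

end Pool.Agent.Work.MP_92a29d_co
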