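import Pool.Agent.Work.MP_92a29d_co.Count

/-!
A graph on 17 vertices with shortest odd cycle of length at least 11 maps to this cycle.
-/

namespace Pool.Agent.Work.MP_92a29d_co

open SimpleGraph Finset

section lift

variable {V : Type*} {G : SimpleGraph V} {g : ℕ} {c : ZMod g → V}

theorem ShortOdd.chord (h : ShortOdd G g c) {i j : ZMod g} (hij : G.Adj (c i) (c j)) :
    j = i + 1 ∨ j = i - 1 := by
  have h6 := six_ne_zero_zmod h.five h.odd
  have hp := h.adj i
  have hm : G.Adj (c i) (c (i - 1)) := by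
    have := h.adj (i - 1)
    rw [sub_add_cancel] at this
    exact this.symm
  by_contra hcon
  push Not at hcon
  rcases h.near hp hij (Ne.symm hcon.1) with e | e
  · rcases h.near hm hij (Ne.symm hcon.2) with e' | e'
    · apply hcon.1; rw [e']; ring
    · apply h6; rw [e] at e'; linear_combination e'
  · apply hcon.2; rw [e]; ring

/-- The difference of the positions of two attachments lifts to an integer. -/
theorem ShortOdd.lift (h : ShortOdd G g c) {u w : V} {i j : ZMod g} (hu : G.Adj u (c i))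
    (hw : G.Adj w (c j)) (p : G.Walk u w) :
    ∃ δ : ℤ, (δ : ZMod g) = j - i ∧ |δ| ≤ p.length + 2 ∧ Even (δ - p.length) := by
  have : NeZero g := ⟨by have := h.five; omega⟩
  have hb : (((j - i).val : ℤ) : ZMod g) = j - i := by
    rw [Int.cast_natCast, ZMod.natCast_zmod_val]
  have hlt := ZMod.val_lt (j - i)
  rcases Nat.even_or_odd ((j - i).val + p.length) with he | ho
  · refine ⟨(j - i).val, hb, ?_, ?_⟩
    · rw [abs_of_nonneg (by positivity)]
      by_cases hij : i = j
      · subst hij
        rw [sub_self, ZMod.val_zero]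
        positivity
      · obtain ⟨h1, h2⟩ := val_sub_add hij
        obtain ⟨q, hq⟩ := h.walk' j i
        have h3 := h.min _ (Walk.cons hu.symm ((p.concat hw).append q)) (by
          rw [Walk.length_cons, Walk.length_append, Walk.length_concat, hq]
          obtain ⟨k, hk⟩ := h.odd
          obtain ⟨l, hl⟩ := he
          exact ⟨k + 1 + l - (j - i).val, by omega⟩)
        rw [Walk.length_cons, Walk.length_append, Walk.length_concat, hq] at h3
        push_cast [← Int.ofNat_le] at *
        omega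
    · obtain ⟨l, hl⟩ := he
      exact ⟨l - p.length, by push_cast [← Int.natCast_inj] at hl; omega⟩
  · refine ⟨(j - i).val - g, ?_, ?_, ?_⟩
    · rw [Int.cast_sub, hb]; simp
    · obtain ⟨q, hq⟩ := h.walk' i j
      have h3 := h.min _ (Walk.cons hu.symm ((p.concat hw).append q.reverse)) (by
          rw [Walk.length_cons, Walk.length_append, Walk.length_concat, Walk.length_reverse, hq]
          obtain ⟨k, hk⟩ := ho
          exact ⟨k + 1, by omega⟩)
      rw [Walk.length_cons, Walk.length_append, Walk.length_concat, Walk.length_reverse, hq] at h3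
      rw [abs_le]
      constructor <;> omega
    · obtain ⟨k, hk⟩ := h.odd
      obtain ⟨l, hl⟩ := ho
      exact ⟨l - k - p.length, by omega⟩

/-- The graph outside the cycle. -/
def restG (G : SimpleGraph V) (c : ZMod g → V) : SimpleGraph V where
  Adj u w := G.Adj u w ∧ (∀ i, c i ≠ u) ∧ (∀ i, c i ≠ w)
  symm := ⟨fun _ _ h => ⟨h.1.symm, h.2.2, h.2.1⟩⟩
  loopless := ⟨fun _ h => h.1.ne rfl⟩

theorem restG_le : restG G c ≤ G := fun _ _ h => h.1

theorem rest_support {u w : V} (p : (restG G c).Walk u w) (hu : ∀ i, c i ≠ u) :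
    ∀ x ∈ p.support, ∀ i, c i ≠ x := by
  induction p with
  | nil =>
    intro x hx
    rw [Walk.support_nil, List.mem_singleton] at hx
    rw [hx]; exact hu
  | cons hadj q ih =>
    intro x hx
    rw [Walk.support_cons, List.mem_cons] at hx
    rcases hx with rfl | hx
    · exact hu
    · exact ih hadj.2.2 x hx

theorem rest_reach {u w : V} (h : (restG G c).Reachable u w) (hu : ∀ i, c i ≠ u) :
    ∀ i, c i ≠ w := by
  obtain ⟨p⟩ := h
  exact rest_support p hu w p.end_mem_support

theorem ShortOdd.rest_card [Fintype V] (h : ShortOdd G g c) (l : List V) (hnd : l.Nodup)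
    (hl : ∀ x ∈ l, ∀ i, c i ≠ x) : l.length + g ≤ Fintype.card V := by
  classical
  have : NeZero g := ⟨by have := h.five; omega⟩
  have h1 : (univ.image c).card = g := by
    rw [Finset.card_image_of_injective _ h.injective, Finset.card_univ, ZMod.card]
  have h2 : Disjoint l.toFinset (univ.image c) := by
    rw [Finset.disjoint_left]
    intro x hx hx'
    rw [List.mem_toFinset] at hx
    obtain ⟨i, _, hi⟩ := Finset.mem_image.1 hx'
    exact hl x hx i hi
  have h3 := Finset.card_union_of_disjoint h2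
  rw [List.toFinset_card_of_nodup hnd, h1] at h3
  rw [← h3]
  exact Finset.card_le_univ _

theorem ShortOdd.rest_even [Fintype V] (h : ShortOdd G g c) (hV : Fintype.card V < 2 * g)
    (v : V) (p : (restG G c).Walk v v) : Even p.length := by
  rw [← Nat.not_odd_iff_even]
  intro ho
  obtain ⟨u, q, hq1, hq2, hq3⟩ := exists_odd_cycle p.length v p rfl ho
  have h1 := h.min u (q.mapLe restG_le) (by simpa using hq2)
  simp only [Walk.mapLe, Walk.length_map] at h1
  have hu : ∀ i, c i ≠ u := by
    cases q with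
    | nil => simp at hq2
    | cons hadj r => exact hadj.2.1
  have h2 := h.rest_card q.support.tail hq1.support_nodup
    (fun x hx => rest_support q hu x (List.mem_of_mem_tail hx))
  rw [List.length_tail, Walk.length_support] at h2
  omega

theorem ShortOdd.rest_parity [Fintype V] (h : ShortOdd G g c) (hV : Fintype.card V < 2 * g)
    {u w : V} (p q : (restG G c).Walk u w) : Even (p.length + q.length) := by
  have := h.rest_even hV u (p.append q.reverse)
  rwa [Walk.length_append, Walk.length_reverse] at this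

theorem ShortOdd.rest_dist [Fintype V] (h : ShortOdd G g c) {u w : V}
    (hr : (restG G c).Reachable u w) (hu : ∀ i, c i ≠ u) :
    (restG G c).dist u w + 1 + g ≤ Fintype.card V := by
  obtain ⟨p, hp⟩ := hr.exists_walk_length_eq_dist
  have hpath := p.isPath_of_length_eq_dist hp
  have := h.rest_card p.support hpath.support_nodup (rest_support p hu)
  rw [Walk.length_support, hp] at this
  exact this

end lift

section extend

variable {V : Type*} [Fintype V] {G : SimpleGraph V} {g : ℕ} {c : ZMod g → V}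

/-- One component of the graph outside the cycle, with an attachment at the base point. -/
theorem ShortOdd.extend_attached (h : ShortOdd G g c) (hV : Fintype.card V < 2 * g)
    (b : V) (i0 : ZMod g) (hb : G.Adj b (c i0))
    (hcon : ∀ (x y : V) (i j : ZMod g) (δ₁ δ₂ δ₃ : ℤ), (restG G c).Reachable b x →
      (restG G c).Reachable b y → G.Adj x (c i) → G.Adj y (c j) → (δ₁ : ZMod g) = i - i0 →
      (δ₂ : ZMod g) = j - i0 → (δ₃ : ZMod g) = j - i → |δ₁| ≤ (restG G c).dist b x + 2 →
      |δ₂| ≤ (restG G c).dist b y + 2 → |δ₃| ≤ (restG G c).dist x y + 2 →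
      Even (δ₁ - (restG G c).dist b x) → Even (δ₂ - (restG G c).dist b y) →
      Even (δ₃ - (restG G c).dist x y) → δ₁ + δ₃ = δ₂) :
    ∃ f : V → ZMod g,
      (∀ u u', (restG G c).Reachable b u → (restG G c).Adj u u' →
        f u' = f u + 1 ∨ f u' = f u - 1) ∧
      (∀ u j, (restG G c).Reachable b u → G.Adj u (c j) → f u = j + 1 ∨ f u = j - 1) := by
  classical
  have hNe : NeZero g := ⟨by have := h.five; omega⟩
  set H := restG G c with hH
  -- lifts
  have hlift : ∀ u w : V, ∀ i j : ZMod g, H.Reachable u w → G.Adj u (c i) → G.Adj w (c j) →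
      ∃ δ : ℤ, (δ : ZMod g) = j - i ∧ |δ| ≤ H.dist u w + 2 ∧ Even (δ - H.dist u w) := by
    intro u w i j hr hu hw
    obtain ⟨p, hp⟩ := hr.exists_walk_length_eq_dist
    obtain ⟨δ, h1, h2, h3⟩ := h.lift hu hw (p.mapLe restG_le)
    simp only [Walk.mapLe, Walk.length_map] at h2 h3
    rw [hp] at h2 h3
    exact ⟨δ, h1, h2, h3⟩
  have hD : ∀ x : V × ZMod g, ∃ δ : ℤ, H.Reachable b x.1 → G.Adj x.1 (c x.2) →
      (δ : ZMod g) = x.2 - i0 ∧ |δ| ≤ H.dist b x.1 + 2 ∧ Even (δ - H.dist b x.1) := by
    intro x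
    by_cases hx : H.Reachable b x.1 ∧ G.Adj x.1 (c x.2)
    · obtain ⟨δ, hδ⟩ := hlift b x.1 i0 x.2 hx.1 hb hx.2
      exact ⟨δ, fun _ _ => hδ⟩
    · exact ⟨0, fun h1 h2 => absurd ⟨h1, h2⟩ hx⟩
  choose D hD using hD
  -- parity of distances
  have hpar : ∀ u v w : V, H.Reachable u v → H.Reachable v w →
      Even (H.dist u v + H.dist v w + H.dist u w) := by
    intro u v w h1 h2
    obtain ⟨p, hp⟩ := h1.exists_walk_length_eq_dist
    obtain ⟨q, hq⟩ := h2.exists_walk_length_eq_dist
    obtain ⟨r, hr⟩ := (h1.trans h2).exists_walk_length_eq_dist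
    have := h.rest_parity hV (p.append q) r
    rwa [Walk.length_append, hp, hq, hr] at this
  -- consistency
  have hcons : ∀ x y : V × ZMod g, H.Reachable b x.1 → G.Adj x.1 (c x.2) → H.Reachable b y.1 →
      G.Adj y.1 (c y.2) → |D x - D y| ≤ H.dist x.1 y.1 + 2 := by
    intro x y hx1 hx2 hy1 hy2
    obtain ⟨a1, a2, a3⟩ := hD x hx1 hx2
    obtain ⟨b1, b2, b3⟩ := hD y hy1 hy2
    obtain ⟨δ, e1, e2, e3⟩ := hlift x.1 y.1 x.2 y.2 (hx1.symm.trans hy1) hx2 hy2
    have h0 := hcon x.1 y.1 x.2 y.2 (D x) (D y) δ hx1 hy1 hx2 hy2 a1 b1 e1 a2 b2 e2 a3 b3 e3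
    have : D x - D y = -δ := by linarith
    rw [this, abs_neg]
    exact e2
  -- the extension
  let S : Finset (V × ZMod g) := univ.filter (fun x => H.Reachable b x.1 ∧ G.Adj x.1 (c x.2))
  have hS : S.Nonempty := ⟨(b, i0), by simp only [S, mem_filter, mem_univ, true_and]; exact ⟨Reachable.refl b, hb⟩⟩
  let F : V → ℤ := fun u => S.inf' hS (fun x => D x + 1 + H.dist x.1 u)
  have hFle : ∀ u x, H.Reachable b x.1 → G.Adj x.1 (c x.2) → F u ≤ D x + 1 + H.dist x.1 u := by
    intro u x h1 h2
    exact Finset.inf'_le (f := fun x : V × ZMod g => D x + 1 + (H.dist x.1 u : ℤ)) (by simp only [S, mem_filter, mem_univ, true_and]; exact ⟨h1, h2⟩)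
  have hFex : ∀ u, ∃ x : V × ZMod g, H.Reachable b x.1 ∧ G.Adj x.1 (c x.2) ∧
      F u = D x + 1 + H.dist x.1 u := by
    intro u
    obtain ⟨x, hx, hx2⟩ := Finset.exists_mem_eq_inf' hS (fun x : V × ZMod g => D x + 1 + (H.dist x.1 u : ℤ))
    simp only [S, mem_filter, mem_univ, true_and] at hx
    exact ⟨x, hx.1, hx.2, hx2⟩
  have hFpar : ∀ u, H.Reachable b u → Even (F u + 1 + H.dist b u) := by
    intro u hu
    obtain ⟨x, hx1, hx2, hx3⟩ := hFex u
    obtain ⟨a1, a2, k, hk⟩ := hD x hx1 hx2
    obtain ⟨l, hl⟩ := hpar b x.1 u hx1 (hx1.symm.trans hu)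
    exact ⟨k + 1 + l, by push_cast [← Int.natCast_inj] at hl; omega⟩
  have htri : ∀ w u u', H.Reachable w u → H.Adj u u' → H.dist w u' ≤ H.dist w u + 1 := by
    intro w u u' hr ha
    obtain ⟨p, hp⟩ := hr.exists_walk_length_eq_dist
    have := SimpleGraph.dist_le (p.concat ha)
    rwa [Walk.length_concat, hp] at this
  refine ⟨fun u => i0 + (F u : ZMod g), ?_, ?_⟩
  · intro u u' hu huu'
    have hu' : H.Reachable b u' := hu.trans huu'.reachable
    have key : ∀ u u', H.Reachable b u → H.Adj u u' → F u' ≤ F u + 1 := by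
      intro u u' hu huu'
      obtain ⟨x, hx1, hx2, hx3⟩ := hFex u
      have h1 := hFle u' x hx1 hx2
      have h2 := htri x.1 u u' (hx1.symm.trans hu) huu'
      push_cast [← Int.ofNat_le] at h2
      omega
    have h1 := key u u' hu huu'
    have h2 := key u' u hu' huu'.symm
    have hne : F u' ≠ F u := by
      intro he
      obtain ⟨k1, hk1⟩ := hFpar u hu
      obtain ⟨k2, hk2⟩ := hFpar u' hu'
      obtain ⟨k3, hk3⟩ := hpar b u u' hu huu'.reachable
      have hd : H.dist u u' = 1 := SimpleGraph.dist_eq_one_iff_adj.2 huu'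
      rw [hd] at hk3
      push_cast [← Int.natCast_inj] at hk3
      omega
    change i0 + (F u' : ZMod g) = i0 + (F u : ZMod g) + 1 ∨
      i0 + (F u' : ZMod g) = i0 + (F u : ZMod g) - 1
    rcases lt_or_gt_of_ne hne with h3 | h3
    · right
      have : F u' = F u - 1 := by omega
      rw [this]; push_cast; ring
    · left
      have : F u' = F u + 1 := by omega
      rw [this]; push_cast; ring
  · intro u j hu huj
    obtain ⟨a1, a2, k1, hk1⟩ := hD (u, j) hu huj
    have h1 := hFle u (u, j) hu huj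
    rw [SimpleGraph.dist_self] at h1
    obtain ⟨x, hx1, hx2, hx3⟩ := hFex u
    have h2 := hcons (u, j) x hu huj hx1 hx2
    obtain ⟨k2, hk2⟩ := hFpar u hu
    rw [SimpleGraph.dist_comm] at h2
    change |D (u, j) - D x| ≤ (H.dist x.1 u : ℤ) + 2 at h2
    rw [abs_le] at h2
    simp only [Nat.cast_zero, add_zero] at h1
    have hne : F u ≠ D (u, j) := by
      intro he
      simp only at hk1
      omega
    have hcase : F u = D (u, j) + 1 ∨ F u = D (u, j) - 1 := by omega
    have hj : i0 + (D (u, j) : ZMod g) = j := by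
      rw [a1]; ring
    change i0 + (F u : ZMod g) = j + 1 ∨ i0 + (F u : ZMod g) = j - 1
    rcases hcase with h3 | h3
    · left; rw [h3]; push_cast; linear_combination hj
    · right; rw [h3]; push_cast; linear_combination hj

/-- The consistency condition of the lifts at an attachment `(b, i0)`. -/
def Consistent (G : SimpleGraph V) (c : ZMod g → V) (b : V) (i0 : ZMod g) : Prop :=
  ∀ (x y : V) (i j : ZMod g) (δ₁ δ₂ δ₃ : ℤ), (restG G c).Reachable b x →
    (restG G c).Reachable b y → G.Adj x (c i) → G.Adj y (c j) → (δ₁ : ZMod g) = i - i0 →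
    (δ₂ : ZMod g) = j - i0 → (δ₃ : ZMod g) = j - i → |δ₁| ≤ (restG G c).dist b x + 2 →
    |δ₂| ≤ (restG G c).dist b y + 2 → |δ₃| ≤ (restG G c).dist x y + 2 →
    Even (δ₁ - (restG G c).dist b x) → Even (δ₂ - (restG G c).dist b y) →
    Even (δ₃ - (restG G c).dist x y) → δ₁ + δ₃ = δ₂

theorem ShortOdd.extend_comp (h : ShortOdd G g c) (hV : Fintype.card V < 2 * g)
    (hcon : ∀ b i0, (∀ i, c i ≠ b) → G.Adj b (c i0) → Consistent G c b i0)
    (b : V) (hb : ∀ i, c i ≠ b) :
    ∃ f : V → ZMod g,
      (∀ u u', (restG G c).Reachable b u → (restG G c).Adj u u' →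
        f u' = f u + 1 ∨ f u' = f u - 1) ∧
      (∀ u j, (restG G c).Reachable b u → G.Adj u (c j) → f u = j + 1 ∨ f u = j - 1) := by
  classical
  by_cases hex : ∃ w j, (restG G c).Reachable b w ∧ G.Adj w (c j)
  · obtain ⟨w, j, hbw, hwj⟩ := hex
    obtain ⟨f, hf1, hf2⟩ := h.extend_attached hV w j hwj (hcon w j (rest_reach hbw hb) hwj)
    exact ⟨f, fun u u' hu => hf1 u u' (hbw.symm.trans hu), fun u j hu => hf2 u j (hbw.symm.trans hu)⟩
  · push Not at hex
    refine ⟨fun u => (((restG G c).dist b u % 2 : ℕ) : ZMod g), ?_, ?_⟩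
    · intro u u' hu huu'
      have hu' := hu.trans huu'.reachable
      obtain ⟨p, hp⟩ := hu.exists_walk_length_eq_dist
      obtain ⟨q, hq⟩ := hu'.exists_walk_length_eq_dist
      obtain ⟨k, hk⟩ := h.rest_parity hV (p.concat huu') q
      rw [Walk.length_concat, hp, hq] at hk
      rcases Nat.mod_two_eq_zero_or_one ((restG G c).dist b u) with e | e
      · left
        have e' : (restG G c).dist b u' % 2 = 1 := by omega
        change (((restG G c).dist b u' % 2 : ℕ) : ZMod g) = (((restG G c).dist b u % 2 : ℕ) : ZMod g) + 1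
        rw [e, e']; simp
      · right
        have e' : (restG G c).dist b u' % 2 = 0 := by omega
        change (((restG G c).dist b u' % 2 : ℕ) : ZMod g) = (((restG G c).dist b u % 2 : ℕ) : ZMod g) - 1
        rw [e, e']; simp
    · intro u j hu huj
      exact absurd huj (hex u j hu)

/-- The homomorphism to the cycle. -/
theorem ShortOdd.exists_hom (h : ShortOdd G g c) (hV : Fintype.card V < 2 * g)
    (hcon : ∀ b i0, (∀ i, c i ≠ b) → G.Adj b (c i0) → Consistent G c b i0) :
    ∃ f : V → ZMod g, (∀ i, f (c i) = i) ∧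
      ∀ u w, G.Adj u w → f w = f u + 1 ∨ f w = f u - 1 := by
  classical
  have hbase : ∀ K : (restG G c).ConnectedComponent, ∃ f : V → ZMod g,
      ∀ b, (restG G c).connectedComponentMk b = K → (∀ i, c i ≠ b) →
      (∀ u', (restG G c).Adj b u' → f u' = f b + 1 ∨ f u' = f b - 1) ∧
      (∀ j, G.Adj b (c j) → f b = j + 1 ∨ f b = j - 1) := by
    intro K
    by_cases hK : ∃ b, (restG G c).connectedComponentMk b = K ∧ ∀ i, c i ≠ b
    · obtain ⟨b, hbK, hb⟩ := hK
      obtain ⟨f, hf1, hf2⟩ := h.extend_comp hV hcon b hb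
      refine ⟨f, fun u huK hu => ?_⟩
      have hr : (restG G c).Reachable b u := by
        rw [← ConnectedComponent.eq, hbK, huK]
      exact ⟨fun u' => hf1 u u' hr, fun j => hf2 u j hr⟩
    · push Not at hK
      refine ⟨fun _ => 0, fun b hbK hb => ?_⟩
      obtain ⟨i, hi⟩ := hK b hbK
      exact absurd hi (hb i)
  choose F hF using hbase
  let f : V → ZMod g := fun u =>
    if hu : ∃ i, c i = u then hu.choose else F ((restG G c).connectedComponentMk u) u
  have hfc : ∀ i, f (c i) = i := by
    intro i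
    have hex : ∃ j, c j = c i := ⟨i, rfl⟩
    have : f (c i) = hex.choose := dif_pos hex
    rw [this]
    exact h.injective hex.choose_spec
  have hfr : ∀ u, (∀ i, c i ≠ u) → f u = F ((restG G c).connectedComponentMk u) u := by
    intro u hu
    exact dif_neg (by push Not; exact hu)
  have hatt : ∀ u j, (∀ i, c i ≠ u) → G.Adj u (c j) → f u = j + 1 ∨ f u = j - 1 := by
    intro u j hu huj
    rw [hfr u hu]
    exact (hF _ u rfl hu).2 j huj
  refine ⟨f, hfc, ?_⟩
  intro u w huw
  by_cases hu : ∃ i, c i = u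
  · obtain ⟨i, rfl⟩ := hu
    by_cases hw : ∃ j, c j = w
    · obtain ⟨j, rfl⟩ := hw
      rw [hfc, hfc]
      exact h.chord huw
    · push Not at hw
      rw [hfc]
      exact hatt w i hw huw.symm
  · push Not at hu
    by_cases hw : ∃ j, c j = w
    · obtain ⟨j, rfl⟩ := hw
      rw [hfc]
      rcases hatt u j hu huw with e | e
      · right; rw [e]; ring
      · left; rw [e]; ring
    · push Not at hw
      have hadj : (restG G c).Adj u w := ⟨huw, hu, hw⟩
      rw [hfr u hu, hfr w hw]
      have hcomp : (restG G c).connectedComponentMk w = (restG G c).connectedComponentMk u :=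
        ConnectedComponent.eq.2 hadj.symm.reachable
      rw [hcomp]
      exact (hF _ u rfl hu).1 w hadj

/-- On 17 vertices with shortest odd cycle of length at least 11 the lifts are consistent. -/
theorem ShortOdd.consistent_of_eleven (h : ShortOdd G g c) (hV : Fintype.card V = 17)
    (hg : 11 ≤ g) (b : V) (i0 : ZMod g) (hb : ∀ i, c i ≠ b) : Consistent G c b i0 := by
  have hNe : NeZero g := ⟨by omega⟩
  intro x y i j δ₁ δ₂ δ₃ hx hy hxi hyj e1 e2 e3 a1 a2 a3 p1 p2 p3
  have d1 := h.rest_dist hx hb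
  have d2 := h.rest_dist hy hb
  have d3 := h.rest_dist (hx.symm.trans hy) (rest_reach hx hb)
  rw [hV] at d1 d2 d3
  have hz : ((δ₁ + δ₃ - δ₂ : ℤ) : ZMod g) = 0 := by
    push_cast; rw [e1, e2, e3]; ring
  rw [ZMod.intCast_zmod_eq_zero_iff_dvd] at hz
  have hpar : Even ((restG G c).dist b x + (restG G c).dist x y + (restG G c).dist b y) := by
    obtain ⟨p, hp⟩ := hx.exists_walk_length_eq_dist
    obtain ⟨q, hq⟩ := (hx.symm.trans hy).exists_walk_length_eq_dist
    obtain ⟨r, hr⟩ := hy.exists_walk_length_eq_dist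
    have := h.rest_parity (by omega) (p.append q) r
    rwa [Walk.length_append, hp, hq, hr] at this
  rw [abs_le] at a1 a2 a3
  obtain ⟨k, hk⟩ := hz
  obtain ⟨q, hq⟩ := h.odd
  obtain ⟨k1, hk1⟩ := p1
  obtain ⟨k2, hk2⟩ := p2
  obtain ⟨k3, hk3⟩ := p3
  obtain ⟨k4, hk4⟩ := hpar
  have hev : Even ((g : ℤ) * k) := by
    rw [← hk]
    exact ⟨k1 + k3 - k2 + k4 - (restG G c).dist b y, by push_cast [← Int.natCast_inj] at hk4; omega⟩
  have hkev : Even k := by
    rw [Int.even_mul] at hev
    rcases hev with h2 | h2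
    · exfalso
      rw [Int.even_coe_nat] at h2
      exact (Nat.not_even_iff_odd.2 h.odd) h2
    · exact h2
  obtain ⟨r, hr⟩ := hkev
  have h21 : δ₁ + δ₃ - δ₂ < 2 * g := by push_cast [← Int.ofNat_le] at *; omega
  have h22 : -(2 * (g : ℤ)) < δ₁ + δ₃ - δ₂ := by push_cast [← Int.ofNat_le] at *; omega
  rw [hk] at h21 h22
  have hg0 : (0 : ℤ) < g := by omega
  have h23 : k < 2 := by nlinarith
  have h24 : -2 < k := by nlinarith
  have : k = 0 := by omega
  rw [this, mul_zero] at hk
  omega

end extend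

end Pool.Agent.Work.MP_92a29d_co
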