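import Pool.Agent.Work.MP_92a29d_co_h16.C3332
import Pool.Agent.Work.MP_92a29d_cert.g3332M_J0.Fin
import Pool.Agent.Work.MP_92a29d_cert.g3332S_J0.Fin
import Pool.Agent.Work.MP_92a29d_cert.g2333M_J0.Fin
import Pool.Agent.Work.MP_92a29d_cert.g2333T_J0.Fin
import Pool.Agent.Work.MP_92a29d_cert.f3332N_I0.Fin
import Pool.Agent.Work.MP_92a29d_cert.f3332N_I1.Fin
import Pool.Agent.Work.MP_92a29d_cert.f3332N_I2.Fin
import Pool.Agent.Work.MP_92a29d_cert.f3332N_I3.Fin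
import Pool.Agent.Work.MP_92a29d_cert.f3332A_I0.Fin

/-!
(3,3,3,2) cannot be avoided on 17 vertices.
-/

namespace Pool.Agent.Work.MP_92a29d_co.Place

theorem not_avoid_3332 : ¬ Avoid (Fin 17) ![3, 3, 3, 2] := by
  intro h
  obtain ⟨G, hG⟩ := avoid_iff_cover.1 h
  exact case_3332 (by simp) hG
    (fun _ => Pool.Agent.Work.MP_92a29d_cert.g3332M_J0.unsat)
    (fun _ => Pool.Agent.Work.MP_92a29d_cert.g3332S_J0.unsat)
    (fun _ => Pool.Agent.Work.MP_92a29d_cert.g2333M_J0.unsat)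
    (fun _ => Pool.Agent.Work.MP_92a29d_cert.g2333T_J0.unsat)
    (fun _ => Pool.Agent.Work.MP_92a29d_cert.f3332N_I0.unsat)
    (fun _ => Pool.Agent.Work.MP_92a29d_cert.f3332N_I1.unsat)
    (fun _ => Pool.Agent.Work.MP_92a29d_cert.f3332N_I2.unsat)
    (fun _ => Pool.Agent.Work.MP_92a29d_cert.f3332N_I3.unsat)
    (fun _ => Pool.Agent.Work.MP_92a29d_cert.f3332A_I0.unsat)

end Pool.Agent.Work.MP_92a29d_co.Place
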