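import Pool.Agent.Work.MP_92a29d_co_h62.Main
import Pool.Agent.Work.MP_92a29d_cert.f6222A1_I0.Fin
import Pool.Agent.Work.MP_92a29d_cert.f6222A2_I0.Fin
import Pool.Agent.Work.MP_92a29d_cert.f6222B_I0.Fin
import Pool.Agent.Work.MP_92a29d_cert.f6222L_I0.Fin
import Pool.Agent.Work.MP_92a29d_cert.f6222L_I1.Fin
import Pool.Agent.Work.MP_92a29d_cert.f6222C_I0.Fin
import Pool.Agent.Work.MP_92a29d_cert.f6222D_I0.Fin
import Pool.Agent.Work.MP_92a29d_cert.f6222E_I0.Fin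
import Pool.Agent.Work.MP_92a29d_cert.f6222E_I1.Fin
import Pool.Agent.Work.MP_92a29d_cert.f6222E_I2.Fin

/-!
(6,2,2,2) cannot be avoided on 17 vertices.
-/

namespace Pool.Agent.Work.MP_92a29d_co.Place

theorem not_avoid_6222 : ¬ Avoid (Fin 17) ![6, 2, 2, 2] := by
  intro h
  obtain ⟨G, hG⟩ := avoid_iff_cover.1 h
  exact case_6222 (by simp) hG
    (fun _ => Pool.Agent.Work.MP_92a29d_cert.f6222A1_I0.unsat)
    (fun _ => Pool.Agent.Work.MP_92a29d_cert.f6222A2_I0.unsat)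
    (fun _ => Pool.Agent.Work.MP_92a29d_cert.f6222B_I0.unsat)
    (fun _ => Pool.Agent.Work.MP_92a29d_cert.f6222L_I0.unsat)
    (fun _ => Pool.Agent.Work.MP_92a29d_cert.f6222L_I1.unsat)
    (fun _ => Pool.Agent.Work.MP_92a29d_cert.f6222C_I0.unsat)
    (fun _ => Pool.Agent.Work.MP_92a29d_cert.f6222D_I0.unsat)
    (fun _ => Pool.Agent.Work.MP_92a29d_cert.f6222E_I0.unsat)
    (fun _ => Pool.Agent.Work.MP_92a29d_cert.f6222E_I1.unsat)
    (fun _ => Pool.Agent.Work.MP_92a29d_cert.f6222E_I2.unsat)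

end Pool.Agent.Work.MP_92a29d_co.Place
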