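import Pool.Agent.Work.MP_92a29d_co_h16.AllLarge
import Pool.Agent.Work.MP_92a29d_co_h16.NotAvoid3332
import Pool.Agent.Work.MP_92a29d_co_h16.NotAvoid6222
import Pool.Agent.Work.MP_92a29d_co_h36.NotAvoidPairs
import Pool.Agent.Work.MP_92a29d_co_h36.NotAvoid7331
import Pool.Agent.Work.MP_92a29d_co_h36.NotAvoid4322
import Pool.Agent.Work.MP_92a29d_co_h36.NotAvoid4431

/-!
The seven minimal tuples that are not settled by counting cannot be avoided on 17 vertices.
-/

namespace Pool.Agent.Work.MP_92a29d_co

theorem min_tuples : ∀ t ∈ minTuples, ¬ Avoid (Fin 17) ![t.1, t.2.1, t.2.2.1, t.2.2.2] := by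
  intro t ht
  simp only [minTuples, List.mem_cons, List.not_mem_nil, or_false] at ht
  rcases ht with rfl | rfl | rfl | rfl | rfl | rfl | rfl
  · exact Place.not_avoid_7521
  · exact Place.not_avoid_6621
  · exact Place.not_avoid_7331
  · exact Place.not_avoid_4431
  · exact Place.not_avoid_3332
  · exact Place.not_avoid_4322
  · exact Place.not_avoid_6222

end Pool.Agent.Work.MP_92a29d_co
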