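import Pool.Agent.Work.MP_92a29d_co_h16.Struct

/-!
Profiles of level sizes, and levels counted from a level with one vertex.
-/

namespace Pool.Agent.Work.MP_92a29d_co

open SimpleGraph Finset

variable {V : Type*} [Fintype V] {G : SimpleGraph V}

/-- Levels counted from a single level. -/
theorem levelStr_of_single [DecidableEq V] (hV : Fintype.card V = 17) {m : ℕ}
    {f : V → ZMod (2 * m + 3)} (hf : CycHom G (2 * m + 3) f) (hα : AlphaEight G)
    {j0 : ZMod (2 * m + 3)} (hj : lsize f j0 = 1) :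
    ∃ v, f v = j0 ∧ (∀ u, f u = j0 → u = v) ∧ LevelStr G m v (fun u => (f u - j0).val) := by
  classical
  rw [lsize_eq, Finset.card_eq_one] at hj
  obtain ⟨v, hv⟩ := hj
  have hv1 : f v = j0 := by
    have : v ∈ univ.filter (fun u => f u = j0) := by rw [hv]; exact mem_singleton_self v
    exact (mem_filter.1 this).2
  have hv2 : ∀ u, f u = j0 → u = v := by
    intro u hu
    have : u ∈ univ.filter (fun u => f u = j0) := mem_filter.2 ⟨mem_univ _, hu⟩
    rw [hv] at this
    exact mem_singleton.1 this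
  refine ⟨v, hv1, hv2, ?_⟩
  set pos : V → ℕ := fun u => (f u - j0).val with hpos
  have hp0 : ∀ u, pos u = 0 ↔ u = v := by
    intro u
    rw [hpos]
    simp only [ZMod.val_eq_zero]
    constructor
    · intro h0
      exact hv2 u (sub_eq_zero.1 h0)
    · rintro rfl
      rw [hv1, sub_self]
  have hplt : ∀ u, pos u < 2 * m + 3 := fun u => ZMod.val_lt _
  have hpadj : ∀ u w, G.Adj u w → pos u + 1 = pos w ∨ pos w + 1 = pos u ∨
      (pos w = 0 ∧ pos u = 2 * m + 2) ∨ (pos u = 0 ∧ pos w = 2 * m + 2) := by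
    intro u w huw
    rcases hf u w huw with e | e
    · rcases pos_adj (by omega) (x := f u - j0) (y := f w - j0) (by rw [e]; ring) with h1 | h1
      · exact Or.inl h1
      · exact Or.inr (Or.inr (Or.inl h1))
    · rcases pos_adj (by omega) (x := f w - j0) (y := f u - j0) (by rw [e]; ring) with h1 | h1
      · exact Or.inr (Or.inl h1)
      · exact Or.inr (Or.inr (Or.inr h1))
  have hA : (univ.filter (fun u => pos u % 2 = 1)).card ≤ 8 := by
    apply hα
    intro u hu w hw huw
    simp only [mem_filter, mem_univ, true_and] at hu hw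
    have := hpadj u w huw
    omega
  have hB : (univ.filter (fun u => pos u % 2 = 0 ∧ pos u ≠ 0)).card ≤ 8 := by
    apply hα
    intro u hu w hw huw
    simp only [mem_filter, mem_univ, true_and] at hu hw
    have := hpadj u w huw
    omega
  have hsum : (univ.filter (fun u => pos u % 2 = 1)).card +
      (univ.filter (fun u => pos u % 2 = 0 ∧ pos u ≠ 0)).card + 1 = 17 := by
    rw [← hV, ← Finset.card_univ]
    have e1 : (univ : Finset V) = (univ.filter (fun u => pos u % 2 = 1)) ∪
        ((univ.filter (fun u => pos u % 2 = 0 ∧ pos u ≠ 0)) ∪ {v}) := by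
      ext u
      simp only [mem_univ, mem_union, mem_filter, true_and, mem_singleton, true_iff]
      have := hp0 u
      have h2 := Nat.mod_two_eq_zero_or_one (pos u)
      tauto
    have hv0 : pos v = 0 := (hp0 _).2 rfl
    conv_rhs => rw [e1]
    rw [Finset.card_union_of_disjoint, Finset.card_union_of_disjoint, Finset.card_singleton]
    · omega
    · rw [Finset.disjoint_singleton_right]
      simp only [mem_filter, mem_univ, true_and]
      rintro ⟨_, h2⟩
      exact h2 hv0
    · rw [Finset.disjoint_left]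
      intro u hu hu'
      simp only [mem_filter, mem_univ, true_and, mem_union, mem_singleton] at hu hu'
      rcases hu' with h1 | h1
      · omega
      · rw [h1, hv0] at hu
        omega
  refine ⟨hp0, fun u => by have := hplt u; omega, ?_, by omega, by omega⟩
  intro u w huw
  have := hpadj u w huw
  unfold LAdj
  omega

/-- The number of vertices on a level, counted from `j0`. -/
theorem card_level [DecidableEq V] {L : ℕ} [NeZero L] (f : V → ZMod L) (j0 : ZMod L) {k : ℕ}
    (hk : k < L) : (univ.filter (fun u => (f u - j0).val = k)).card = lsize f (j0 + k) := by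
  classical
  rw [lsize_eq]
  congr 1
  apply Finset.filter_congr
  intro u _
  constructor
  · intro h
    rw [← h, ZMod.natCast_zmod_val]; ring
  · intro h
    rw [h, add_sub_cancel_left]
    exact ZMod.val_cast_of_lt hk

theorem lsize_neg {L : ℕ} (f : V → ZMod L) (j : ZMod L) :
    lsize (fun u => - f u) j = lsize f (-j) := by
  classical
  rw [lsize_eq, lsize_eq]
  congr 1
  apply Finset.filter_congr
  intro u _
  constructor
  · intro h; rw [← h, neg_neg]
  · intro h; rw [h, neg_neg]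

/-- Windows have at most eight vertices. -/
theorem card_window_le [DecidableEq V] {m : ℕ} {f : V → ZMod (2 * m + 3)}
    (hf : CycHom G (2 * m + 3) f) (hα : AlphaEight G) (j0 j : ZMod (2 * m + 3))
    (S : Finset V) (hS : ∀ u ∈ S, ∃ t ≤ m, ((f u - j0).val : ZMod (2 * m + 3)) = j + 2 * t) :
    S.card ≤ 8 := by
  apply hα
  intro u hu w hw huw
  obtain ⟨s, hs, hu⟩ := hS u hu
  obtain ⟨t, ht, hw⟩ := hS w hw
  rw [ZMod.natCast_zmod_val] at hu hw
  rcases hf u w huw with e | e
  · apply two_mul_ne (m := m) (s := s) (t := t) hs ht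
    rw [e] at hw
    linear_combination -hw + hu
  · apply two_mul_ne (m := m) (s := t) (t := s) ht hs
    rw [e] at hw
    linear_combination hw - hu

/-- A cyclic run of zeros. -/
theorem exists_run {L : ℕ} [NeZero L] (d : ZMod L → ℕ) (r : ℕ) (h : r * ∑ j, d j < L) :
    ∃ j, ∀ s : ℕ, s < r → d (j + s) = 0 := by
  by_contra hcon
  push Not at hcon
  have h1 : ∀ j, 1 ≤ ∑ s ∈ range r, d (j + s) := by
    intro j
    obtain ⟨s, hs, hd⟩ := hcon j
    have := Finset.single_le_sum (f := fun s : ℕ => d (j + s)) (fun _ _ => Nat.zero_le _)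
      (Finset.mem_range.2 hs)
    have h2 : 1 ≤ d (j + s) := Nat.one_le_iff_ne_zero.2 hd
    exact h2.trans this
  have h2 : L ≤ ∑ j : ZMod L, ∑ s ∈ range r, d (j + s) := by
    calc L = ∑ _j : ZMod L, 1 := by rw [Finset.sum_const, Finset.card_univ, ZMod.card, smul_eq_mul, mul_one]
      _ ≤ _ := Finset.sum_le_sum (fun j _ => h1 j)
  rw [Finset.sum_comm] at h2
  have h3 : ∀ s ∈ range r, ∑ j : ZMod L, d (j + s) = ∑ j, d j := fun s _ =>
    Equiv.sum_comp (Equiv.addRight (s : ZMod L)) d
  rw [Finset.sum_congr rfl h3, Finset.sum_const, Finset.card_range, smul_eq_mul] at h2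
  omega

/-- Consecutive single levels. -/
theorem exists_singles {m : ℕ} (hV : Fintype.card V = 17) {f : V → ZMod (2 * m + 3)}
    (hf : CycHom G (2 * m + 3) f) (hα : AlphaEight G) (r : ℕ)
    (h : (r + 1) * (7 - m) < 2 * m + 3) : ∃ j, ∀ s : ℕ, s < r → lsize f (j + s) = 1 := by
  obtain ⟨d, _, h2, h3⟩ := exists_deficit hV hf hα
  obtain ⟨j, hj⟩ := exists_run d (r + 1) (by
    have : ∑ j, d j = 7 - m := by omega
    rw [this]; exact h)
  refine ⟨j - 1, fun s hs => ?_⟩
  have e := h2 (j + s)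
  have e1 := hj s (by omega)
  have e2 := hj (s + 1) (by omega)
  have : j - 1 + s = j + s - 1 := by ring
  rw [this, e, e1]
  have : j + s + 1 = j + ((s + 1 : ℕ) : ZMod (2 * m + 3)) := by push_cast; ring
  rw [this, e2]

/-- `m = 7`: every level has one vertex. -/
theorem lsize_seven (hV : Fintype.card V = 17) {f : V → ZMod (2 * 7 + 3)}
    (hf : CycHom G (2 * 7 + 3) f) (hα : AlphaEight G) (j : ZMod (2 * 7 + 3)) :
    lsize f j = 1 := by
  obtain ⟨d, _, h2, h3⟩ := exists_deficit hV hf hα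
  have h4 : ∑ j, d j = 0 := by omega
  have h5 : ∀ j, d j = 0 := fun j => (Finset.sum_eq_zero_iff.1 h4) j (mem_univ j)
  have := h2 (j + 1)
  rw [add_sub_cancel_right, h5, h5] at this
  exact this

/-- `m = 6`: thirteen consecutive single levels and two levels with two vertices. -/
theorem profile_six (hV : Fintype.card V = 17) {f : V → ZMod (2 * 6 + 3)}
    (hf : CycHom G (2 * 6 + 3) f) (hα : AlphaEight G) :
    ∃ j, (∀ s : ℕ, s < 13 → lsize f (j + s) = 1) ∧ lsize f (j + 13) = 2 ∧ lsize f (j + 14) = 2 := by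
  obtain ⟨d, _, h2, h3⟩ := exists_deficit hV hf hα
  have h4 : ∑ j, d j = 1 := by omega
  obtain ⟨j, hj⟩ := exists_run d 14 (by rw [h4]; norm_num)
  have h5 : d (j + 14) = 1 := by
    rw [sum_zmod_range d j] at h4
    have h6 : ∑ s ∈ range (2 * 6 + 3), d (j + s) = ∑ s ∈ range 14, d (j + s) + d (j + (14 : ℕ)) :=
      Finset.sum_range_succ _ 14
    rw [h6, Finset.sum_eq_zero (fun s hs => hj s (Finset.mem_range.1 hs)), zero_add] at h4
    exact h4
  have h15 : ((15 : ℕ) : ZMod (2 * 6 + 3)) = 0 := by decide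
  refine ⟨j - 1, ?_, ?_, ?_⟩
  · intro s hs
    have e := h2 (j + s)
    have e1 := hj s (by omega)
    have e2 := hj (s + 1) (by omega)
    have : j - 1 + s = j + s - 1 := by ring
    rw [this, e, e1]
    have : j + s + 1 = j + ((s + 1 : ℕ) : ZMod (2 * 6 + 3)) := by push_cast; ring
    rw [this, e2]
  · have e := h2 (j + 13)
    have e1 : d (j + 13) = 0 := hj 13 (by norm_num)
    have : j - 1 + 13 = j + 13 - 1 := by ring
    rw [this, e, e1]
    have : j + 13 + 1 = j + 14 := by ring
    rw [this, h5]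
  · have e := h2 (j + 14)
    have : j - 1 + 14 = j + 14 - 1 := by ring
    rw [this, e, h5]
    have : j + 14 + 1 = j + ((0 : ℕ) : ZMod (2 * 6 + 3)) := by
      have h15' : (15 : ZMod (2 * 6 + 3)) = 0 := h15
      push_cast
      linear_combination h15'
    rw [this, hj 0 (by norm_num)]

/-- `m = 3`: two single levels, or the profile `1, 2, 2, 2, 2, 2, 2, 2, 2`. -/
theorem profile_three (hV : Fintype.card V = 17) {f : V → ZMod (2 * 3 + 3)}
    (hf : CycHom G (2 * 3 + 3) f) (hα : AlphaEight G) :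
    ∃ j, lsize f j = 1 ∧ ((∃ k, k ≠ j ∧ lsize f k = 1) ∨ ∀ k, k ≠ j → lsize f k = 2) := by
  obtain ⟨j, hj⟩ := exists_singles hV hf hα 1 (by norm_num)
  have hj := hj 0 (by norm_num)
  rw [Nat.cast_zero, add_zero] at hj
  refine ⟨j, hj, ?_⟩
  by_contra hcon
  push Not at hcon
  obtain ⟨h1, k, hk, hk2⟩ := hcon
  obtain ⟨d, _, h2, _⟩ := exists_deficit hV hf hα
  have hge : ∀ i, 1 ≤ lsize f i := by
    intro i
    have := h2 (i + 1)
    rw [add_sub_cancel_right] at this
    omega
  have hge2 : ∀ i, i ≠ j → 2 ≤ lsize f i := by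
    intro i hi
    have := h1 i hi
    have := hge i
    omega
  have hsum := sum_lsize f
  rw [hV, ← Finset.add_sum_erase _ _ (mem_univ j), hj] at hsum
  have hk' : k ∈ univ.erase j := Finset.mem_erase.2 ⟨hk, mem_univ k⟩
  rw [← Finset.add_sum_erase _ _ hk'] at hsum
  have h7 : 7 * 2 ≤ ∑ i ∈ (univ.erase j).erase k, lsize f i := by
    have hc : ((univ.erase j).erase k).card = 7 := by
      rw [Finset.card_erase_of_mem hk', Finset.card_erase_of_mem (mem_univ j), Finset.card_univ,
        ZMod.card]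
    calc 7 * 2 = ∑ _i ∈ (univ.erase j).erase k, 2 := by rw [Finset.sum_const, hc, smul_eq_mul]
      _ ≤ _ := Finset.sum_le_sum (fun i hi =>
        hge2 i (Finset.ne_of_mem_erase (Finset.mem_of_mem_erase hi)))
  have := hge2 k hk
  omega

/-- the boolean statement behind `profile_four` -/
def bool11 (z : ZMod (2 * 4 + 3) → Bool) : Bool :=
  decide (3 < ∑ i, (z i).toNat) ||
  (decide (∃ j, z j = false ∧ z (j + 1) = false ∧ z (j + 2) = false ∧ z (j + 3) = false) ||
   decide (∃ j, z j = true ∧ z (j + 4) = true ∧ z (j + 8) = true ∧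
     z (j + 1) = false ∧ z (j + 2) = false ∧ z (j + 3) = false ∧ z (j + 5) = false ∧
     z (j + 6) = false ∧ z (j + 7) = false ∧ z (j + 9) = false ∧ z (j + 10) = false))

def vec11 (b0 b1 b2 b3 b4 b5 b6 b7 b8 b9 b10 : Bool) : ZMod (2 * 4 + 3) → Bool :=
  (![b0, b1, b2, b3, b4, b5, b6, b7, b8, b9, b10] : Fin 11 → Bool)

theorem bool11_all : ∀ b0 b1 b2 b3 b4 b5 b6 b7 b8 b9 b10 : Bool,
    bool11 (vec11 b0 b1 b2 b3 b4 b5 b6 b7 b8 b9 b10) = true := by
  decide +kernel

theorem bool11_true (z : ZMod (2 * 4 + 3) → Bool) : bool11 z = true := by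
  have : z = vec11 (z 0) (z 1) (z 2) (z 3) (z 4) (z 5) (z 6) (z 7) (z 8) (z 9) (z 10) := by
    funext i
    change Fin 11 at i
    fin_cases i <;> rfl
  rw [this]
  exact bool11_all _ _ _ _ _ _ _ _ _ _ _

/-- `m = 4`: three consecutive single levels, or one profile. -/
theorem profile_four (hV : Fintype.card V = 17) {f : V → ZMod (2 * 4 + 3)}
    (hf : CycHom G (2 * 4 + 3) f) (hα : AlphaEight G) :
    (∃ j, lsize f (j - 1) = 1 ∧ lsize f j = 1 ∧ lsize f (j + 1) = 1) ∨
    (∃ j, lsize f j = 1 ∧ lsize f (j + 1) = 1 ∧ lsize f (j + 2) = 2 ∧ lsize f (j + 3) = 2 ∧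
      lsize f (j + 4) = 1 ∧ lsize f (j + 5) = 1 ∧ lsize f (j + 6) = 2 ∧ lsize f (j + 7) = 2 ∧
      lsize f (j + 8) = 1 ∧ lsize f (j + 9) = 2 ∧ lsize f (j + 10) = 2) := by
  obtain ⟨d, _, h2, h3⟩ := exists_deficit hV hf hα
  have h4 : ∑ j, d j = 3 := by omega
  have hb := bool11_true (fun j => decide (d j ≠ 0))
  unfold bool11 at hb
  rw [Bool.or_eq_true, Bool.or_eq_true, decide_eq_true_iff, decide_eq_true_iff,
    decide_eq_true_iff] at hb
  have e11 : (11 : ZMod (2 * 4 + 3)) = 0 := by decide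
  rcases hb with hb | hb | hb
  · exfalso
    change 3 < ∑ i, (decide (d i ≠ 0)).toNat at hb
    have : ∑ i, (decide (d i ≠ 0)).toNat ≤ ∑ j, d j := by
      apply Finset.sum_le_sum
      intro i _
      by_cases h0 : d i = 0
      · simp [h0]
      · have : (decide (d i ≠ 0)).toNat = 1 := by simp [h0]
        rw [this]
        exact Nat.one_le_iff_ne_zero.2 h0
    omega
  · left
    obtain ⟨j, z0, z1, z2, z3⟩ := hb
    have z0 : d j = 0 := by simpa using z0
    have z1 : d (j + 1) = 0 := by simpa using z1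
    have z2 : d (j + 2) = 0 := by simpa using z2
    have z3 : d (j + 3) = 0 := by simpa using z3
    refine ⟨j, ?_, ?_, ?_⟩
    · rw [h2 j, z0, z1]
    · have e : (j : ZMod (2 * 4 + 3)) = (j + 1) - 1 := by ring
      rw [e, h2 (j + 1), z1]
      have e : (j : ZMod (2 * 4 + 3)) + 1 + 1 = j + 2 := by ring
      rw [e, z2]
    · have e : (j : ZMod (2 * 4 + 3)) + 1 = (j + 2) - 1 := by ring
      rw [e, h2 (j + 2), z2]
      have e : (j : ZMod (2 * 4 + 3)) + 2 + 1 = j + 3 := by ring
      rw [e, z3]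
  · right
    obtain ⟨j, t0, t4, t8, z1, z2, z3, z5, z6, z7, z9, z10⟩ := hb
    have t0 : d j ≠ 0 := by simpa using t0
    have t4 : d (j + 4) ≠ 0 := by simpa using t4
    have t8 : d (j + 8) ≠ 0 := by simpa using t8
    have z1 : d (j + 1) = 0 := by simpa using z1
    have z2 : d (j + 2) = 0 := by simpa using z2
    have z3 : d (j + 3) = 0 := by simpa using z3
    have z5 : d (j + 5) = 0 := by simpa using z5
    have z6 : d (j + 6) = 0 := by simpa using z6
    have z7 : d (j + 7) = 0 := by simpa using z7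
    have z9 : d (j + 9) = 0 := by simpa using z9
    have z10 : d (j + 10) = 0 := by simpa using z10
    have hs : d j + d (j + 4) + d (j + 8) = 3 := by
      rw [sum_zmod_range d j] at h4
      change ∑ s ∈ range 11, d (j + (s : ZMod (2 * 4 + 3))) = 3 at h4
      simp only [Finset.sum_range_succ, Finset.sum_range_zero] at h4
      push_cast at h4
      rw [z1, z2, z3, z5, z6, z7, z9, z10] at h4
      rw [add_zero (j : ZMod (2 * 4 + 3))] at h4
      omega
    have hL : ∀ x : ZMod (2 * 4 + 3), lsize f x = 1 + d (x + 1) + d (x + 2) := by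
      intro x
      have := h2 (x + 1)
      rw [add_sub_cancel_right] at this
      rw [this]
      congr 2
      ring
    have r11 : (j : ZMod (2 * 4 + 3)) + 11 = j := by rw [e11, add_zero]
    have r12 : (j : ZMod (2 * 4 + 3)) + 12 = j + 1 := by
      have : (j : ZMod (2 * 4 + 3)) + 12 = j + 11 + 1 := by ring
      rw [this, r11]
    refine ⟨j, ?_, ?_, ?_, ?_, ?_, ?_, ?_, ?_, ?_, ?_, ?_⟩
    · rw [hL]; omega
    · rw [hL, show (j : ZMod (2 * 4 + 3)) + 1 + 1 = j + 2 by ring,
        show (j : ZMod (2 * 4 + 3)) + 1 + 2 = j + 3 by ring]; omega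
    · rw [hL, show (j : ZMod (2 * 4 + 3)) + 2 + 1 = j + 3 by ring,
        show (j : ZMod (2 * 4 + 3)) + 2 + 2 = j + 4 by ring]; omega
    · rw [hL, show (j : ZMod (2 * 4 + 3)) + 3 + 1 = j + 4 by ring,
        show (j : ZMod (2 * 4 + 3)) + 3 + 2 = j + 5 by ring]; omega
    · rw [hL, show (j : ZMod (2 * 4 + 3)) + 4 + 1 = j + 5 by ring,
        show (j : ZMod (2 * 4 + 3)) + 4 + 2 = j + 6 by ring]; omega
    · rw [hL, show (j : ZMod (2 * 4 + 3)) + 5 + 1 = j + 6 by ring,
        show (j : ZMod (2 * 4 + 3)) + 5 + 2 = j + 7 by ring]; omega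
    · rw [hL, show (j : ZMod (2 * 4 + 3)) + 6 + 1 = j + 7 by ring,
        show (j : ZMod (2 * 4 + 3)) + 6 + 2 = j + 8 by ring]; omega
    · rw [hL, show (j : ZMod (2 * 4 + 3)) + 7 + 1 = j + 8 by ring,
        show (j : ZMod (2 * 4 + 3)) + 7 + 2 = j + 9 by ring]; omega
    · rw [hL, show (j : ZMod (2 * 4 + 3)) + 8 + 1 = j + 9 by ring,
        show (j : ZMod (2 * 4 + 3)) + 8 + 2 = j + 10 by ring]; omega
    · rw [hL, show (j : ZMod (2 * 4 + 3)) + 9 + 1 = j + 10 by ring,
        show (j : ZMod (2 * 4 + 3)) + 9 + 2 = j + 11 by ring, r11]; omega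
    · rw [hL, show (j : ZMod (2 * 4 + 3)) + 10 + 1 = j + 11 by ring,
        show (j : ZMod (2 * 4 + 3)) + 10 + 2 = j + 12 by ring, r11, r12]; omega

end Pool.Agent.Work.MP_92a29d_co
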