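import Pool.Agent.Work.MP_92a29d_co_h16.Levels

/-!
Level sizes of a homomorphism to the cycle of length `2 * m + 3` on 17 vertices.
-/

namespace Pool.Agent.Work.MP_92a29d_co

open SimpleGraph Finset

section hom

variable {V : Type*} {G : SimpleGraph V}

/-- `f` is a homomorphism to the cycle of length `L`. -/
def CycHom (G : SimpleGraph V) (L : ℕ) (f : V → ZMod L) : Prop :=
  ∀ u w, G.Adj u w → f w = f u + 1 ∨ f w = f u - 1

theorem CycHom.rotate {L : ℕ} {f : V → ZMod L} (h : CycHom G L f) (j : ZMod L) :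
    CycHom G L (fun u => f u - j) := by
  intro u w huw
  rcases h u w huw with e | e
  · left; change f w - j = f u - j + 1; rw [e]; ring
  · right; change f w - j = f u - j - 1; rw [e]; ring

theorem CycHom.reflect {L : ℕ} {f : V → ZMod L} (h : CycHom G L f) :
    CycHom G L (fun u => - f u) := by
  intro u w huw
  rcases h u w huw with e | e
  · right; change - f w = - f u - 1; rw [e]; ring
  · left; change - f w = - f u + 1; rw [e]; ring

/-- The folding of a longer cycle. -/
def foldC (g L : ℕ) (k : ZMod g) : ZMod L :=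
  if k.val ≤ L - 1 then (k.val : ZMod L) else if k.val % 2 = 1 then ((L - 2 : ℕ) : ZMod L)
    else ((L - 1 : ℕ) : ZMod L)

theorem natCast_pred {L : ℕ} (hL : 0 < L) : ((L - 1 : ℕ) : ZMod L) + 1 = 0 := by
  have : ((L - 1 : ℕ) : ZMod L) + 1 = ((L - 1 + 1 : ℕ) : ZMod L) := by push_cast; ring
  rw [this, Nat.sub_add_cancel hL]
  exact ZMod.natCast_self L

theorem natCast_pred2 {L : ℕ} (hL : 2 ≤ L) : ((L - 2 : ℕ) : ZMod L) + 1 = ((L - 1 : ℕ) : ZMod L) := by
  have : ((L - 2 : ℕ) : ZMod L) + 1 = ((L - 2 + 1 : ℕ) : ZMod L) := by push_cast; ring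
  rw [this]
  congr 1
  omega

theorem foldC_adj {g L : ℕ} (hL : 3 ≤ L) (ho : Odd L) (hg : Odd g) (hLg : L ≤ g) (k : ZMod g) :
    foldC g L (k + 1) = foldC g L k + 1 ∨ foldC g L (k + 1) = foldC g L k - 1 := by
  have : NeZero g := ⟨by omega⟩
  have hk := ZMod.val_lt k
  obtain ⟨a, ha⟩ := ho
  obtain ⟨b, hb⟩ := hg
  have hp := natCast_pred (L := L) (by omega)
  have hp2 := natCast_pred2 (L := L) (by omega)
  rcases pos_adj (g := g) (by omega) (x := k) (y := k + 1) rfl with h | ⟨h1, h2⟩
  · by_cases c1 : (k + 1).val ≤ L - 1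
    · left
      have e1 : foldC g L (k + 1) = ((k + 1).val : ZMod L) := if_pos c1
      have e2 : foldC g L k = (k.val : ZMod L) := if_pos (by omega)
      rw [e1, e2, ← h]; push_cast; ring
    · by_cases c2 : k.val ≤ L - 1
      · -- k.val = L - 1, k.val + 1 = L is odd
        right
        have hkL : k.val = L - 1 := by omega
        have e1 : foldC g L (k + 1) = ((L - 2 : ℕ) : ZMod L) := by
          unfold foldC
          rw [if_neg c1, if_pos (by omega)]
        have e2 : foldC g L k = ((L - 1 : ℕ) : ZMod L) := by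
          unfold foldC
          rw [if_pos c2, hkL]
        rw [e1, e2, ← hp2]; ring
      · rcases Nat.mod_two_eq_zero_or_one k.val with e | e
        · right
          have e1 : foldC g L (k + 1) = ((L - 2 : ℕ) : ZMod L) := by
            unfold foldC
            rw [if_neg c1, if_pos (by omega)]
          have e2 : foldC g L k = ((L - 1 : ℕ) : ZMod L) := by
            unfold foldC
            rw [if_neg c2, if_neg (by omega)]
          rw [e1, e2, ← hp2]; ring
        · left
          have e1 : foldC g L (k + 1) = ((L - 1 : ℕ) : ZMod L) := by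
            unfold foldC
            rw [if_neg c1, if_neg (by omega)]
          have e2 : foldC g L k = ((L - 2 : ℕ) : ZMod L) := by
            unfold foldC
            rw [if_neg c2, if_pos (by omega)]
          rw [e1, e2, hp2]
  · -- wrap around
    left
    have e1 : foldC g L (k + 1) = 0 := by
      unfold foldC
      rw [if_pos (by omega), h1, Nat.cast_zero]
    have e2 : foldC g L k = ((L - 1 : ℕ) : ZMod L) := by
      unfold foldC
      by_cases c2 : k.val ≤ L - 1
      · rw [if_pos c2]
        congr 1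
        omega
      · rw [if_neg c2, if_neg (by omega)]
    rw [e1, e2, hp]

theorem CycHom.foldTo {g L : ℕ} {f : V → ZMod g} (h : CycHom G g f) (hL : 3 ≤ L) (ho : Odd L)
    (hg : Odd g) (hLg : L ≤ g) : CycHom G L (fun u => foldC g L (f u)) := by
  intro u w huw
  change foldC g L (f w) = foldC g L (f u) + 1 ∨ foldC g L (f w) = foldC g L (f u) - 1
  rcases h u w huw with e | e
  · rw [e]
    exact foldC_adj hL ho hg hLg (f u)
  · have e' : f u = f w + 1 := by rw [e]; ring
    have := foldC_adj hL ho hg hLg (f w)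
    rw [← e'] at this
    rcases this with t | t
    · right; rw [t]; ring
    · left; rw [t]; ring

/-- The homomorphism to the cycle of length `2 * m + 3` for `m ≥ 4`. -/
theorem cycHom_of_four_le [Fintype V] (hV : Fintype.card V = 17) {m : ℕ} (hm : 4 ≤ m)
    (hα : AlphaEight G)
    (hG : ∀ v (p : G.Walk v v), Odd p.length → 2 * m + 1 < p.length) :
    ∃ f : V → ZMod (2 * m + 3), CycHom G (2 * m + 3) f := by
  classical
  have hnb : ∃ v, ∃ p : G.Walk v v, Odd p.length := by
    by_contra hcon
    push Not at hcon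
    have hcol : G.Colorable 2 := by
      rw [two_colorable_iff_forall_loop_even]
      exact fun v p => Nat.not_odd_iff_even.1 (hcon v p)
    obtain ⟨col⟩ := hcol
    have h1 : ∀ x : Fin 2, (univ.filter (fun v : V => col v = x)).card ≤ 8 := by
      intro x
      apply hα
      intro u hu w hw huw
      simp only [mem_filter, mem_univ, true_and] at hu hw
      exact col.valid huw (hu.trans hw.symm)
    have h3 := Finset.card_eq_sum_card_fiberwise (s := (univ : Finset V))
      (t := (univ : Finset (Fin 2))) (f := col) (fun _ _ => mem_coe.2 (mem_univ _))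
    rw [Finset.card_univ, hV, Fin.sum_univ_two] at h3
    have := h1 0
    have := h1 1
    omega
  obtain ⟨g, c, h, hg⟩ := exists_shortOdd hnb (by omega) hG
  have hNe : NeZero g := ⟨by omega⟩
  obtain ⟨f, hf1, hf2⟩ := h.exists_hom (by omega)
    (fun b i0 hb _ => h.consistent_of_eleven hV (by omega) b i0 hb)
  exact ⟨_, CycHom.foldTo (f := f) hf2 (by omega) ⟨m + 1, by ring⟩ h.odd hg⟩

/-- size of a level -/
noncomputable def lsize [Fintype V] {L : ℕ} (f : V → ZMod L) (j : ZMod L) : ℕ := by
  classical exact (univ.filter (fun u => f u = j)).card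

theorem lsize_eq [Fintype V] [DecidableEq V] {L : ℕ} (f : V → ZMod L) (j : ZMod L)
    [DecidablePred fun u => f u = j] :
    lsize f j = (univ.filter (fun u => f u = j)).card := by
  unfold lsize
  congr

theorem sum_lsize [Fintype V] {L : ℕ} [NeZero L] (f : V → ZMod L) :
    ∑ j, lsize f j = Fintype.card V := by
  classical
  have h3 := Finset.card_eq_sum_card_fiberwise (s := (univ : Finset V))
    (t := (univ : Finset (ZMod L))) (f := f) (fun _ _ => mem_coe.2 (mem_univ _))
  rw [Finset.card_univ] at h3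
  rw [h3]
  exact Finset.sum_congr rfl (fun j _ => by unfold lsize; congr)

theorem sum_zmod_range {L : ℕ} [NeZero L] (b : ZMod L → ℕ) (j : ZMod L) :
    ∑ k, b k = ∑ s ∈ range L, b (j + s) := by
  have h1 : ∑ k, b k = ∑ k, b (j + k) := (Equiv.sum_comp (Equiv.addLeft j) b).symm
  rw [h1]
  refine Finset.sum_bij' (fun k _ => k.val) (fun s _ => (s : ZMod L)) ?_ ?_ ?_ ?_ ?_
  · intro k _; exact Finset.mem_range.2 (ZMod.val_lt k)
  · intro s _; exact mem_univ _
  · intro k _; exact ZMod.natCast_zmod_val k
  · intro s hs; exact ZMod.val_cast_of_lt (Finset.mem_range.1 hs)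
  · intro k _; rw [ZMod.natCast_zmod_val]

theorem sum_range_odd (b : ℕ → ℕ) (m : ℕ) : ∑ s ∈ range (2 * m + 3), b s =
    b 0 + ∑ t ∈ range (m + 1), b (1 + 2 * t) + ∑ t ∈ range (m + 1), b (2 + 2 * t) := by
  induction m with
  | zero => simp [Finset.sum_range_succ]
  | succ m ih =>
    have e : 2 * (m + 1) + 3 = (2 * m + 3) + 1 + 1 := by ring
    rw [e, Finset.sum_range_succ, Finset.sum_range_succ, ih, Finset.sum_range_succ _ (m + 1),
      Finset.sum_range_succ _ (m + 1)]
    have e1 : 1 + 2 * (m + 1) = 2 * m + 3 := by ring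
    have e2 : 2 + 2 * (m + 1) = 2 * m + 3 + 1 := by ring
    rw [e1, e2]
    ring

/-- the number of vertices in a window of alternate levels -/
noncomputable def wsize [Fintype V] {L : ℕ} (f : V → ZMod L) (m : ℕ) (j : ZMod L) : ℕ :=
  ∑ t ∈ range (m + 1), lsize f (j + 2 * t)

theorem two_mul_inj {m s t : ℕ} (hs : s ≤ m) (ht : t ≤ m)
    (h : (2 * s : ZMod (2 * m + 3)) = 2 * t) : s = t := by
  have h1 : ((2 * s : ℕ) : ZMod (2 * m + 3)) = ((2 * t : ℕ) : ZMod (2 * m + 3)) := by
    push_cast; exact h
  rw [ZMod.natCast_eq_natCast_iff'] at h1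
  rw [Nat.mod_eq_of_lt (by omega), Nat.mod_eq_of_lt (by omega)] at h1
  omega

theorem two_mul_ne {m s t : ℕ} (hs : s ≤ m) (ht : t ≤ m) :
    (2 * t : ZMod (2 * m + 3)) ≠ 2 * s + 1 := by
  intro h
  have h1 : ((2 * t : ℕ) : ZMod (2 * m + 3)) = ((2 * s + 1 : ℕ) : ZMod (2 * m + 3)) := by
    push_cast; exact h
  rw [ZMod.natCast_eq_natCast_iff'] at h1
  rw [Nat.mod_eq_of_lt (by omega), Nat.mod_eq_of_lt (by omega)] at h1
  omega

theorem wsize_eq_card [Fintype V] [DecidableEq V] {m : ℕ} (f : V → ZMod (2 * m + 3))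
    (j : ZMod (2 * m + 3)) :
    wsize f m j = ((range (m + 1)).biUnion
      (fun t => univ.filter (fun u => f u = j + 2 * (t : ZMod (2 * m + 3))))).card := by
  rw [Finset.card_biUnion]
  · unfold wsize
    exact Finset.sum_congr rfl (fun t _ => lsize_eq f _)
  · intro s hs t ht hst
    change Disjoint _ _
    rw [Finset.disjoint_left]
    intro u hu hu'
    simp only [mem_filter, mem_univ, true_and] at hu hu'
    rw [hu] at hu'
    apply hst
    rw [Finset.mem_coe, Finset.mem_range] at hs ht
    exact two_mul_inj (by omega) (by omega) (add_left_cancel hu')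

theorem wsize_le [Fintype V] {m : ℕ} {f : V → ZMod (2 * m + 3)}
    (hf : CycHom G (2 * m + 3) f) (hα : AlphaEight G) (j : ZMod (2 * m + 3)) :
    wsize f m j ≤ 8 := by
  classical
  rw [wsize_eq_card]
  apply hα
  intro u hu w hw huw
  simp only [mem_biUnion, mem_range, mem_filter, mem_univ, true_and] at hu hw
  obtain ⟨s, hs, hu⟩ := hu
  obtain ⟨t, ht, hw⟩ := hw
  rcases hf u w huw with e | e
  · apply two_mul_ne (m := m) (s := s) (t := t) (by omega) (by omega)
    rw [hu, hw] at e
    linear_combination e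
  · apply two_mul_ne (m := m) (s := t) (t := s) (by omega) (by omega)
    rw [hu, hw] at e
    linear_combination -e

theorem wsize_add [Fintype V] {m : ℕ} (f : V → ZMod (2 * m + 3))
    (j : ZMod (2 * m + 3)) :
    lsize f (j - 1) + wsize f m j + wsize f m (j + 1) = Fintype.card V := by
  have h1 := sum_lsize f
  rw [sum_zmod_range _ (j - 1), sum_range_odd] at h1
  rw [← h1]
  unfold wsize
  congr 1
  · congr 1
    · congr 1
      push_cast; ring
    · refine Finset.sum_congr rfl (fun t _ => ?_)
      congr 1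
      push_cast; ring
  · refine Finset.sum_congr rfl (fun t _ => ?_)
    congr 1
    push_cast; ring

/-- Level sizes of a class on 17 vertices. -/
theorem exists_deficit [Fintype V] (hV : Fintype.card V = 17) {m : ℕ}
    {f : V → ZMod (2 * m + 3)} (hf : CycHom G (2 * m + 3) f) (hα : AlphaEight G) :
    ∃ d : ZMod (2 * m + 3) → ℕ, (∀ j, wsize f m j + d j = 8) ∧
      (∀ j, lsize f (j - 1) = 1 + d j + d (j + 1)) ∧ m + ∑ j, d j = 7 := by
  refine ⟨fun j => 8 - wsize f m j, ?_, ?_, ?_⟩
  · intro j
    have := wsize_le hf hα j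
    change wsize f m j + (8 - wsize f m j) = 8
    omega
  · intro j
    have h1 := wsize_le hf hα j
    have h2 := wsize_le hf hα (j + 1)
    have h3 := wsize_add f j
    rw [hV] at h3
    change lsize f (j - 1) = 1 + (8 - wsize f m j) + (8 - wsize f m (j + 1))
    omega
  · have h4 : ∑ j, lsize f (j - 1) = 17 := by
      rw [← hV, ← sum_lsize f]
      exact Equiv.sum_comp (Equiv.subRight (1 : ZMod (2 * m + 3))) (lsize f)
    have h5 : ∀ j, lsize f (j - 1) = 1 + (8 - wsize f m j) + (8 - wsize f m (j + 1)) := by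
      intro j
      have h1 := wsize_le hf hα j
      have h2 := wsize_le hf hα (j + 1)
      have h3 := wsize_add f j
      rw [hV] at h3
      omega
    rw [Finset.sum_congr rfl (fun j _ => h5 j), Finset.sum_add_distrib,
      Finset.sum_add_distrib] at h4
    have h6 : ∑ j : ZMod (2 * m + 3), (8 - wsize f m (j + 1)) = ∑ j, (8 - wsize f m j) :=
      Equiv.sum_comp (Equiv.addRight (1 : ZMod (2 * m + 3))) (fun j => 8 - wsize f m j)
    rw [h6, Finset.sum_const, Finset.card_univ, ZMod.card, smul_eq_mul] at h4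
    change m + ∑ j, (8 - wsize f m j) = 7
    omega

end hom

end Pool.Agent.Work.MP_92a29d_co
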