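import Pool.Agent.Work.MP_92a29d_co_h16.Struct

/-!
A checker for search trees over graphs on 17 labelled vertices without odd closed walks of length
at most 7.
-/

namespace Pool.Agent.Work.MP_92a29d_co

open SimpleGraph Finset

/-- ones at the multiples of 17 -/
def spr : ℕ → ℕ
  | 0 => 0
  | k + 1 => 1 + 2 ^ 17 * spr k

theorem testBit_block (k : ℕ) : ∀ Y R : ℕ, R < 2 ^ 17 → ∀ u v : ℕ, u < k → v < 17 →
    ((Y &&& spr k) * R).testBit (17 * u + v) = (Y.testBit (17 * u) && R.testBit v) := by
  induction k with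
  | zero => intro Y R _ u v hu; omega
  | succ k ih =>
    intro Y R hR u v hu hv
    have hdec : Y &&& spr (k + 1) = 2 ^ 17 * ((Y >>> 17) &&& spr k) + Y % 2 := by
      apply Nat.eq_of_testBit_eq
      intro j
      have hlt : Y % 2 < 2 ^ 17 := by omega
      rw [Nat.testBit_and, Nat.testBit_two_pow_mul_add _ hlt]
      have hs : spr (k + 1) = 2 ^ 17 * spr k + 1 := by
        change 1 + 2 ^ 17 * spr k = _; ring
      rw [hs, Nat.testBit_two_pow_mul_add _ (by norm_num)]
      by_cases hj : j < 17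
      · rw [if_pos hj, if_pos hj]
        rcases Nat.eq_zero_or_pos j with rfl | hj0
        · simp
        · have h1 : (1 : ℕ).testBit j = false := by
            apply Nat.testBit_lt_two_pow
            calc 1 < 2 ^ 1 := by norm_num
              _ ≤ 2 ^ j := Nat.pow_le_pow_right (by norm_num) hj0
          have h2 : (Y % 2).testBit j = false := by
            apply Nat.testBit_lt_two_pow
            calc Y % 2 < 2 ^ 1 := by omega
              _ ≤ 2 ^ j := Nat.pow_le_pow_right (by norm_num) hj0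
          rw [h1, h2, Bool.and_false]
      · rw [if_neg hj, if_neg hj, Nat.testBit_and, Nat.testBit_shiftRight]
        congr 2
        omega
    have hmul : (Y &&& spr (k + 1)) * R = 2 ^ 17 * (((Y >>> 17) &&& spr k) * R) + Y % 2 * R := by
      rw [hdec]; ring
    have hlt : Y % 2 * R < 2 ^ 17 := by
      rcases Nat.mod_two_eq_zero_or_one Y with e | e <;> rw [e] <;> omega
    rw [hmul, Nat.testBit_two_pow_mul_add _ hlt]
    rcases Nat.eq_zero_or_pos u with rfl | hu0
    · rw [if_pos (by omega)]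
      rw [mul_zero, zero_add, Nat.testBit_zero]
      rcases Nat.mod_two_eq_zero_or_one Y with e | e <;> rw [e] <;> simp
    · rw [if_neg (by omega)]
      obtain ⟨u', rfl⟩ : ∃ u', u = u' + 1 := ⟨u - 1, by omega⟩
      have e1 : 17 * (u' + 1) + v - 17 = 17 * u' + v := by omega
      rw [e1, ih _ R hR u' v (by omega) hv, Nat.testBit_shiftRight]
      congr 2
      ring

def mulAux (A B : ℕ) : ℕ → ℕ
  | 0 => 0
  | w + 1 => mulAux A B w ||| (((A >>> w) &&& spr 17) * ((B >>> (17 * w)) % 2 ^ 17))

theorem mulAux_testBit (A B : ℕ) (n : ℕ) (u v : ℕ) (hu : u < 17) (hv : v < 17)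
    (h : (mulAux A B n).testBit (17 * u + v) = true) :
    ∃ w, w < n ∧ A.testBit (17 * u + w) = true ∧ B.testBit (17 * w + v) = true := by
  induction n with
  | zero => simp [mulAux] at h
  | succ n ih =>
    change (mulAux A B n ||| (((A >>> n) &&& spr 17) * ((B >>> (17 * n)) % 2 ^ 17))).testBit _ = _
      at h
    rw [Nat.testBit_or, testBit_block 17 _ _ (Nat.mod_lt _ (by norm_num)) u v hu hv,
      Nat.testBit_shiftRight, Nat.testBit_mod_two_pow, Nat.testBit_shiftRight, Bool.or_eq_true,
      Bool.and_eq_true, Bool.and_eq_true] at h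
    rcases h with h | ⟨h1, _, h2⟩
    · obtain ⟨w, hw, h⟩ := ih h
      exact ⟨w, by omega, h⟩
    · refine ⟨n, by omega, ?_, h2⟩
      rwa [add_comm] at h1

/-- force the evaluation of a number -/
def frc (n : ℕ) (K : ℕ → Bool) : Bool :=
  Nat.rec (motive := fun _ => Bool) (K 0) (fun m _ => K (Nat.succ m)) n

theorem frc_eq (n : ℕ) (K : ℕ → Bool) : frc n K = K n := by
  cases n <;> rfl

/-- all numbers below `n` -/
def allLt (f : ℕ → Bool) (n : ℕ) : Bool :=
  Nat.rec (motive := fun _ => Bool) true (fun m r => and (f m) r) n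

theorem allLt_iff (f : ℕ → Bool) (n : ℕ) : allLt f n = true ↔ ∀ k < n, f k = true := by
  induction n with
  | zero => simp [allLt]
  | succ n ih =>
    change and (f n) (allLt f n) = true ↔ _
    rw [Bool.and_eq_true, ih]
    constructor
    · rintro ⟨h1, h2⟩ k hk
      rcases Nat.lt_succ_iff_lt_or_eq.1 hk with h | rfl
      · exact h2 k h
      · exact h1
    · intro h
      exact ⟨h n (by omega), fun k hk => h k (by omega)⟩

/-- bit of a packed matrix -/
def mbit (A u v : ℕ) : Bool := Nat.beq ((A >>> (17 * u + v)) % 2) 1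

theorem mbit_eq (A u v : ℕ) : mbit A u v = A.testBit (17 * u + v) := by
  unfold mbit
  rw [Nat.testBit_eq_decide_div_mod_eq, Nat.shiftRight_eq_div_pow]
  rw [Bool.eq_iff_iff, decide_eq_true_iff]
  rw [Nat.beq_eq]

/-- digit of a packed list, base 32 -/
def dig (p u : ℕ) : ℕ := (p >>> (5 * u)) % 32

inductive Cert
  | hom (f : ℕ)
  | emb (k : ℕ) (p : ℕ)
  | alp (S : ℕ)
  | br (u v : ℕ) (a b : Cert)

def edgeBit (u v : ℕ) : ℕ := 2 ^ (17 * u + v) ||| 2 ^ (17 * v + u)

theorem edgeBit_testBit {u v a b : ℕ} (hu : u < 17) (hv : v < 17) (ha : a < 17) (hb : b < 17)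
    (h : (edgeBit u v).testBit (17 * a + b) = true) : (a = u ∧ b = v) ∨ (a = v ∧ b = u) := by
  unfold edgeBit at h
  rw [Nat.testBit_or, Bool.or_eq_true, Nat.testBit_two_pow, Nat.testBit_two_pow,
    decide_eq_true_iff, decide_eq_true_iff] at h
  omega

/-- pairs that cannot be adjacent -/
def impos (P N : ℕ) (K : ℕ → Bool) : Bool :=
  frc (mulAux P P 17) fun P2 => frc (mulAux P2 P2 17) fun P4 => frc (mulAux P4 P2 17) fun P6 =>
    frc (P6 ||| N) K

def sDigit (S i : ℕ) : ℕ := (S >>> (5 * i)) % 32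

/-- `F` gives the packed target graphs. -/
def check (F : ℕ → ℕ) : Cert → ℕ → ℕ → Bool
  | .hom f, P, N => impos P N fun Q => allLt (fun u => allLt (fun v =>
      mbit Q u v || (Nat.beq ((dig f u + 1) % 9) (dig f v % 9) ||
        Nat.beq ((dig f v + 1) % 9) (dig f u % 9))) u) 17
  | .emb k p, P, N => impos P N fun Q => frc (F k) fun T => Nat.blt k 9 && allLt (fun u =>
      Nat.blt (dig p u) 17 && allLt (fun v =>
      (mbit Q u v || (mbit T (dig p u) (dig p v) && mbit T (dig p v) (dig p u))) &&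
        !(Nat.beq (dig p u) (dig p v))) u) 17
  | .alp S, P, N => impos P N fun Q => allLt (fun i => Nat.blt (dig S i) 17 && allLt (fun j =>
      mbit Q (dig S i) (dig S j) && Nat.blt (dig S j) (dig S i)) i) 9
  | .br u v a b, P, N => (Nat.blt u 17 && Nat.blt v 17) &&
      ((frc (P ||| edgeBit u v) fun P' => check F a P' N) &&
        (frc (N ||| edgeBit u v) fun N' => check F b P N'))

/-- the conclusion -/
def Goal (F : ℕ → ℕ) (G : SimpleGraph (Fin 17)) : Prop :=
  (∃ f : Fin 17 → ZMod 9, CycHom G 9 f) ∨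
    ∃ k < 9, ∃ π : Fin 17 → Fin 17, Function.Injective π ∧
      ∀ u v, G.Adj u v → mbit (F k) (π u) (π v) = true

theorem impos_sound (P N : ℕ) (K : ℕ → Bool) (h : impos P N K = true) (G : SimpleGraph (Fin 17))
    (hP : ∀ u v : Fin 17, P.testBit (17 * u + v) = true → G.Adj u v)
    (hN : ∀ u v : Fin 17, N.testBit (17 * u + v) = true → ¬ G.Adj u v)
    (hG : ∀ v (p : G.Walk v v), Odd p.length → 7 < p.length) :
    ∃ Q, K Q = true ∧ ∀ u v : Fin 17, mbit Q u v = true → ¬ G.Adj u v := by
  unfold impos at h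
  rw [frc_eq, frc_eq, frc_eq, frc_eq] at h
  refine ⟨_, h, ?_⟩
  have key : ∀ (A B a b : ℕ), (∀ u v : Fin 17, A.testBit (17 * u + v) = true →
      ∃ p : G.Walk u v, p.length = a) → (∀ u v : Fin 17, B.testBit (17 * u + v) = true →
      ∃ p : G.Walk u v, p.length = b) → ∀ u v : Fin 17,
      (mulAux A B 17).testBit (17 * u + v) = true → ∃ p : G.Walk u v, p.length = a + b := by
    intro A B a b hA hB u v huv
    obtain ⟨w, hw, h1, h2⟩ := mulAux_testBit A B 17 u v u.2 v.2 huv
    obtain ⟨p, hp⟩ := hA u ⟨w, hw⟩ h1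
    obtain ⟨q, hq⟩ := hB ⟨w, hw⟩ v h2
    exact ⟨p.append q, by rw [Walk.length_append, hp, hq]⟩
  have h1 : ∀ u v : Fin 17, P.testBit (17 * u + v) = true → ∃ p : G.Walk u v, p.length = 1 :=
    fun u v huv => ⟨(hP u v huv).toWalk, rfl⟩
  have h2 := key _ _ _ _ h1 h1
  have h4 := key _ _ _ _ h2 h2
  have h6 := key _ _ _ _ h4 h2
  intro u v hQ hadj
  rw [mbit_eq, Nat.testBit_or, Bool.or_eq_true] at hQ
  rcases hQ with hQ | hQ
  · obtain ⟨p, hp⟩ := h6 u v hQ
    have := hG v (Walk.cons hadj.symm p) (by rw [Walk.length_cons, hp]; decide)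
    rw [Walk.length_cons, hp] at this
    omega
  · exact hN u v hQ hadj

theorem check_sound (F : ℕ → ℕ) (c : Cert) : ∀ P N, check F c P N = true →
    ∀ G : SimpleGraph (Fin 17),
    (∀ u v : Fin 17, P.testBit (17 * u + v) = true → G.Adj u v) →
    (∀ u v : Fin 17, N.testBit (17 * u + v) = true → ¬ G.Adj u v) →
    (∀ v (p : G.Walk v v), Odd p.length → 7 < p.length) → AlphaEight G → Goal F G := by
  induction c with
  | hom f =>
    intro P N h G hP hN hG _
    left
    obtain ⟨Q, hQ, hQ'⟩ := impos_sound P N _ h G hP hN hG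
    rw [allLt_iff] at hQ
    refine ⟨fun u => (dig f u : ZMod 9), ?_⟩
    have key : ∀ u v : Fin 17, (v : ℕ) < u → G.Adj u v →
        ((dig f v : ZMod 9) = (dig f u : ZMod 9) + 1 ∨
          (dig f v : ZMod 9) = (dig f u : ZMod 9) - 1) := by
      intro u v hvu huv
      have h1 := hQ u u.2
      rw [allLt_iff] at h1
      have h1 := h1 v hvu
      rw [Bool.or_eq_true, Bool.or_eq_true] at h1
      rcases h1 with h1 | h1 | h1
      · exact absurd huv (hQ' u v h1)
      · left
        have h1 := Nat.eq_of_beq_eq_true h1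
        have : ((dig f u + 1 : ℕ) : ZMod 9) = ((dig f v : ℕ) : ZMod 9) :=
          (ZMod.natCast_eq_natCast_iff' _ _ _).2 h1
        rw [← this]; push_cast; ring
      · right
        have h1 := Nat.eq_of_beq_eq_true h1
        have : ((dig f v + 1 : ℕ) : ZMod 9) = ((dig f u : ℕ) : ZMod 9) :=
          (ZMod.natCast_eq_natCast_iff' _ _ _).2 h1
        rw [← this]; push_cast; ring
    intro u v huv
    rcases lt_trichotomy (u : ℕ) v with h1 | h1 | h1
    · rcases key v u h1 huv.symm with e | e
      · right; change (dig f v : ZMod 9) = (dig f u : ZMod 9) - 1; rw [e]; ring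
      · left; change (dig f v : ZMod 9) = (dig f u : ZMod 9) + 1; rw [e]; ring
    · exact absurd (Fin.ext h1) huv.ne
    · exact key u v h1 huv
  | emb k p =>
    intro P N h G hP hN hG _
    right
    obtain ⟨Q, hQ, hQ'⟩ := impos_sound P N _ h G hP hN hG
    rw [frc_eq, Bool.and_eq_true, Nat.blt_eq, allLt_iff] at hQ
    obtain ⟨hk, hQ⟩ := hQ
    have hlt : ∀ u : Fin 17, dig p u < 17 := by
      intro u
      have h1 := hQ u u.2
      rw [Bool.and_eq_true, Nat.blt_eq] at h1
      exact h1.1
    have key : ∀ u v : Fin 17, (v : ℕ) < u → dig p u ≠ dig p v ∧ (G.Adj u v →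
        mbit (F k) (dig p u) (dig p v) = true ∧ mbit (F k) (dig p v) (dig p u) = true) := by
      intro u v hvu
      have h1 := hQ u u.2
      rw [Bool.and_eq_true, allLt_iff] at h1
      have h1 := h1.2 v hvu
      rw [Bool.and_eq_true, Bool.or_eq_true, Bool.and_eq_true, Bool.not_eq_true'] at h1
      obtain ⟨h1, h2⟩ := h1
      refine ⟨fun e => ?_, fun huv => ?_⟩
      · rw [e, Nat.beq_refl] at h2
        exact absurd h2 (by decide)
      · rcases h1 with h1 | h1
        · exact absurd huv (hQ' u v h1)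
        · exact h1
    refine ⟨k, hk, fun u => ⟨dig p u, hlt u⟩, ?_, ?_⟩
    · intro u v huv
      have e : dig p u = dig p v := congrArg Fin.val huv
      rcases lt_trichotomy (u : ℕ) v with h1 | h1 | h1
      · exact absurd e.symm (key v u h1).1
      · exact Fin.ext h1
      · exact absurd e (key u v h1).1
    · intro u v huv
      rcases lt_trichotomy (u : ℕ) v with h1 | h1 | h1
      · exact ((key v u h1).2 huv.symm).2
      · exact absurd (Fin.ext h1) huv.ne
      · exact ((key u v h1).2 huv).1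
  | alp S =>
    intro P N h G hP hN hG hα
    exfalso
    obtain ⟨Q, hQ, hQ'⟩ := impos_sound P N _ h G hP hN hG
    rw [allLt_iff] at hQ
    have hlt : ∀ i : Fin 9, dig S i < 17 := by
      intro i
      have h1 := hQ i i.2
      rw [Bool.and_eq_true, Nat.blt_eq] at h1
      exact h1.1
    have key : ∀ i j : Fin 9, (j : ℕ) < i → mbit Q (dig S i) (dig S j) = true ∧
        dig S j < dig S i := by
      intro i j hji
      have h1 := hQ i i.2
      rw [Bool.and_eq_true, allLt_iff] at h1
      have h1 := h1.2 j hji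
      rw [Bool.and_eq_true, Nat.blt_eq] at h1
      exact h1
    let e : Fin 9 → Fin 17 := fun i => ⟨dig S i, hlt i⟩
    have hinj : Function.Injective e := by
      intro i j hij
      have hv : dig S i = dig S j := congrArg Fin.val hij
      rcases lt_trichotomy (i : ℕ) j with h1 | h1 | h1
      · have := (key j i h1).2; omega
      · exact Fin.ext h1
      · have := (key i j h1).2; omega
    have hcard := hα (univ.image e) (by
      intro u hu w hw huw
      obtain ⟨i, _, rfl⟩ := Finset.mem_image.1 hu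
      obtain ⟨j, _, rfl⟩ := Finset.mem_image.1 hw
      rcases lt_trichotomy (i : ℕ) j with h1 | h1 | h1
      · exact hQ' (e j) (e i) (key j i h1).1 huw.symm
      · exact huw.ne (by rw [Fin.ext h1])
      · exact hQ' (e i) (e j) (key i j h1).1 huw)
    rw [Finset.card_image_of_injective _ hinj] at hcard
    simp at hcard
  | br u v a b iha ihb =>
    intro P N h G hP hN hG hα
    change ((Nat.blt u 17 && Nat.blt v 17) &&
      ((frc (P ||| edgeBit u v) fun P' => check F a P' N) &&
        (frc (N ||| edgeBit u v) fun N' => check F b P N'))) = true at h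
    rw [frc_eq, frc_eq, Bool.and_eq_true, Bool.and_eq_true, Bool.and_eq_true, Nat.blt_eq,
      Nat.blt_eq] at h
    obtain ⟨⟨hu, hv⟩, ha, hb⟩ := h
    by_cases huv : G.Adj ⟨u, hu⟩ ⟨v, hv⟩
    · refine iha _ _ ha G ?_ hN hG hα
      intro x y hxy
      rw [Nat.testBit_or, Bool.or_eq_true] at hxy
      rcases hxy with hxy | hxy
      · exact hP x y hxy
      · rcases edgeBit_testBit hu hv x.2 y.2 hxy with ⟨e1, e2⟩ | ⟨e1, e2⟩
        · have e1 : x = ⟨u, hu⟩ := Fin.ext e1
          have e2 : y = ⟨v, hv⟩ := Fin.ext e2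
          rw [e1, e2]; exact huv
        · have e1 : x = ⟨v, hv⟩ := Fin.ext e1
          have e2 : y = ⟨u, hu⟩ := Fin.ext e2
          rw [e1, e2]; exact huv.symm
    · refine ihb _ _ hb G hP ?_ hG hα
      intro x y hxy
      rw [Nat.testBit_or, Bool.or_eq_true] at hxy
      rcases hxy with hxy | hxy
      · exact hN x y hxy
      · rcases edgeBit_testBit hu hv x.2 y.2 hxy with ⟨e1, e2⟩ | ⟨e1, e2⟩
        · have e1 : x = ⟨u, hu⟩ := Fin.ext e1
          have e2 : y = ⟨v, hv⟩ := Fin.ext e2
          rw [e1, e2]; exact huv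
        · have e1 : x = ⟨v, hv⟩ := Fin.ext e1
          have e2 : y = ⟨u, hu⟩ := Fin.ext e2
          rw [e1, e2]; exact fun h => huv h.symm

end Pool.Agent.Work.MP_92a29d_co
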