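import Pool.Agent.Work.MP_92a29d_co_h16.Certs

/-!
An inconsistent lift gives a tripod.
-/

namespace Pool.Agent.Work.MP_92a29d_co

open SimpleGraph Finset

/-- the parameters of a tripod -/
def validTri (d a q t : ℕ) : Prop := a ≤ d ∧ ((d + q = 6 ∧ t = 0) ∨ (d + q = 7 ∧ 1 ≤ t ∧ t ≤ 3))

theorem mem_triEdges {d a q t : ℕ} {e : ℕ × ℕ} (he : e ∈ triEdges d a q t) :
    e = (8, 0) ∨ e = (9, 0) ∨ e = (9 + d, (d + 2 - (if t = 1 then 2 else 0)) % 9) ∨
    e = ((if q = 0 then 9 + a else 9 + d + q),
      (18 - (a + q + 2 - (if t = 2 then 2 else 0))) % 9) ∨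
    (∃ k < 8, e = (k, k + 1)) ∨ (∃ k < d, e = (9 + k, 10 + k)) ∨
    (q ≠ 0 ∧ e = (9 + a, 10 + d)) ∨ (∃ k < q - 1, e = (10 + d + k, 11 + d + k)) := by
  unfold triEdges at he
  rw [List.mem_cons, List.mem_cons, List.mem_cons, List.mem_cons, List.mem_append,
    List.mem_append] at he
  rcases he with he | he | he | he | (he | he) | he
  · exact Or.inl he
  · exact Or.inr (Or.inl he)
  · exact Or.inr (Or.inr (Or.inl he))
  · exact Or.inr (Or.inr (Or.inr (Or.inl he)))
  · rw [List.mem_map] at he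
    obtain ⟨k, hk, rfl⟩ := he
    exact Or.inr (Or.inr (Or.inr (Or.inr (Or.inl ⟨k, List.mem_range.1 hk, rfl⟩))))
  · rw [List.mem_map] at he
    obtain ⟨k, hk, rfl⟩ := he
    exact Or.inr (Or.inr (Or.inr (Or.inr (Or.inr (Or.inl ⟨k, List.mem_range.1 hk, rfl⟩)))))
  · by_cases hq : q = 0
    · rw [if_pos hq] at he
      exact absurd he List.not_mem_nil
    · rw [if_neg hq, List.mem_cons, List.mem_map] at he
      rcases he with he | ⟨k, hk, rfl⟩
      · exact Or.inr (Or.inr (Or.inr (Or.inr (Or.inr (Or.inr (Or.inl ⟨hq, he⟩))))))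
      · exact Or.inr (Or.inr (Or.inr (Or.inr (Or.inr (Or.inr (Or.inr
          ⟨k, List.mem_range.1 hk, rfl⟩))))))

variable {V : Type*} [Fintype V] {G : SimpleGraph V} {c : ZMod 9 → V}

theorem tripod_pos (h : ShortOdd G 9 c) (hV : Fintype.card V = 17) {b x y : V}
    {i0 i j : ZMod 9} (hb : ∀ i, c i ≠ b) (hbi : G.Adj b (c i0))
    (hx : (restG G c).Reachable b x) (hy : (restG G c).Reachable b y)
    (hxi : G.Adj x (c i)) (hyj : G.Adj y (c j)) {δ₁ δ₂ δ₃ : ℤ}
    (e1 : (δ₁ : ZMod 9) = i - i0) (e2 : (δ₂ : ZMod 9) = j - i0)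
    (a1 : |δ₁| ≤ (restG G c).dist b x + 2) (a2 : |δ₂| ≤ (restG G c).dist b y + 2)
    (a3 : |δ₃| ≤ (restG G c).dist x y + 2) (p1 : Even (δ₁ - (restG G c).dist b x))
    (p2 : Even (δ₂ - (restG G c).dist b y)) (p3 : Even (δ₃ - (restG G c).dist x y))
    (hS : δ₁ + δ₃ - δ₂ = 18) :
    ∃ d a q t : ℕ, validTri d a q t ∧ ∃ e : ℕ → V,
      (∀ k l, k < 17 → l < 17 → e k = e l → k = l) ∧
      ∀ p ∈ triEdges d a q t, G.Adj (e p.1) (e p.2) := by
  classical
  set H := restG G c with hH
  obtain ⟨P, hP⟩ := hx.exists_walk_length_eq_dist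
  have hPp := P.isPath_of_length_eq_dist hP
  set d := H.dist b x with hd
  -- closest vertex of the path
  obtain ⟨a, ha, hmin⟩ := Finset.exists_min_image (range (d + 1))
    (fun k => H.dist (P.getVert k) y) ⟨0, by simp⟩
  rw [Finset.mem_range] at ha
  set z := P.getVert a with hz
  have hbz : H.Reachable b z := (P.take a).reachable
  have hzy : H.Reachable z y := hbz.symm.trans hy
  obtain ⟨Q, hQ⟩ := hzy.exists_walk_length_eq_dist
  have hQp := Q.isPath_of_length_eq_dist hQ
  set q := H.dist z y with hq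
  have hta : (P.take a).length = a := by rw [Walk.take_length, hP]; omega
  have htd : (P.drop a).length = d - a := by rw [Walk.drop_length, hP]
  have d2 : H.dist b y ≤ a + q := by
    have := SimpleGraph.dist_le ((P.take a).append Q)
    rwa [Walk.length_append, hta, hQ] at this
  have d3 : H.dist x y ≤ (d - a) + q := by
    have := SimpleGraph.dist_le ((P.drop a).reverse.append Q)
    rwa [Walk.length_append, Walk.length_reverse, htd, hQ] at this
  have q2 : Even (H.dist b y + (a + q)) := by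
    obtain ⟨R, hR⟩ := hy.exists_walk_length_eq_dist
    have := h.rest_parity (by omega) R ((P.take a).append Q)
    rwa [Walk.length_append, hta, hQ, hR] at this
  have q3 : Even (H.dist x y + ((d - a) + q)) := by
    obtain ⟨R, hR⟩ := (hx.symm.trans hy).exists_walk_length_eq_dist
    have := h.rest_parity (by omega) R ((P.drop a).reverse.append Q)
    rwa [Walk.length_append, Walk.length_reverse, htd, hQ, hR] at this
  -- labels
  have hPR : ∀ k, ∀ i, c i ≠ P.getVert k := fun k =>
    rest_support P hb _ (P.getVert_mem_support k)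
  have hQR : ∀ k, ∀ i, c i ≠ Q.getVert k := fun k =>
    rest_support Q (hPR a) _ (Q.getVert_mem_support k)
  have hPinj : ∀ k l, k ≤ d → l ≤ d → P.getVert k = P.getVert l → k = l := by
    intro k l hk hl hkl
    exact hPp.getVert_injOn (by rw [hP]; exact hk) (by rw [hP]; exact hl) hkl
  have hQinj : ∀ k l, k ≤ q → l ≤ q → Q.getVert k = Q.getVert l → k = l := by
    intro k l hk hl hkl
    exact hQp.getVert_injOn (by rw [hQ]; exact hk) (by rw [hQ]; exact hl) hkl
  have hPQ : ∀ k l, k ≤ d → 1 ≤ l → l ≤ q → P.getVert k ≠ Q.getVert l := by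
    intro k l hk hl hlq he
    have h1 := hmin k (Finset.mem_range.2 (by omega))
    have h2 := SimpleGraph.dist_le (Q.drop l)
    rw [Walk.drop_length, hQ, ← he] at h2
    change q ≤ _ at h1
    omega
  have hcinj : ∀ k l : ℕ, k < 9 → l < 9 → c (i0 + k) = c (i0 + l) → k = l := by
    intro k l hk hl hkl
    have h1 := add_left_cancel (h.injective hkl)
    rw [ZMod.natCast_eq_natCast_iff'] at h1
    omega
  let lab0 : ℕ → V := fun k => if k < 9 then c (i0 + k) else if k < 10 + d then P.getVert (k - 9)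
    else Q.getVert (k - (10 + d) + 1)
  have l1 : ∀ k, k < 9 → lab0 k = c (i0 + k) := fun k hk => if_pos hk
  have l2 : ∀ k, 9 ≤ k → k < 10 + d → lab0 k = P.getVert (k - 9) := by
    intro k hk hk'
    change (if k < 9 then _ else _) = _
    rw [if_neg (by omega), if_pos hk']
  have l3 : ∀ k, 10 + d ≤ k → lab0 k = Q.getVert (k - (10 + d) + 1) := by
    intro k hk
    change (if k < 9 then _ else _) = _
    rw [if_neg (by omega), if_neg (by omega)]
  have linj : ∀ k l, k < 10 + d + q → l < 10 + d + q → lab0 k = lab0 l → k = l := by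
    have main : ∀ k l, k ≤ l → k < 10 + d + q → l < 10 + d + q → lab0 k = lab0 l → k = l := by
      intro k l hkl hk hl he
      rcases Nat.lt_or_ge k 9 with k1 | k1
      · rcases Nat.lt_or_ge l 9 with m1 | m1
        · rw [l1 k k1, l1 l m1] at he
          exact hcinj k l k1 m1 he
        · exfalso
          rcases Nat.lt_or_ge l (10 + d) with m2 | m2
          · rw [l1 k k1, l2 l m1 m2] at he
            exact hPR _ _ he
          · rw [l1 k k1, l3 l m2] at he
            exact hQR _ _ he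
      · rcases Nat.lt_or_ge k (10 + d) with k2 | k2
        · rcases Nat.lt_or_ge l (10 + d) with m2 | m2
          · rw [l2 k k1 k2, l2 l (by omega) m2] at he
            have := hPinj _ _ (by omega) (by omega) he
            omega
          · exfalso
            rw [l2 k k1 k2, l3 l m2] at he
            exact hPQ _ _ (by omega) (by omega) (by omega) he
        · rw [l3 k k2, l3 l (by omega)] at he
          have := hQinj _ _ (by omega) (by omega) he
          omega
    intro k l hk hl he
    rcases Nat.le_total k l with h1 | h1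
    · exact main k l h1 hk hl he
    · exact (main l k h1 hl hk he.symm).symm
  have hle : 10 + d + q ≤ 17 := by
    have h1 := Fintype.card_le_of_injective (fun k : Fin (10 + d + q) => lab0 k)
      (fun k l hkl => Fin.ext (linj k l k.2 l.2 hkl))
    rwa [Fintype.card_fin, hV] at h1
  rw [abs_le] at a1 a2 a3
  have d2' : ((H.dist b y : ℕ) : ℤ) ≤ a + q := by exact_mod_cast d2
  have d3' : ((H.dist x y : ℕ) : ℤ) ≤ ((d : ℤ) - a) + q := by omega
  have hge : 6 ≤ d + q := by omega
  -- parity of the slacks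
  obtain ⟨k1, hk1⟩ := p1
  obtain ⟨k2, hk2⟩ := p2
  obtain ⟨k3, hk3⟩ := p3
  obtain ⟨r2, hr2⟩ := q2
  obtain ⟨r3, hr3⟩ := q3
  have hr3' : ((H.dist x y : ℕ) : ℤ) + (((d : ℤ) - a) + q) = r3 + r3 := by omega
  -- the parameter t
  have ht : ∃ t : ℕ, ((d + q = 6 ∧ t = 0) ∨ (d + q = 7 ∧ 1 ≤ t ∧ t ≤ 3)) ∧
      δ₁ = ((d + 2 - (if t = 1 then 2 else 0) : ℕ) : ℤ) ∧
      δ₂ = -((a + q + 2 - (if t = 2 then 2 else 0) : ℕ) : ℤ) := by
    rcases (by omega : d + q = 6 ∨ d + q = 7) with h6 | h7
    · refine ⟨0, Or.inl ⟨h6, rfl⟩, ?_, ?_⟩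
      · rw [if_neg (by omega)]; omega
      · rw [if_neg (by omega)]; omega
    · rcases (by omega : δ₁ = d ∨ δ₁ = d + 2) with s1 | s1
      · refine ⟨1, Or.inr ⟨h7, le_refl 1, by norm_num⟩, ?_, ?_⟩
        · rw [if_pos rfl]; omega
        · rw [if_neg (by omega)]; omega
      · rcases (by omega : δ₂ = -((a : ℤ) + q) ∨ δ₂ = -((a : ℤ) + q + 2)) with s2 | s2
        · refine ⟨2, Or.inr ⟨h7, by norm_num, by norm_num⟩, ?_, ?_⟩
          · rw [if_neg (by omega)]; omega
          · rw [if_pos rfl]; omega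
        · refine ⟨3, Or.inr ⟨h7, by norm_num, le_refl 3⟩, ?_, ?_⟩
          · rw [if_neg (by omega)]; omega
          · rw [if_neg (by omega)]; omega
  obtain ⟨t, ht, t1, t2⟩ := ht
  -- the last label
  have hr : ∃ r : V, 10 + d + q = 16 → ∀ k < 16, lab0 k ≠ r := by
    by_cases h16 : 10 + d + q = 16
    · by_contra hcon
      push Not at hcon
      have hsurj : Function.Surjective (fun k : Fin 16 => lab0 k) := by
        intro r
        obtain ⟨_, k, hk, he⟩ := hcon r
        exact ⟨⟨k, hk⟩, he⟩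
      have := Fintype.card_le_of_surjective _ hsurj
      rw [hV, Fintype.card_fin] at this
      omega
    · exact ⟨b, fun h => absurd h h16⟩
  obtain ⟨r, hr⟩ := hr
  let e : ℕ → V := fun k => if k < 10 + d + q then lab0 k else r
  have m1 : ∀ k, k < 10 + d + q → e k = lab0 k := fun k hk => if_pos hk
  have m2 : ∀ k, ¬ k < 10 + d + q → e k = r := fun k hk => if_neg hk
  refine ⟨d, a, q, t, ⟨by omega, ht⟩, e, ?_, ?_⟩
  · intro k l hk hl he
    by_cases hk' : k < 10 + d + q
    · by_cases hl' : l < 10 + d + q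
      · rw [m1 k hk', m1 l hl'] at he
        exact linj k l hk' hl' he
      · exfalso
        rw [m1 k hk', m2 l hl'] at he
        exact hr (by omega) k (by omega) he
    · by_cases hl' : l < 10 + d + q
      · exfalso
        rw [m2 k hk', m1 l hl'] at he
        exact hr (by omega) l (by omega) he.symm
      · omega
  · -- the edges
    have hcyc : ∀ k : ℕ, ∀ l : ℕ, (l : ZMod 9) = k + 1 → G.Adj (c (i0 + k)) (c (i0 + l)) := by
      intro k l hkl
      have := h.adj (i0 + k)
      rw [hkl, ← add_assoc]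
      exact this
    have hxd : P.getVert d = x := by
      have := P.getVert_length
      rwa [hP] at this
    have hyq : Q.getVert q = y := by
      have := Q.getVert_length
      rwa [hQ] at this
    intro p hp
    rcases mem_triEdges hp with rfl | rfl | rfl | rfl | ⟨k, hk, rfl⟩ | ⟨k, hk, rfl⟩ | ⟨hq0, rfl⟩ |
      ⟨k, hk, rfl⟩
    · change G.Adj (e 8) (e 0)
      rw [m1 8 (by omega), m1 0 (by omega), l1 8 (by omega), l1 0 (by omega)]
      exact hcyc 8 0 (by decide)
    · change G.Adj (e 9) (e 0)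
      rw [m1 9 (by omega), m1 0 (by omega), l2 9 (by omega) (by omega), l1 0 (by omega)]
      have : P.getVert (9 - 9) = b := P.getVert_zero
      rw [this, Nat.cast_zero, add_zero]
      exact hbi
    · change G.Adj (e (9 + d)) (e ((d + 2 - (if t = 1 then 2 else 0)) % 9))
      rw [m1 (9 + d) (by omega), m1 _ (by omega), l2 (9 + d) (by omega) (by omega),
        l1 _ (Nat.mod_lt _ (by norm_num))]
      have h1 : 9 + d - 9 = d := by omega
      rw [h1, hxd]
      have h2 : i0 + (((d + 2 - (if t = 1 then 2 else 0)) % 9 : ℕ) : ZMod 9) = i := by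
        rw [ZMod.natCast_mod, ← Int.cast_natCast, ← t1, e1]; ring
      rw [h2]
      exact hxi
    · change G.Adj (e (if q = 0 then 9 + a else 9 + d + q))
        (e ((18 - (a + q + 2 - (if t = 2 then 2 else 0))) % 9))
      have hyl : e (if q = 0 then 9 + a else 9 + d + q) = y := by
        by_cases hq0 : q = 0
        · rw [if_pos hq0, m1 _ (by omega), l2 _ (by omega) (by omega)]
          have h1 : 9 + a - 9 = a := by omega
          rw [h1]
          have h2 : Q.getVert 0 = z := Q.getVert_zero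
          have h3 : Q.getVert 0 = y := by
            have h4 := hyq
            rw [hq0] at h4
            exact h4
          exact h2.symm.trans h3
        · rw [if_neg hq0, m1 _ (by omega), l3 _ (by omega)]
          have h1 : 9 + d + q - (10 + d) + 1 = q := by omega
          rw [h1, hyq]
      rw [hyl, m1 _ (by omega), l1 _ (Nat.mod_lt _ (by norm_num))]
      have h2 : i0 + (((18 - (a + q + 2 - (if t = 2 then 2 else 0))) % 9 : ℕ) : ZMod 9) = j := by
        have hle2 : a + q + 2 - (if t = 2 then 2 else 0) ≤ 18 := by omega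
        rw [ZMod.natCast_mod, Nat.cast_sub hle2]
        have h3 : (((a + q + 2 - (if t = 2 then 2 else 0)) : ℕ) : ZMod 9) = -(δ₂ : ZMod 9) := by
          rw [← Int.cast_natCast, ← Int.cast_neg, t2, neg_neg]
        rw [h3, e2]
        have h18 : ((18 : ℕ) : ZMod 9) = 0 := by decide
        rw [h18]; ring
      rw [h2]
      exact hyj
    · change G.Adj (e k) (e (k + 1))
      rw [m1 k (by omega), m1 (k + 1) (by omega), l1 k (by omega), l1 (k + 1) (by omega)]
      exact hcyc k (k + 1) (by push_cast; ring)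
    · change G.Adj (e (9 + k)) (e (10 + k))
      rw [m1 _ (by omega), m1 _ (by omega), l2 _ (by omega) (by omega),
        l2 _ (by omega) (by omega)]
      have h1 : 9 + k - 9 = k := by omega
      have h2 : 10 + k - 9 = k + 1 := by omega
      rw [h1, h2]
      exact (P.adj_getVert_succ (by rw [hP]; exact hk)).1
    · change G.Adj (e (9 + a)) (e (10 + d))
      rw [m1 _ (by omega), m1 _ (by omega), l2 _ (by omega) (by omega), l3 _ (by omega)]
      have h1 : 9 + a - 9 = a := by omega
      have h2 : 10 + d - (10 + d) + 1 = 0 + 1 := by omega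
      rw [h1, h2]
      have h3 := Q.adj_getVert_succ (i := 0) (by rw [hQ]; omega)
      rw [Q.getVert_zero] at h3
      exact h3.1
    · change G.Adj (e (10 + d + k)) (e (11 + d + k))
      rw [m1 _ (by omega), m1 _ (by omega), l3 _ (by omega), l3 _ (by omega)]
      have h1 : 10 + d + k - (10 + d) + 1 = k + 1 := by omega
      have h2 : 11 + d + k - (10 + d) + 1 = k + 1 + 1 := by omega
      rw [h1, h2]
      exact (Q.adj_getVert_succ (by rw [hQ]; omega)).1

theorem ShortOdd.neg {g : ℕ} {c : ZMod g → V} (h : ShortOdd G g c) :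
    ShortOdd G g (fun i => c (-i)) := by
  refine ⟨h.odd, h.five, fun i => ?_, h.min⟩
  have := h.adj (-(i + 1))
  have e : -(i + 1) + 1 = -i := by ring
  rw [e] at this
  exact this.symm

theorem restG_neg {g : ℕ} (c : ZMod g → V) : restG G (fun i => c (-i)) = restG G c := by
  have h : ∀ u, (∀ i, c (-i) ≠ u) ↔ ∀ i, c i ≠ u := by
    intro u
    constructor
    · intro h i
      have := h (-i)
      rwa [neg_neg] at this
    · intro h i
      exact h (-i)
  ext u w
  change (G.Adj u w ∧ (∀ i, c (-i) ≠ u) ∧ (∀ i, c (-i) ≠ w)) ↔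
    (G.Adj u w ∧ (∀ i, c i ≠ u) ∧ (∀ i, c i ≠ w))
  rw [h u, h w]

theorem tripod (h : ShortOdd G 9 c) (hV : Fintype.card V = 17) {b : V}
    {i0 : ZMod 9} (hb : ∀ i, c i ≠ b) (hbi : G.Adj b (c i0)) (hcon : ¬ Consistent G c b i0) :
    ∃ d a q t : ℕ, validTri d a q t ∧ ∃ e : ℕ → V,
      (∀ k l, k < 17 → l < 17 → e k = e l → k = l) ∧
      ∀ p ∈ triEdges d a q t, G.Adj (e p.1) (e p.2) := by
  unfold Consistent at hcon
  push Not at hcon
  obtain ⟨x, y, i, j, δ₁, δ₂, δ₃, hx, hy, hxi, hyj, e1, e2, e3, a1, a2, a3, p1, p2, p3, hne⟩ := hcon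
  have d1 := h.rest_dist hx hb
  have d2 := h.rest_dist hy hb
  have d3 := h.rest_dist (hx.symm.trans hy) (rest_reach hx hb)
  rw [hV] at d1 d2 d3
  have hz : ((δ₁ + δ₃ - δ₂ : ℤ) : ZMod 9) = 0 := by
    push_cast; rw [e1, e2, e3]; ring
  rw [ZMod.intCast_zmod_eq_zero_iff_dvd] at hz
  have hpar : Even ((restG G c).dist b x + (restG G c).dist x y + (restG G c).dist b y) := by
    obtain ⟨p, hp⟩ := hx.exists_walk_length_eq_dist
    obtain ⟨q, hq⟩ := (hx.symm.trans hy).exists_walk_length_eq_dist
    obtain ⟨r, hr⟩ := hy.exists_walk_length_eq_dist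
    have := h.rest_parity (by omega) (p.append q) r
    rwa [Walk.length_append, hp, hq, hr] at this
  have b1 := abs_le.1 a1
  have b2 := abs_le.1 a2
  have b3 := abs_le.1 a3
  have hS : δ₁ + δ₃ - δ₂ = 18 ∨ -δ₁ + -δ₃ - -δ₂ = 18 := by
    obtain ⟨k, hk⟩ := hz
    obtain ⟨k1, hk1⟩ := p1
    obtain ⟨k2, hk2⟩ := p2
    obtain ⟨k3, hk3⟩ := p3
    obtain ⟨k4, hk4⟩ := hpar
    push_cast at hk
    omega
  rcases hS with hS | hS
  · exact tripod_pos h hV hb hbi hx hy hxi hyj e1 e2 a1 a2 a3 p1 p2 p3 hS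
  · have hneg : ∀ (δ : ℤ) (n : ℕ), Even (δ - n) → Even (-δ - n) := by
      rintro δ n ⟨k, hk⟩
      exact ⟨-k - n, by omega⟩
    have h' := h.neg
    refine tripod_pos (c := fun i => c (-i)) (b := b) (x := x) (y := y) (i0 := -i0) (i := -i)
      (j := -j) (δ₁ := -δ₁) (δ₂ := -δ₂) (δ₃ := -δ₃) h' hV (fun i => hb (-i)) ?_ ?_ ?_ ?_ ?_ ?_ ?_
      ?_ ?_ ?_ ?_ ?_ ?_ hS
    · rw [neg_neg]; exact hbi
    · rw [restG_neg]; exact hx
    · rw [restG_neg]; exact hy
    · rw [neg_neg]; exact hxi
    · rw [neg_neg]; exact hyj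
    · push_cast; rw [e1]; ring
    · push_cast; rw [e2]; ring
    · rw [restG_neg, abs_neg]; exact a1
    · rw [restG_neg, abs_neg]; exact a2
    · rw [restG_neg, abs_neg]; exact a3
    · rw [restG_neg]; exact hneg _ _ p1
    · rw [restG_neg]; exact hneg _ _ p2
    · rw [restG_neg]; exact hneg _ _ p3

instance (d a q t : ℕ) : Decidable (validTri d a q t) := by unfold validTri; infer_instance

theorem certs_complete : ∀ d < 8, ∀ a < 8, ∀ q < 8, ∀ t < 4, validTri d a q t →
    (certs.any fun x => x.1 == d && x.2.1 == a && x.2.2.1 == q && x.2.2.2.1 == t) = true := by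
  decide +kernel

theorem triEdges_lt : ∀ d < 8, ∀ a < 8, ∀ q < 8, ∀ t < 4, validTri d a q t →
    (triEdges d a q t).all (fun p => decide (p.1 < 17 ∧ p.2 < 17)) = true := by
  decide +kernel

theorem maskOf_testBit {l : List (ℕ × ℕ)} (hl : ∀ p ∈ l, p.1 < 17 ∧ p.2 < 17) {a b : ℕ}
    (ha : a < 17) (hb : b < 17) (h : (maskOf l).testBit (17 * a + b) = true) :
    ∃ p ∈ l, (a = p.1 ∧ b = p.2) ∨ (a = p.2 ∧ b = p.1) := by
  induction l with
  | nil => simp [maskOf] at h
  | cons p l ih =>
    change (edgeBit p.1 p.2 ||| maskOf l).testBit _ = true at h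
    rw [Nat.testBit_or, Bool.or_eq_true] at h
    rcases h with h | h
    · have hp := hl p List.mem_cons_self
      exact ⟨p, List.mem_cons_self, edgeBit_testBit hp.1 hp.2 ha hb h⟩
    · obtain ⟨p', hp', h'⟩ := ih (fun q hq => hl q (List.mem_cons_of_mem _ hq)) h
      exact ⟨p', List.mem_cons_of_mem _ hp', h'⟩

/-- An inconsistent lift: the graph maps to the cycle of length 9 or is exceptional. -/
theorem exc_of_inconsistent (h : ShortOdd G 9 c) (hV : Fintype.card V = 17) {b : V}
    {i0 : ZMod 9} (hb : ∀ i, c i ≠ b) (hbi : G.Adj b (c i0)) (hcon : ¬ Consistent G c b i0)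
    (hG : ∀ v (p : G.Walk v v), Odd p.length → 7 < p.length) (hα : AlphaEight G) :
    (∃ f : V → ZMod 9, CycHom G 9 f) ∨ ∃ k < 9, ∃ π : V → Fin 17, Function.Injective π ∧
      ∀ u v, G.Adj u v → mbit (excGraph k) (π u) (π v) = true := by
  classical
  obtain ⟨d, a, q, t, hval, e, hinj, hedge⟩ := tripod h hV hb hbi hcon
  have hd : d < 8 := by unfold validTri at hval; omega
  have ha : a < 8 := by unfold validTri at hval; omega
  have hq : q < 8 := by unfold validTri at hval; omega
  have ht : t < 4 := by unfold validTri at hval; omega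
  have hbij : Function.Bijective (fun k : Fin 17 => e k) := by
    rw [Fintype.bijective_iff_injective_and_card]
    exact ⟨fun k l hkl => Fin.ext (hinj k l k.2 l.2 hkl), by rw [Fintype.card_fin, hV]⟩
  let φ : Fin 17 ≃ V := Equiv.ofBijective _ hbij
  have hφ : ∀ k : Fin 17, φ k = e k := fun k => rfl
  have hc := certs_complete d hd a ha q hq t ht hval
  rw [List.any_eq_true] at hc
  obtain ⟨x, hx, hxe⟩ := hc
  rw [Bool.and_eq_true, Bool.and_eq_true, Bool.and_eq_true, beq_iff_eq, beq_iff_eq, beq_iff_eq,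
    beq_iff_eq] at hxe
  obtain ⟨⟨⟨x1, x2⟩, x3⟩, x4⟩ := hxe
  have hok := certs_ok
  rw [List.all_eq_true] at hok
  have hok := hok x hx
  rw [x1, x2, x3, x4] at hok
  have hlt := triEdges_lt d hd a ha q hq t ht hval
  rw [List.all_eq_true] at hlt
  have hlt : ∀ p ∈ triEdges d a q t, p.1 < 17 ∧ p.2 < 17 := fun p hp => by
    have := hlt p hp
    rwa [decide_eq_true_iff] at this
  have hgoal := check_sound excGraph x.2.2.2.2 _ _ hok (G.comap φ) (by
      intro u v huv
      obtain ⟨p, hp, hpe⟩ := maskOf_testBit hlt u.2 v.2 huv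
      have h1 := hedge p hp
      change G.Adj (φ u) (φ v)
      rw [hφ, hφ]
      rcases hpe with ⟨e1, e2⟩ | ⟨e1, e2⟩
      · rw [e1, e2]; exact h1
      · rw [e1, e2]; exact h1.symm) (by
      intro u v huv
      simp at huv) (by
      intro v p hp
      have := hG _ (p.map (SimpleGraph.Hom.comap φ G)) (by rw [Walk.length_map]; exact hp)
      rwa [Walk.length_map] at this) (by
      intro S hS
      have := hα (S.map φ.toEmbedding) (by
        intro u hu w hw
        rw [Finset.mem_map] at hu hw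
        obtain ⟨u, hu, rfl⟩ := hu
        obtain ⟨w, hw, rfl⟩ := hw
        exact hS u hu w hw)
      rwa [Finset.card_map] at this)
  rcases hgoal with ⟨f, hf⟩ | ⟨k, hk, π, hπ, hadj⟩
  · left
    refine ⟨fun u => f (φ.symm u), fun u w huw => ?_⟩
    exact hf (φ.symm u) (φ.symm w) (by
      change G.Adj (φ (φ.symm u)) (φ (φ.symm w))
      rw [Equiv.apply_symm_apply, Equiv.apply_symm_apply]
      exact huw)
  · right
    refine ⟨k, hk, fun u => π (φ.symm u), hπ.comp φ.symm.injective, fun u w huw => ?_⟩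
    exact hadj (φ.symm u) (φ.symm w) (by
      change G.Adj (φ (φ.symm u)) (φ (φ.symm w))
      rw [Equiv.apply_symm_apply, Equiv.apply_symm_apply]
      exact huw)

/-- The structure theorem for `m = 3`. -/
theorem cycHom_or_exc_of_three {G : SimpleGraph V} (hV : Fintype.card V = 17)
    (hα : AlphaEight G)
    (hG : ∀ v (p : G.Walk v v), Odd p.length → 7 < p.length) :
    (∃ f : V → ZMod 9, CycHom G 9 f) ∨ ∃ k < 9, ∃ π : V → Fin 17, Function.Injective π ∧
      ∀ u v, G.Adj u v → mbit (excGraph k) (π u) (π v) = true := by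
  classical
  have hnb : ∃ v, ∃ p : G.Walk v v, Odd p.length := by
    by_contra hcon
    push Not at hcon
    have hcol : G.Colorable 2 := by
      rw [two_colorable_iff_forall_loop_even]
      exact fun v p => Nat.not_odd_iff_even.1 (hcon v p)
    obtain ⟨col⟩ := hcol
    have h1 : ∀ x : Fin 2, (univ.filter (fun v : V => col v = x)).card ≤ 8 := by
      intro x
      apply hα
      intro u hu w hw huw
      simp only [mem_filter, mem_univ, true_and] at hu hw
      exact col.valid huw (hu.trans hw.symm)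
    have h3 := Finset.card_eq_sum_card_fiberwise (s := (univ : Finset V))
      (t := (univ : Finset (Fin 2))) (f := col) (fun _ _ => mem_coe.2 (mem_univ _))
    rw [Finset.card_univ, hV, Fin.sum_univ_two] at h3
    have := h1 0
    have := h1 1
    omega
  obtain ⟨g, c, h, hg⟩ := exists_shortOdd hnb (m := 3) (by omega) (fun v p hp => hG v p hp)
  have hNe : NeZero g := ⟨by omega⟩
  rcases Nat.lt_or_ge g 11 with hg11 | hg11
  · have hg9 : g = 9 := by
      obtain ⟨k, hk⟩ := h.odd
      omega
    subst hg9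
    by_cases hcon : ∀ b i0, (∀ i, c i ≠ b) → G.Adj b (c i0) → Consistent G c b i0
    · obtain ⟨f, hf1, hf2⟩ := h.exists_hom (by omega) hcon
      exact Or.inl ⟨f, hf2⟩
    · push Not at hcon
      obtain ⟨b, i0, hb, hbi, hcon⟩ := hcon
      exact exc_of_inconsistent h hV hb hbi hcon hG hα
  · obtain ⟨f, hf1, hf2⟩ := h.exists_hom (by omega)
      (fun b i0 hb _ => h.consistent_of_eleven hV hg11 b i0 hb)
    exact Or.inl ⟨_, CycHom.foldTo (f := f) hf2 (by omega) ⟨4, by norm_num⟩ h.odd (by omega)⟩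

end Pool.Agent.Work.MP_92a29d_co
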